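import Pool.Agent.H5Dich.Defs
import Pool.Agent.H5Sym.Basic

/-!
# Equivariant families of Boolean functions and invariant circuits which compute them
-/

set_option autoImplicit false

namespace Pool.Agent.H5Dich

open Pool.Agent.H5Sym

variable {T G : Type} (act : G → Equiv.Perm T) (Ok : (Multiset (ℕ × Bool) → Bool) → Prop)

/-- The family `f` of Boolean functions is computed by a circuit with at most `N` gates with functions
in `Ok`, on which `G` acts by automorphisms; on the family `G` acts by `aX`. -/
def Comp {X : Type} (aX : G → Equiv.Perm X) (f : X → (T → Bool) → Bool) (N : ℕ) : Prop :=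
  ∃ (C : Circuit.{0, 0, 0} T Bool) (o : X → C.Gate), Finite C.Gate ∧ Nat.card C.Gate ≤ N ∧
    (∀ g, Ok (C.op g)) ∧ (∀ x φ, C.eval φ (o x) = f x φ) ∧
      ∀ u, ∃ π, C.IsAut (act u) π ∧ ∀ x, π (o x) = o (aX u x)

variable {act Ok}

theorem Comp.start [Finite T] (hOk : Ok orLit) :
    Comp act Ok act (fun (t : T) φ => φ t) (Nat.card T + 1) := by
  refine ⟨{ Gate := Option T
            input := fun g => g
            wires := fun _ => 0
            op := fun _ => orLit
            level := fun _ => 0
            level_lt := by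
              intro g e he
              exact absurd he (Multiset.notMem_zero e)
            out := none }, some, inferInstance, ?_, fun _ => hOk, ?_, ?_⟩
  · exact le_of_eq Finite.card_option
  · intro t φ
    exact Circuit.eval_some _ rfl
  · intro u
    refine ⟨Equiv.optionCongr (act u), ⟨?_, ?_, ?_, ?_⟩, fun t => rfl⟩
    · rintro (_ | t) <;> rfl
    · intro g; rfl
    · intro g; rfl
    · rfl

theorem Comp.mono {X : Type} {aX : G → Equiv.Perm X} {f : X → (T → Bool) → Bool} {N N' : ℕ}
    (h : Comp act Ok aX f N) (hN : N ≤ N') : Comp act Ok aX f N' := by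
  obtain ⟨C, o, h1, h2, h3⟩ := h
  exact ⟨C, o, h1, h2.trans hN, h3⟩

theorem Comp.comap {X Y : Type} {aX : G → Equiv.Perm X} {f : X → (T → Bool) → Bool} {N : ℕ}
    (h : Comp act Ok aX f N) (aY : G → Equiv.Perm Y) (k : Y → X)
    (hk : ∀ u y, k (aY u y) = aX u (k y)) : Comp act Ok aY (fun y => f (k y)) N := by
  obtain ⟨C, o, h1, h2, h3, h4, h5⟩ := h
  refine ⟨C, fun y => o (k y), h1, h2, h3, fun y => h4 (k y), fun u => ?_⟩
  obtain ⟨π, h6, h7⟩ := h5 u
  refine ⟨π, h6, fun y => ?_⟩
  dsimp only
  rw [h7, hk]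

theorem Comp.congr {X : Type} {aX : G → Equiv.Perm X} {f f' : X → (T → Bool) → Bool} {N : ℕ}
    (h : Comp act Ok aX f N) (hf : ∀ x φ, f x φ = f' x φ) : Comp act Ok aX f' N := by
  obtain ⟨C, o, h1, h2, h3, h4, h5⟩ := h
  exact ⟨C, o, h1, h2, h3, fun x φ => by rw [h4, hf], h5⟩

/-- the circuit `C` with new gates on top -/
def top {Y : Type} (C : Circuit.{0, 0, 0} T Bool) (w : Y → Multiset (ℕ × C.Gate))
    (op : Y → Multiset (ℕ × Bool) → Bool) (M : ℕ) (hM : ∀ g, C.level g ≤ M) :
    Circuit.{0, 0, 0} T Bool where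
  Gate := C.Gate ⊕ Y
  input := Sum.elim C.input fun _ => none
  wires := Sum.elim (fun g => (C.wires g).map (Prod.map id Sum.inl))
    fun y => (w y).map (Prod.map id Sum.inl)
  op := Sum.elim C.op op
  level := Sum.elim C.level fun _ => M + 1
  level_lt := by
    rintro (g | y) e he
    · simp only [Sum.elim_inl, Multiset.mem_map] at he
      obtain ⟨e', he', rfl⟩ := he
      exact C.level_lt g e' he'
    · simp only [Sum.elim_inr, Multiset.mem_map] at he
      obtain ⟨e', he', rfl⟩ := he
      exact Nat.lt_succ_of_le (hM _)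
  out := Sum.inl C.out

theorem top_eval_inl {Y : Type} (C : Circuit.{0, 0, 0} T Bool) (w : Y → Multiset (ℕ × C.Gate))
    (op : Y → Multiset (ℕ × Bool) → Bool) (M : ℕ) (hM : ∀ g, C.level g ≤ M) (φ : T → Bool) :
    ∀ g, (top C w op M hM).eval φ (Sum.inl g) = C.eval φ g := by
  suffices H : ∀ n, ∀ g, C.level g = n → (top C w op M hM).eval φ (Sum.inl g) = C.eval φ g from
    fun g => H _ g rfl
  intro n
  induction n using Nat.strong_induction_on with
  | _ n ih =>
    intro g hg
    rcases hi : C.input g with _ | t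
    · have h1 : (top C w op M hM).input (Sum.inl g) = none := hi
      rw [C.eval_none hi, (top C w op M hM).eval_none h1]
      change C.op g (((C.wires g).map (Prod.map id Sum.inl)).map
        fun e => (e.1, (top C w op M hM).eval φ e.2)) = _
      rw [Multiset.map_map]
      congr 1
      refine Multiset.map_congr rfl fun e he => ?_
      simp only [Function.comp, Prod.map, id]
      rw [ih _ (hg ▸ C.level_lt g e he) e.2 rfl]
    · have h1 : (top C w op M hM).input (Sum.inl g) = some t := hi
      rw [C.eval_some hi, (top C w op M hM).eval_some h1]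

theorem top_eval_inr {Y : Type} (C : Circuit.{0, 0, 0} T Bool) (w : Y → Multiset (ℕ × C.Gate))
    (op : Y → Multiset (ℕ × Bool) → Bool) (M : ℕ) (hM : ∀ g, C.level g ≤ M) (φ : T → Bool) (y : Y) :
    (top C w op M hM).eval φ (Sum.inr y) = op y ((w y).map fun e => (e.1, C.eval φ e.2)) := by
  have h1 : (top C w op M hM).input (Sum.inr y) = none := rfl
  rw [(top C w op M hM).eval_none h1]
  change op y (((w y).map (Prod.map id Sum.inl)).map
    fun e => (e.1, (top C w op M hM).eval φ e.2)) = _
  rw [Multiset.map_map]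
  congr 1
  refine Multiset.map_congr rfl fun e _ => ?_
  simp only [Function.comp, Prod.map, id]
  rw [top_eval_inl]

theorem Comp.extend {X Y : Type} [Finite Y] {aX : G → Equiv.Perm X} {f : X → (T → Bool) → Bool}
    {N : ℕ} (h : Comp act Ok aX f N) (aY : G → Equiv.Perm Y) (w : Y → Multiset (ℕ × X))
    (op : Y → Multiset (ℕ × Bool) → Bool)
    (hw : ∀ u y, w (aY u y) = (w y).map (Prod.map id (aX u))) (hop : ∀ u y, op (aY u y) = op y)
    (hOk : ∀ y, Ok (op y)) :
    Comp act Ok (fun u => Equiv.sumCongr (aX u) (aY u))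
      (Sum.elim f fun y φ => op y ((w y).map fun e => (e.1, f e.2 φ))) (N + Nat.card Y) := by
  obtain ⟨C, o, h1, h2, h3, h4, h5⟩ := h
  obtain ⟨M, hM⟩ := (Set.finite_range C.level).bddAbove
  have hM' : ∀ g, C.level g ≤ M := fun g => hM ⟨g, rfl⟩
  let C' := top C (fun y => (w y).map (Prod.map id o)) op M hM'
  refine ⟨C', Sum.map o id, ?_, ?_, ?_, ?_, ?_⟩
  · change Finite (C.Gate ⊕ Y)
    infer_instance
  · change Nat.card (C.Gate ⊕ Y) ≤ _
    rw [Nat.card_sum]
    omega
  · rintro (g | y)
    · exact h3 g
    · exact hOk y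
  · rintro (x | y) φ
    · change C'.eval φ (Sum.inl (o x)) = f x φ
      rw [top_eval_inl, h4]
    · change C'.eval φ (Sum.inr y) = op y ((w y).map fun e => (e.1, f e.2 φ))
      rw [top_eval_inr, Multiset.map_map]
      congr 1
      refine Multiset.map_congr rfl fun e _ => ?_
      simp only [Function.comp, Prod.map, id]
      rw [h4]
  · intro u
    obtain ⟨π, h6, h7⟩ := h5 u
    refine ⟨Equiv.sumCongr π (aY u), ⟨?_, ?_, ?_, ?_⟩, ?_⟩
    · rintro (g | y)
      · exact h6.input g
      · rfl
    · rintro (g | y)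
      · change (C.wires (π g)).map (Prod.map id Sum.inl) =
          ((C.wires g).map (Prod.map id Sum.inl)).map (Prod.map id (Equiv.sumCongr π (aY u)))
        rw [h6.wires, Multiset.map_map, Multiset.map_map]
        rfl
      · change ((w (aY u y)).map (Prod.map id o)).map (Prod.map id Sum.inl) =
          (((w y).map (Prod.map id o)).map (Prod.map id Sum.inl)).map
            (Prod.map id (Equiv.sumCongr π (aY u)))
        rw [hw, Multiset.map_map, Multiset.map_map, Multiset.map_map, Multiset.map_map]
        refine Multiset.map_congr rfl fun e _ => ?_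
        simp only [Function.comp, Prod.map, id, Equiv.sumCongr_apply, Sum.map_inl]
        rw [h7]
    · rintro (g | y)
      · exact h6.op g
      · exact hop u y
    · change Sum.inl (π C.out) = Sum.inl C.out
      rw [h6.out]
    · rintro (x | y)
      · change Sum.inl (π (o x)) = Sum.inl (o (aX u x))
        rw [h7]
      · rfl

open Classical in
/-- the wires of a gate with positive literals `p y` and negative literals `q y` -/
noncomputable def lits {X Y : Type} [Fintype X] (p q : Y → X → Prop) (y : Y) : Multiset (ℕ × X) :=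
  (Finset.univ.filter (p y)).val.map (fun x => (0, x)) +
    (Finset.univ.filter (q y)).val.map (fun x => (1, x))

theorem mem_lits {X Y : Type} [Fintype X] {p q : Y → X → Prop} {y : Y} {f : X → Bool} {l : ℕ}
    {b : Bool} : (l, b) ∈ (lits p q y).map (fun e => (e.1, f e.2)) ↔
      (l = 0 ∧ ∃ x, p y x ∧ f x = b) ∨ (l = 1 ∧ ∃ x, q y x ∧ f x = b) := by
  classical
  simp only [lits, Multiset.map_add, Multiset.map_map, Multiset.mem_add, Multiset.mem_map,
    Finset.mem_val, Finset.mem_filter, Finset.mem_univ, true_and, Function.comp, Prod.mk.injEq]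
  constructor
  · rintro (⟨x, h1, h2, h3⟩ | ⟨x, h1, h2, h3⟩)
    · exact Or.inl ⟨h2.symm, x, h1, h3⟩
    · exact Or.inr ⟨h2.symm, x, h1, h3⟩
  · rintro (⟨h2, x, h1, h3⟩ | ⟨h2, x, h1, h3⟩)
    · exact Or.inl ⟨x, h1, h2.symm, h3⟩
    · exact Or.inr ⟨x, h1, h2.symm, h3⟩

theorem lits_equivariant {X Y : Type} [Fintype X] {p q : Y → X → Prop} {aX : Equiv.Perm X}
    {aY : Equiv.Perm Y} (hp : ∀ y x, p (aY y) (aX x) ↔ p y x) (hq : ∀ y x, q (aY y) (aX x) ↔ q y x)
    (y : Y) : lits p q (aY y) = (lits p q y).map (Prod.map id aX) := by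
  classical
  have h : ∀ (r : Y → X → Prop) (_ : ∀ y x, r (aY y) (aX x) ↔ r y x) (l : ℕ),
      (Finset.univ.filter (r (aY y))).val.map (fun x => (l, x)) =
        ((Finset.univ.filter (r y)).val.map (fun x => (l, x))).map (Prod.map id aX) := by
    intro r hr l
    have h1 : Finset.univ.filter (r (aY y)) = (Finset.univ.filter (r y)).map aX.toEmbedding := by
      ext x
      simp only [Finset.mem_filter, Finset.mem_univ, true_and, Finset.mem_map, Equiv.coe_toEmbedding]
      constructor
      · intro h
        refine ⟨aX.symm x, ?_, aX.apply_symm_apply x⟩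
        rw [← hr, aX.apply_symm_apply]
        exact h
      · rintro ⟨x', h, rfl⟩
        exact (hr y x').2 h
    rw [h1, Finset.map_val, Multiset.map_map, Multiset.map_map]
    rfl
  rw [lits, lits, Multiset.map_add, h p hp 0, h q hq 1]

/-- new OR gates -/
theorem Comp.or {X Y : Type} [Finite X] [Finite Y] {aX : G → Equiv.Perm X}
    {f : X → (T → Bool) → Bool} {N : ℕ} (h : Comp act Ok aX f N) (hOk : Ok orLit)
    (aY : G → Equiv.Perm Y) (p q : Y → X → Prop) (hp : ∀ u y x, p (aY u y) (aX u x) ↔ p y x)
    (hq : ∀ u y x, q (aY u y) (aX u x) ↔ q y x) (f' : Y → (T → Bool) → Bool)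
    (hf' : ∀ y φ, f' y φ = true ↔ (∃ x, p y x ∧ f x φ = true) ∨ ∃ x, q y x ∧ f x φ = false) :
    Comp act Ok (fun u => Equiv.sumCongr (aX u) (aY u)) (Sum.elim f f') (N + Nat.card Y) := by
  have : Fintype X := Fintype.ofFinite X
  refine (h.extend aY (lits p q) (fun _ => orLit)
    (fun u y => lits_equivariant (hp u) (hq u) y) (fun _ _ => rfl) fun _ => hOk).congr ?_
  rintro (x | y) φ
  · rfl
  · rw [Sum.elim_inr, Sum.elim_inr, Bool.eq_iff_iff, hf', orLit, decide_eq_true_eq,
      mem_lits (f := fun x => f x φ), mem_lits (f := fun x => f x φ)]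
    simp

/-- new AND gates -/
theorem Comp.and {X Y : Type} [Finite X] [Finite Y] {aX : G → Equiv.Perm X}
    {f : X → (T → Bool) → Bool} {N : ℕ} (h : Comp act Ok aX f N) (hOk : Ok andLit)
    (aY : G → Equiv.Perm Y) (p q : Y → X → Prop) (hp : ∀ u y x, p (aY u y) (aX u x) ↔ p y x)
    (hq : ∀ u y x, q (aY u y) (aX u x) ↔ q y x) (f' : Y → (T → Bool) → Bool)
    (hf' : ∀ y φ, f' y φ = true ↔ (∀ x, p y x → f x φ = true) ∧ ∀ x, q y x → f x φ = false) :
    Comp act Ok (fun u => Equiv.sumCongr (aX u) (aY u)) (Sum.elim f f') (N + Nat.card Y) := by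
  have : Fintype X := Fintype.ofFinite X
  refine (h.extend aY (lits p q) (fun _ => andLit)
    (fun u y => lits_equivariant (hp u) (hq u) y) (fun _ _ => rfl) fun _ => hOk).congr ?_
  rintro (x | y) φ
  · rfl
  · rw [Sum.elim_inr, Sum.elim_inr, Bool.eq_iff_iff, hf', andLit, decide_eq_true_eq,
      mem_lits (f := fun x => f x φ), mem_lits (f := fun x => f x φ)]
    simp only [zero_ne_one, one_ne_zero, false_and, or_false, false_or, true_and, not_exists,
      not_and, Bool.not_eq_false, Bool.not_eq_true]

/-- constants -/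
theorem Comp.const {X Y : Type} [Finite Y] {aX : G → Equiv.Perm X}
    {f : X → (T → Bool) → Bool} {N : ℕ} (h : Comp act Ok aX f N) (hOk : Ok orLit) (hOk' : Ok andLit)
    (aY : G → Equiv.Perm Y) (b : Y → Bool) (hb : ∀ u y, b (aY u y) = b y) :
    Comp act Ok (fun u => Equiv.sumCongr (aX u) (aY u)) (Sum.elim f fun y _ => b y)
      (N + Nat.card Y) := by
  refine (h.extend aY (fun _ => 0) (fun y => if b y then andLit else orLit)
    (fun u y => rfl) (fun u y => by rw [hb]) fun y => ?_).congr ?_
  · split_ifs
    · exact hOk'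
    · exact hOk
  · rintro (x | y) φ
    · rfl
    · rw [Sum.elim_inr, Sum.elim_inr]
      cases hby : b y
      · rw [if_neg (by simp)]
        simp [orLit]
      · rw [if_pos rfl]
        simp [andLit]

universe w

/-- the wires of the gates of `C` in `glue` -/
def glueW {A : Type} (o : T → A) (C : Circuit.{0, 0, w} T Bool) (g : C.Gate) :
    Multiset (ℕ × (A ⊕ C.Gate)) :=
  match C.input g with
  | some t => {(0, Sum.inl (o t))}
  | none => (C.wires g).map (Prod.map id Sum.inr)

theorem glueW_some {A : Type} {o : T → A} {C : Circuit.{0, 0, w} T Bool} {g : C.Gate} {t : T}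
    (h : C.input g = some t) : glueW o C g = {(0, Sum.inl (o t))} := by
  simp only [glueW, h]

theorem glueW_none {A : Type} {o : T → A} {C : Circuit.{0, 0, w} T Bool} {g : C.Gate}
    (h : C.input g = none) : glueW o C g = (C.wires g).map (Prod.map id Sum.inr) := by
  simp only [glueW, h]

/-- the functions of the gates of `C` in `glue` -/
def glueO (C : Circuit.{0, 0, w} T Bool) (g : C.Gate) : Multiset (ℕ × Bool) → Bool :=
  match C.input g with
  | some _ => orLit
  | none => C.op g

theorem glueO_some {C : Circuit.{0, 0, w} T Bool} {g : C.Gate} {t : T}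
    (h : C.input g = some t) : glueO C g = orLit := by
  simp only [glueO, h]

theorem glueO_none {C : Circuit.{0, 0, w} T Bool} {g : C.Gate}
    (h : C.input g = none) : glueO C g = C.op g := by
  simp only [glueO, h]

/-- the circuit `C` on top of the gates `o t` of the circuit `C₀` -/
def glue (C₀ : Circuit.{0, 0, 0} T Bool) (o : T → C₀.Gate) (M : ℕ) (hM : ∀ g, C₀.level g ≤ M)
    (C : Circuit.{0, 0, w} T Bool) : Circuit.{0, 0, w} T Bool where
  Gate := C₀.Gate ⊕ C.Gate
  input := Sum.elim C₀.input fun _ => none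
  wires := Sum.elim (fun g => (C₀.wires g).map (Prod.map id Sum.inl))
    (glueW o C)
  op := Sum.elim C₀.op (glueO C)
  level := Sum.elim C₀.level fun g => M + 1 + C.level g
  level_lt := by
    rintro (g | g) e he
    · simp only [Sum.elim_inl, Multiset.mem_map] at he
      obtain ⟨e', he', rfl⟩ := he
      exact C₀.level_lt g e' he'
    · simp only [Sum.elim_inr] at he
      cases hi : C.input g with
      | none =>
        rw [glueW_none hi] at he
        simp only [Multiset.mem_map] at he
        obtain ⟨e', he', rfl⟩ := he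
        have := C.level_lt g e' he'
        change M + 1 + C.level e'.2 < M + 1 + C.level g
        omega
      | some t =>
        rw [glueW_some hi] at he
        simp only [Multiset.mem_singleton] at he
        subst he
        change C₀.level (o t) < M + 1 + C.level g
        have := hM (o t)
        omega
  out := Sum.inr C.out

theorem glue_eval_inl (C₀ : Circuit.{0, 0, 0} T Bool) (o : T → C₀.Gate) (M : ℕ)
    (hM : ∀ g, C₀.level g ≤ M) (C : Circuit.{0, 0, w} T Bool) (φ : T → Bool) :
    ∀ g, (glue C₀ o M hM C).eval φ (Sum.inl g) = C₀.eval φ g := by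
  suffices H : ∀ n, ∀ g, C₀.level g = n → (glue C₀ o M hM C).eval φ (Sum.inl g) = C₀.eval φ g from
    fun g => H _ g rfl
  intro n
  induction n using Nat.strong_induction_on with
  | _ n ih =>
    intro g hg
    rcases hi : C₀.input g with _ | t
    · have h1 : (glue C₀ o M hM C).input (Sum.inl g) = none := hi
      rw [C₀.eval_none hi, (glue C₀ o M hM C).eval_none h1]
      change C₀.op g (((C₀.wires g).map (Prod.map id Sum.inl)).map
        fun e => (e.1, (glue C₀ o M hM C).eval φ e.2)) = _
      rw [Multiset.map_map]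
      congr 1
      refine Multiset.map_congr rfl fun e he => ?_
      simp only [Function.comp, Prod.map, id]
      rw [ih _ (hg ▸ C₀.level_lt g e he) e.2 rfl]
    · have h1 : (glue C₀ o M hM C).input (Sum.inl g) = some t := hi
      rw [C₀.eval_some hi, (glue C₀ o M hM C).eval_some h1]

theorem glue_eval_inr (C₀ : Circuit.{0, 0, 0} T Bool) (o : T → C₀.Gate) (M : ℕ)
    (hM : ∀ g, C₀.level g ≤ M) (C : Circuit.{0, 0, w} T Bool) (φ : T → Bool) :
    ∀ g, (glue C₀ o M hM C).eval φ (Sum.inr g) = C.eval (fun t => C₀.eval φ (o t)) g := by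
  suffices H : ∀ n, ∀ g, C.level g = n → (glue C₀ o M hM C).eval φ (Sum.inr g) =
      C.eval (fun t => C₀.eval φ (o t)) g from fun g => H _ g rfl
  intro n
  induction n using Nat.strong_induction_on with
  | _ n ih =>
    intro g hg
    have h1 : (glue C₀ o M hM C).input (Sum.inr g) = none := rfl
    rw [(glue C₀ o M hM C).eval_none h1]
    change glueO C g ((glueW o C g).map fun e : ℕ × (C₀.Gate ⊕ C.Gate) =>
      (e.1, (glue C₀ o M hM C).eval φ e.2)) = _
    rcases hi : C.input g with _ | t
    · rw [C.eval_none hi, glueO_none hi, glueW_none hi, Multiset.map_map]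
      congr 1
      refine Multiset.map_congr rfl fun e he => ?_
      simp only [Function.comp, Prod.map, id]
      rw [ih _ (hg ▸ C.level_lt g e he) e.2 rfl]
    · rw [C.eval_some hi, glueO_some hi, glueW_some hi, Multiset.map_singleton]
      dsimp only
      rw [glue_eval_inl, orLit]
      simp

theorem Comp.final {f : T → (T → Bool) → Bool} {N : ℕ} (h : Comp act Ok (fun _ => 1) f N)
    (hOk : Ok orLit) (C : Circuit.{0, 0, w} T Bool) [Finite C.Gate] :
    ∃ C' : Circuit.{0, 0, w} T Bool, (∀ u, C'.Invariant (act u)) ∧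
      (∀ φ, C'.eval φ C'.out = C.eval (fun t => f t φ) C.out) ∧
      (∀ g, Ok (C'.op g) ∨ ∃ h, C'.op g = C.op h) ∧ Finite C'.Gate ∧
      Nat.card C'.Gate ≤ N + Nat.card C.Gate := by
  obtain ⟨C₀, o, h1, h2, h3, h4, h5⟩ := h
  obtain ⟨M, hM⟩ := (Set.finite_range C₀.level).bddAbove
  have hM' : ∀ g, C₀.level g ≤ M := fun g => hM ⟨g, rfl⟩
  refine ⟨glue C₀ o M hM' C, ?_, ?_, ?_, ?_, ?_⟩
  · intro u
    obtain ⟨π, h6, h7⟩ := h5 u
    refine ⟨Equiv.sumCongr π (Equiv.refl _), ⟨?_, ?_, ?_, ?_⟩⟩
    · rintro (g | g)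
      · exact h6.input g
      · rfl
    · rintro (g | g)
      · change (C₀.wires (π g)).map (Prod.map id Sum.inl) =
          ((C₀.wires g).map (Prod.map id Sum.inl)).map
            (Prod.map id (Equiv.sumCongr π (Equiv.refl C.Gate)))
        rw [h6.wires, Multiset.map_map, Multiset.map_map]
        rfl
      · change glueW o C g = (glueW o C g).map
          (Prod.map id (Equiv.sumCongr π (Equiv.refl C.Gate)))
        rcases hi : C.input g with _ | t
        · rw [glueW_none hi, Multiset.map_map]
          rfl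
        · rw [glueW_some hi, Multiset.map_singleton]
          change ({(0, Sum.inl (o t))} : Multiset (ℕ × (C₀.Gate ⊕ C.Gate))) = {(0, Sum.inl (π (o t)))}
          rw [h7]
          rfl
    · rintro (g | g)
      · exact h6.op g
      · rfl
    · rfl
  · intro φ
    change (glue C₀ o M hM' C).eval φ (Sum.inr C.out) = _
    rw [glue_eval_inr]
    congr 1
    funext t
    exact h4 t φ
  · rintro (g | g)
    · exact Or.inl (h3 g)
    · rcases hi : C.input g with _ | t
      · exact Or.inr ⟨g, glueO_none hi⟩
      · refine Or.inl ?_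
        change Ok (glueO C g)
        rw [glueO_some hi]
        exact hOk
  · change Finite (C₀.Gate ⊕ C.Gate)
    infer_instance
  · change Nat.card (C₀.Gate ⊕ C.Gate) ≤ _
    rw [Nat.card_sum]
    omega

end Pool.Agent.H5Dich
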