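import Pool.Agent.H5Dich.Gauge
import Pool.Agent.H5Dich.Comp

/-!
# The circuit which computes the canonical form of an instance
-/

set_option autoImplicit false

namespace Pool.Agent.H5Dich

open Module Pool.Agent.H5Sym

variable {Γ : Lang} {n : ℕ}

instance (Γ : Lang) : Finite Γ.Idx := Γ.finite

/-- scopes -/
abbrev Sc (Γ : Lang) (n : ℕ) : Type := (i : Γ.Idx) × (Fin (Γ.ar i) → Fin n)

/-- patterns of signs -/
abbrev Pt (σ : Sc Γ n) : Type := (Fin (Γ.ar σ.1) → F2) → Bool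

/-- the nodes: the variables and the constant `0` -/
abbrev Nd (n : ℕ) : Type := Option (Fin n)

abbrev S1 (Γ : Lang) (n : ℕ) : Type := (σ : Sc Γ n) × Pt σ

abbrev S3 (n : ℕ) : Type := Nd n × Nd n × F2

abbrev S2 (Γ : Lang) (n : ℕ) : Type := Sc Γ n × S3 n

abbrev S4 (Γ : Lang) (n : ℕ) : Type := (σ : Sc Γ n) × (Pt σ × (Fin (Γ.ar σ.1) → F2))

/-- flips act on patterns -/
def aP (σ : Sc Γ n) (u : Fin n → F2) : Equiv.Perm (Pt σ) :=
  Function.Involutive.toPerm (fun B a => B (a + u ∘ σ.2)) fun B => by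
    funext a
    change B (a + u ∘ σ.2 + u ∘ σ.2) = B a
    rw [add_assoc, add_self_mod, add_zero]

theorem aP_aP (σ : Sc Γ n) (u : Fin n → F2) (B : Pt σ) : aP σ u (aP σ u B) = B := by
  funext a
  change B (a + u ∘ σ.2 + u ∘ σ.2) = B a
  rw [add_assoc, add_self_mod, add_zero]

def a1 (u : Fin n → F2) : Equiv.Perm (S1 Γ n) := Equiv.sigmaCongrRight fun σ => aP σ u

/-- flips act on signed pairs -/
def a3 (u : Fin n → F2) : Equiv.Perm (S3 n) :=
  Function.Involutive.toPerm (fun s => (s.1, s.2.1, s.2.2 + (ext u s.1 + ext u s.2.1))) fun s => by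
    dsimp only
    rw [add_assoc, add_self_mod, add_zero]

def a2 (u : Fin n → F2) : Equiv.Perm (S2 Γ n) := Equiv.prodCongr (Equiv.refl _) (a3 u)

def a4 (u : Fin n → F2) : Equiv.Perm (S4 Γ n) :=
  Equiv.sigmaCongrRight fun σ => Equiv.prodCongr (aP σ u) (Equiv.addRight (u ∘ σ.2))

/-- the pattern of an instance on a scope -/
def pat (φ : Con Γ (Fin n) → Bool) (σ : Sc Γ n) : Pt σ := fun a => φ ⟨σ.1, (σ.2, a)⟩

open Classical in
noncomputable def f1 (s : S1 Γ n) (φ : Con Γ (Fin n) → Bool) : Bool := decide (pat φ s.1 = s.2)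

open Classical in
noncomputable def f2 (s : S2 Γ n) (φ : Con Γ (Fin n) → Bool) : Bool :=
  decide (edge (lset s.1 (pat φ s.1)) s.2.1 s.2.2.1 s.2.2.2)

/-- the action on the base family -/
def ab (u : Fin n → F2) : Equiv.Perm (S1 Γ n ⊕ S2 Γ n) := Equiv.sumCongr (a1 u) (a2 u)

/-- the number of gates for the base family -/
noncomputable def N0 (Γ : Lang) (n : ℕ) : ℕ :=
  Nat.card (Con Γ (Fin n)) + 1 + Nat.card (S1 Γ n) + Nat.card (S2 Γ n)

variable {Ok : (Multiset (ℕ × Bool) → Bool) → Prop}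

theorem comp_base (ho : Ok orLit) (ha : Ok andLit) :
    Comp (flipC : (Fin n → F2) → Equiv.Perm (Con Γ (Fin n))) Ok ab (Sum.elim f1 f2) (N0 Γ n) := by
  classical
  have h1 := (Comp.start (act := (flipC : (Fin n → F2) → Equiv.Perm (Con Γ (Fin n)))) ho).and ha
    (a1 (Γ := Γ) (n := n)) (fun s t => ∃ a, t = ⟨s.1.1, (s.1.2, a)⟩ ∧ s.2 a = true)
    (fun s t => ∃ a, t = ⟨s.1.1, (s.1.2, a)⟩ ∧ s.2 a = false) ?_ ?_ f1 ?_
  · have h2 := h1.comap (a1 (Γ := Γ) (n := n)) Sum.inr fun _ _ => rfl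
    have h3 := h2.or ho (a2 (Γ := Γ) (n := n))
      (fun s t => t.1 = s.1 ∧ edge (lset t.1 t.2) s.2.1 s.2.2.1 s.2.2.2) (fun _ _ => False)
      ?_ (fun _ _ _ => Iff.rfl) f2 ?_
    · exact h3.congr fun x φ => by rcases x with x | x <;> rfl
    · intro u s t
      change t.1 = s.1 ∧ edge (lset t.1 fun a => t.2 (a + u ∘ t.1.2)) s.2.1 s.2.2.1
        (s.2.2.2 + (ext u s.2.1 + ext u s.2.2.1)) ↔ _
      rw [lset_tr, edge_tr]
    · intro s φ
      rw [f2, decide_eq_true_eq]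
      constructor
      · intro h
        refine Or.inl ⟨⟨s.1, pat φ s.1⟩, ⟨rfl, h⟩, ?_⟩
        exact decide_eq_true rfl
      · rintro (⟨t, ⟨ht1, ht2⟩, ht3⟩ | ⟨t, ht, -⟩)
        · change decide (pat φ t.1 = t.2) = true at ht3
          rw [decide_eq_true_eq] at ht3
          rw [← ht3, ht1] at ht2
          exact ht2
        · exact ht.elim
  · rintro u ⟨σ, B⟩ t
    constructor
    · rintro ⟨a, h, h'⟩
      change Fin (Γ.ar σ.1) → F2 at a
      refine ⟨a + u ∘ σ.2, ?_, h'⟩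
      rw [← flipC_flipC u t, h, flipC_apply]
      rfl
    · rintro ⟨a, rfl, h'⟩
      refine ⟨a + u ∘ σ.2, rfl, ?_⟩
      change B (a + u ∘ σ.2 + u ∘ σ.2) = true
      rwa [add_assoc, add_self_mod, add_zero]
  · rintro u ⟨σ, B⟩ t
    constructor
    · rintro ⟨a, h, h'⟩
      change Fin (Γ.ar σ.1) → F2 at a
      refine ⟨a + u ∘ σ.2, ?_, h'⟩
      rw [← flipC_flipC u t, h, flipC_apply]
      rfl
    · rintro ⟨a, rfl, h'⟩
      refine ⟨a + u ∘ σ.2, rfl, ?_⟩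
      change B (a + u ∘ σ.2 + u ∘ σ.2) = false
      rwa [add_assoc, add_self_mod, add_zero]
  · intro s φ
    rw [f1, decide_eq_true_eq]
    constructor
    · intro h
      constructor
      · rintro t ⟨a, rfl, ha⟩
        rw [← h] at ha
        exact ha
      · rintro t ⟨a, rfl, ha⟩
        rw [← h] at ha
        exact ha
    · rintro ⟨h1, h2⟩
      funext a
      cases hb : s.2 a
      · exact h2 _ ⟨a, rfl, hb⟩
      · exact h1 _ ⟨a, rfl, hb⟩

/-- the connected pairs and their signs after the edges in the list have been processed -/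
def Qr (φ : Con Γ (Fin n) → Bool) : List (Sc Γ n × Nd n × Nd n) → Nd n → Nd n → F2 → Prop
  | [] => fun x y d => x = y ∧ d = 0
  | e :: l => step (fun d => edge (lset e.1 (pat φ e.1)) e.2.1 e.2.2 d) e.2.1 e.2.2 (Qr φ l)

open Classical in
noncomputable def Qf (l : List (Sc Γ n × Nd n × Nd n)) (s : S3 n) (φ : Con Γ (Fin n) → Bool) : Bool :=
  decide (Qr φ l s.1 s.2.1 s.2.2)

open Classical in
theorem Qf_true {l : List (Sc Γ n × Nd n × Nd n)} {s : S3 n} {φ : Con Γ (Fin n) → Bool} :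
    Qf l s φ = true ↔ Qr φ l s.1 s.2.1 s.2.2 := by
  rw [Qf, decide_eq_true_eq]

open Classical in
theorem Qf_false {l : List (Sc Γ n × Nd n × Nd n)} {s : S3 n} {φ : Con Γ (Fin n) → Bool} :
    Qf l s φ = false ↔ ¬ Qr φ l s.1 s.2.1 s.2.2 := by
  rw [Qf, decide_eq_false_iff_not]

open Classical in
theorem f2_true {s : S2 Γ n} {φ : Con Γ (Fin n) → Bool} :
    f2 s φ = true ↔ edge (lset s.1 (pat φ s.1)) s.2.1 s.2.2.1 s.2.2.2 := by
  rw [f2, decide_eq_true_eq]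

/-- the action on the base family and the signed pairs -/
def ax (u : Fin n → F2) : Equiv.Perm ((S1 Γ n ⊕ S2 Γ n) ⊕ S3 n) := Equiv.sumCongr (ab u) (a3 u)

theorem comp_nil (ho : Ok orLit) (ha : Ok andLit) :
    Comp (flipC : (Fin n → F2) → Equiv.Perm (Con Γ (Fin n))) Ok ax
      (Sum.elim (Sum.elim f1 f2) (Qf [])) (N0 Γ n + Nat.card (S3 n)) := by
  classical
  refine ((comp_base ho ha).const ho ha a3 (fun s => decide (s.1 = s.2.1 ∧ s.2.2 = 0)) ?_).congr ?_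
  · intro u s
    rw [decide_eq_decide]
    change s.1 = s.2.1 ∧ s.2.2 + (ext u s.1 + ext u s.2.1) = 0 ↔ _
    refine and_congr_right fun h => ?_
    rw [h, add_self_mod, add_zero]
  · rintro (x | x) φ
    · rfl
    · rw [Sum.elim_inr, Sum.elim_inr, Bool.eq_iff_iff, Qf_true, decide_eq_true_eq]
      rfl

/-- the signed paths -/
abbrev S5 (n : ℕ) : Type := Nd n × Nd n × F2 × F2 × F2

def a5 (v w : Nd n) (u : Fin n → F2) : Equiv.Perm (S5 n) :=
  Function.Involutive.toPerm (fun s => (s.1, s.2.1, s.2.2.1 + (ext u s.1 + ext u v),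
    s.2.2.2.1 + (ext u v + ext u w), s.2.2.2.2 + (ext u w + ext u s.2.1))) fun s => by
    dsimp only
    rw [add_assoc, add_self_mod, add_zero, add_assoc, add_self_mod, add_zero, add_assoc,
      add_self_mod, add_zero]

theorem comp_cons (ho : Ok orLit) (ha : Ok andLit) (e : Sc Γ n × Nd n × Nd n)
    (l : List (Sc Γ n × Nd n × Nd n)) {N : ℕ}
    (h : Comp (flipC : (Fin n → F2) → Equiv.Perm (Con Γ (Fin n))) Ok ax
      (Sum.elim (Sum.elim f1 f2) (Qf l)) N) :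
    Comp (flipC : (Fin n → F2) → Equiv.Perm (Con Γ (Fin n))) Ok ax
      (Sum.elim (Sum.elim f1 f2) (Qf (e :: l))) (N + Nat.card (S5 n) + Nat.card (S3 n)) := by
  classical
  obtain ⟨σ, v, w⟩ := e
  let fA : S5 n → (Con Γ (Fin n) → Bool) → Bool := fun s φ =>
    decide (Qr φ l s.1 v s.2.2.1 ∧ edge (lset σ (pat φ σ)) v w s.2.2.2.1 ∧ Qr φ l w s.2.1 s.2.2.2.2 ∧
      ∀ d, ¬ Qr φ l v w d)
  have h1 := h.and ha (a5 v w)
    (fun s z => z = Sum.inr (s.1, v, s.2.2.1) ∨ z = Sum.inl (Sum.inr (σ, v, w, s.2.2.2.1)) ∨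
      z = Sum.inr (w, s.2.1, s.2.2.2.2))
    (fun _ z => ∃ d, z = Sum.inr (v, w, d)) ?_ ?_ fA ?_
  · have h2 := h1.or ho a3
      (fun s z => z = Sum.inl (Sum.inr s) ∨ ∃ d₁ d₂ d₃, d₁ + d₂ + d₃ = s.2.2 ∧
        (z = Sum.inr (s.1, s.2.1, d₁, d₂, d₃) ∨ z = Sum.inr (s.2.1, s.1, d₁, d₂, d₃)))
      (fun _ _ => False) ?_ (fun _ _ _ => Iff.rfl) (Qf ((σ, v, w) :: l)) ?_
    · refine (h2.comap ax (Sum.map (fun b => Sum.inl (Sum.inl b)) id) ?_).congr ?_
      · rintro u (x | x) <;> rfl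
      · rintro (x | x) φ <;> rfl
    · intro u s z
      refine or_congr ?_ ?_
      · have : (Sum.inl (Sum.inr (a3 u s)) : (((S1 Γ n ⊕ S2 Γ n) ⊕ S3 n) ⊕ S5 n)) =
            (Equiv.sumCongr (Equiv.sumCongr (ab u) (a3 u)) (a5 v w u)) (Sum.inl (Sum.inr s)) := rfl
        rw [this]
        exact Equiv.apply_eq_iff_eq _
      · have key : ∀ x y : Nd n, (∃ d₁ d₂ d₃ : F2, d₁ + d₂ + d₃ = s.2.2 + (ext u x + ext u y) ∧
            (Equiv.sumCongr (Equiv.sumCongr (ab u) (a3 u)) (a5 v w u)) z =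
              Sum.inr (x, y, d₁, d₂, d₃)) ↔
            ∃ d₁ d₂ d₃ : F2, d₁ + d₂ + d₃ = s.2.2 ∧ z = Sum.inr (x, y, d₁, d₂, d₃) := by
          intro x y
          constructor
          · rintro ⟨d₁, d₂, d₃, hd, hz⟩
            refine ⟨d₁ + (ext u x + ext u v), d₂ + (ext u v + ext u w), d₃ + (ext u w + ext u y),
              ?_, ?_⟩
            · have e1 := add_self_mod (ext u v)
              have e2 := add_self_mod (ext u w)
              have e3 := add_self_mod (ext u x)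
              have e4 := add_self_mod (ext u y)
              linear_combination hd + e1 + e2 + e3 + e4
            · apply (Equiv.sumCongr (Equiv.sumCongr (ab u) (a3 u)) (a5 v w u)).injective
              rw [hz]
              change _ = Sum.inr (x, y, d₁ + (ext u x + ext u v) + (ext u x + ext u v),
                d₂ + (ext u v + ext u w) + (ext u v + ext u w),
                d₃ + (ext u w + ext u y) + (ext u w + ext u y))
              rw [add_assoc, add_self_mod, add_zero, add_assoc, add_self_mod, add_zero, add_assoc,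
                add_self_mod, add_zero]
          · rintro ⟨d₁, d₂, d₃, hd, rfl⟩
            refine ⟨d₁ + (ext u x + ext u v), d₂ + (ext u v + ext u w), d₃ + (ext u w + ext u y),
              ?_, rfl⟩
            have e1 := add_self_mod (ext u v)
            have e2 := add_self_mod (ext u w)
            linear_combination hd + e1 + e2
        have k1 := key s.1 s.2.1
        have k2 := key s.2.1 s.1
        rw [add_comm (ext u s.2.1)] at k2
        constructor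
        · rintro ⟨d₁, d₂, d₃, hd, hz | hz⟩
          · obtain ⟨d₁, d₂, d₃, hd, hz⟩ := k1.1 ⟨d₁, d₂, d₃, hd, hz⟩
            exact ⟨d₁, d₂, d₃, hd, Or.inl hz⟩
          · obtain ⟨d₁, d₂, d₃, hd, hz⟩ := k2.1 ⟨d₁, d₂, d₃, hd, hz⟩
            exact ⟨d₁, d₂, d₃, hd, Or.inr hz⟩
        · rintro ⟨d₁, d₂, d₃, hd, hz | hz⟩
          · obtain ⟨d₁, d₂, d₃, hd, hz⟩ := k1.2 ⟨d₁, d₂, d₃, hd, hz⟩
            exact ⟨d₁, d₂, d₃, hd, Or.inl hz⟩
          · obtain ⟨d₁, d₂, d₃, hd, hz⟩ := k2.2 ⟨d₁, d₂, d₃, hd, hz⟩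
            exact ⟨d₁, d₂, d₃, hd, Or.inr hz⟩
    · intro s φ
      rw [Qf_true]
      have hall : ∀ q : F2 → Prop, (∀ d, ¬ q d) ↔ ¬ q 0 ∧ ¬ q 1 := by
        intro q
        constructor
        · intro h
          exact ⟨h 0, h 1⟩
        · rintro ⟨h0, h1⟩ d
          rcases F2.cases d with rfl | rfl
          · exact h0
          · exact h1
      constructor
      · rintro (h3 | ⟨h3, h4, d₁, d₂, d₃, h5, h6, h7 | h7⟩)
        · exact Or.inl ⟨_, Or.inl rfl, Qf_true.2 h3⟩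
        · refine Or.inl ⟨_, Or.inr ⟨d₁, d₂, d₃, h5, Or.inl rfl⟩, ?_⟩
          exact decide_eq_true ⟨h7.1, h6, h7.2, (hall _).2 ⟨h3, h4⟩⟩
        · refine Or.inl ⟨_, Or.inr ⟨d₁, d₂, d₃, h5, Or.inr rfl⟩, ?_⟩
          exact decide_eq_true ⟨h7.1, h6, h7.2, (hall _).2 ⟨h3, h4⟩⟩
      · rintro (⟨z, rfl | ⟨d₁, d₂, d₃, h5, rfl | rfl⟩, hz⟩ | ⟨z, hz, -⟩)
        · exact Or.inl (Qf_true.1 hz)
        · obtain ⟨h7, h6, h8, h9⟩ := of_decide_eq_true hz
          have h10 := (hall _).1 h9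
          exact Or.inr ⟨h10.1, h10.2, d₁, d₂, d₃, h5, h6, Or.inl ⟨h7, h8⟩⟩
        · obtain ⟨h7, h6, h8, h9⟩ := of_decide_eq_true hz
          have h10 := (hall _).1 h9
          exact Or.inr ⟨h10.1, h10.2, d₁, d₂, d₃, h5, h6, Or.inr ⟨h7, h8⟩⟩
        · exact hz.elim
  · intro u s z
    refine or_congr ?_ (or_congr ?_ ?_)
    · have : (Sum.inr ((a5 v w u s).1, v, (a5 v w u s).2.2.1) : ((S1 Γ n ⊕ S2 Γ n) ⊕ S3 n)) =
          ax u (Sum.inr (s.1, v, s.2.2.1)) := rfl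
      rw [this]
      exact Equiv.apply_eq_iff_eq _
    · have : (Sum.inl (Sum.inr (σ, v, w, (a5 v w u s).2.2.2.1)) : ((S1 Γ n ⊕ S2 Γ n) ⊕ S3 n)) =
          ax u (Sum.inl (Sum.inr (σ, v, w, s.2.2.2.1))) := rfl
      rw [this]
      exact Equiv.apply_eq_iff_eq _
    · have : (Sum.inr (w, (a5 v w u s).2.1, (a5 v w u s).2.2.2.2) : ((S1 Γ n ⊕ S2 Γ n) ⊕ S3 n)) =
          ax u (Sum.inr (w, s.2.1, s.2.2.2.2)) := rfl
      rw [this]
      exact Equiv.apply_eq_iff_eq _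
  · intro u s z
    constructor
    · rintro ⟨d, hz⟩
      refine ⟨d + (ext u v + ext u w), ?_⟩
      apply (ax u).injective
      rw [hz]
      change _ = Sum.inr (v, w, d + (ext u v + ext u w) + (ext u v + ext u w))
      rw [add_assoc, add_self_mod, add_zero]
    · rintro ⟨d, rfl⟩
      exact ⟨d + (ext u v + ext u w), rfl⟩
  · intro s φ
    change decide _ = true ↔ _
    rw [decide_eq_true_eq]
    constructor
    · rintro ⟨h3, h4, h5, h6⟩
      constructor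
      · rintro z (rfl | rfl | rfl)
        · exact Qf_true.2 h3
        · exact f2_true.2 h4
        · exact Qf_true.2 h5
      · rintro z ⟨d, rfl⟩
        exact Qf_false.2 (h6 d)
    · rintro ⟨h3, h4⟩
      exact ⟨Qf_true.1 (h3 _ (Or.inl rfl)), f2_true.1 (h3 _ (Or.inr (Or.inl rfl))),
        Qf_true.1 (h3 _ (Or.inr (Or.inr rfl))), fun d => Qf_false.1 (h4 _ ⟨d, rfl⟩)⟩

theorem comp_list (ho : Ok orLit) (ha : Ok andLit) (l : List (Sc Γ n × Nd n × Nd n)) :
    Comp (flipC : (Fin n → F2) → Equiv.Perm (Con Γ (Fin n))) Ok ax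
      (Sum.elim (Sum.elim f1 f2) (Qf l))
      (N0 Γ n + Nat.card (S3 n) + l.length * (Nat.card (S5 n) + Nat.card (S3 n))) := by
  induction l with
  | nil => exact (comp_nil ho ha).mono (by simp)
  | cons e l ih =>
    refine (comp_cons ho ha e l ih).mono (le_of_eq ?_)
    rw [List.length_cons]
    ring

/-- the sign vector `b` on the scope is compatible with the signs of the connected pairs -/
def compat (φ : Con Γ (Fin n) → Bool) (l : List (Sc Γ n × Nd n × Nd n)) (σ : Sc Γ n)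
    (b : Fin (Γ.ar σ.1) → F2) : Prop :=
  ∀ o o' : Option (Fin (Γ.ar σ.1)), ¬ Qr φ l (o.map σ.2) (o'.map σ.2) (ext b o + ext b o' + 1)

open Classical in
/-- the canonical form of the instance -/
noncomputable def canon (l : List (Sc Γ n × Nd n × Nd n)) (t : Con Γ (Fin n))
    (φ : Con Γ (Fin n) → Bool) : Bool :=
  decide (∃ b : Fin (Γ.ar t.1) → F2, compat φ l ⟨t.1, t.2.1⟩ b ∧
    ∀ x ∈ lset ⟨t.1, t.2.1⟩ (pat φ ⟨t.1, t.2.1⟩), x ∘ t.2.1 + b + t.2.2 ∈ Γ.rel t.1)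

theorem ext_comp (σ : Sc Γ n) (u : Fin n → F2) (b : Fin (Γ.ar σ.1) → F2)
    (o : Option (Fin (Γ.ar σ.1))) : ext (b + u ∘ σ.2) o = ext b o + ext u (o.map σ.2) := by
  cases o
  · exact (add_zero (0 : F2)).symm
  · rfl

theorem comp_canon (ho : Ok orLit) (ha : Ok andLit) (l : List (Sc Γ n × Nd n × Nd n)) :
    Comp (flipC : (Fin n → F2) → Equiv.Perm (Con Γ (Fin n))) Ok (fun _ => 1) (canon l)
      (N0 Γ n + Nat.card (S3 n) + l.length * (Nat.card (S5 n) + Nat.card (S3 n)) +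
        Nat.card (S4 Γ n) + Nat.card (Con Γ (Fin n))) := by
  classical
  let fK : S4 Γ n → (Con Γ (Fin n) → Bool) → Bool := fun s φ =>
    decide (pat φ s.1 = s.2.1 ∧ compat φ l s.1 s.2.2)
  have h1 := (comp_list ho ha l).and ha (a4 (Γ := Γ) (n := n))
    (fun s z => z = Sum.inl (Sum.inl ⟨s.1, s.2.1⟩))
    (fun s z => ∃ o o' : Option (Fin (Γ.ar s.1.1)), z = Sum.inr (o.map s.1.2, o'.map s.1.2,
      ext s.2.2 o + ext s.2.2 o' + 1)) ?_ ?_ fK ?_
  · have h2 := h1.or ho (fun _ => (1 : Equiv.Perm (Con Γ (Fin n))))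
      (fun t z => ∃ (B : Pt (⟨t.1, t.2.1⟩ : Sc Γ n)) (b : Fin (Γ.ar t.1) → F2),
        z = Sum.inr ⟨⟨t.1, t.2.1⟩, (B, b)⟩ ∧
          ∀ x ∈ lset ⟨t.1, t.2.1⟩ B, x ∘ t.2.1 + b + t.2.2 ∈ Γ.rel t.1)
      (fun _ _ => False) ?_ (fun _ _ _ => Iff.rfl) (canon l) ?_
    · exact h2.comap _ Sum.inr fun _ _ => rfl
    · have key : ∀ (u : Fin n → F2) (t : Con Γ (Fin n)) (z : ((S1 Γ n ⊕ S2 Γ n) ⊕ S3 n) ⊕ S4 Γ n),
          (∃ (B : Pt (⟨t.1, t.2.1⟩ : Sc Γ n)) (b : Fin (Γ.ar t.1) → F2),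
            z = Sum.inr ⟨⟨t.1, t.2.1⟩, (B, b)⟩ ∧
            ∀ x ∈ lset ⟨t.1, t.2.1⟩ B, x ∘ t.2.1 + b + t.2.2 ∈ Γ.rel t.1) →
          ∃ (B : Pt (⟨t.1, t.2.1⟩ : Sc Γ n)) (b : Fin (Γ.ar t.1) → F2),
            (Equiv.sumCongr (ax u) (a4 u)) z = Sum.inr ⟨⟨t.1, t.2.1⟩, (B, b)⟩ ∧
            ∀ x ∈ lset ⟨t.1, t.2.1⟩ B, x ∘ t.2.1 + b + t.2.2 ∈ Γ.rel t.1 := by
        rintro u t z ⟨B, b, rfl, h⟩
        refine ⟨fun a => B (a + u ∘ t.2.1), b + u ∘ t.2.1, rfl, ?_⟩
        intro x hx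
        have h3 := lset_tr (⟨t.1, t.2.1⟩ : Sc Γ n) B u
        dsimp only at h3
        rw [h3, mem_tr] at hx
        have h4 := h _ hx
        have e : (x + u) ∘ t.2.1 + b + t.2.2 = x ∘ t.2.1 + (b + u ∘ t.2.1) + t.2.2 := by
          funext k
          simp only [Pi.add_apply, Function.comp]
          ring
        rwa [e] at h4
      intro u t z
      refine ⟨fun h => ?_, key u t z⟩
      have h3 := key u t _ h
      have h4 : (Equiv.sumCongr (ax u) (a4 u)) ((Equiv.sumCongr (ax u) (a4 u)) z) = z := by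
        rcases z with ((⟨σ, B⟩ | ⟨σ, x, y, d⟩) | ⟨x, y, d⟩) | ⟨σ, B, b⟩
        · change Sum.inl (Sum.inl (Sum.inl (⟨σ, aP σ u (aP σ u B)⟩ : S1 Γ n))) = _
          rw [aP_aP]
        · change Sum.inl (Sum.inl (Sum.inr (σ, x, y,
            d + (ext u x + ext u y) + (ext u x + ext u y)))) = _
          rw [add_assoc, add_self_mod, add_zero]
        · change Sum.inl (Sum.inr (x, y, d + (ext u x + ext u y) + (ext u x + ext u y))) = _
          rw [add_assoc, add_self_mod, add_zero]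
        · change Sum.inr (⟨σ, (aP σ u (aP σ u B), b + u ∘ σ.2 + u ∘ σ.2)⟩ : S4 Γ n) = _
          rw [add_assoc, add_self_mod, add_zero, aP_aP]
      rwa [h4] at h3
    · intro t φ
      rw [canon, decide_eq_true_eq]
      constructor
      · rintro ⟨b, h3, h4⟩
        exact Or.inl ⟨_, ⟨pat φ ⟨t.1, t.2.1⟩, b, rfl, h4⟩, decide_eq_true ⟨rfl, h3⟩⟩
      · rintro (⟨z, ⟨B, b, rfl, h3⟩, hz⟩ | ⟨z, hz, -⟩)
        · obtain ⟨h4, h5⟩ := of_decide_eq_true hz
          dsimp only at h4 h5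
          rw [← h4] at h3
          exact ⟨b, h5, h3⟩
        · exact hz.elim
  · intro u s z
    have : (Sum.inl (Sum.inl ⟨(a4 u s).1, (a4 u s).2.1⟩) : ((S1 Γ n ⊕ S2 Γ n) ⊕ S3 n)) =
        ax u (Sum.inl (Sum.inl ⟨s.1, s.2.1⟩)) := rfl
    rw [this]
    exact Equiv.apply_eq_iff_eq _
  · intro u s z
    have e1 : ∀ o o' : Option (Fin (Γ.ar s.1.1)),
        (Sum.inr (o.map s.1.2, o'.map s.1.2, ext (s.2.2 + u ∘ s.1.2) o +
          ext (s.2.2 + u ∘ s.1.2) o' + 1) : ((S1 Γ n ⊕ S2 Γ n) ⊕ S3 n)) =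
        ax u (Sum.inr (o.map s.1.2, o'.map s.1.2, ext s.2.2 o + ext s.2.2 o' + 1)) := by
      intro o o'
      change _ = Sum.inr (o.map s.1.2, o'.map s.1.2, ext s.2.2 o + ext s.2.2 o' + 1 +
        (ext u (o.map s.1.2) + ext u (o'.map s.1.2)))
      rw [ext_comp, ext_comp]
      congr 3
      ring
    constructor
    · rintro ⟨o, o', h⟩
      refine ⟨o, o', (ax u).injective ?_⟩
      rw [← e1 o o', h]
      rfl
    · rintro ⟨o, o', rfl⟩
      exact ⟨o, o', (e1 o o').symm⟩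
  · intro s φ
    change decide _ = true ↔ _
    rw [decide_eq_true_eq]
    constructor
    · rintro ⟨h3, h4⟩
      constructor
      · rintro z rfl
        exact decide_eq_true h3
      · rintro z ⟨o, o', rfl⟩
        exact Qf_false.2 (h4 o o')
    · rintro ⟨h3, h4⟩
      exact ⟨of_decide_eq_true (h3 _ rfl), fun o o' => Qf_false.1 (h4 _ ⟨o, o', rfl⟩)⟩

end Pool.Agent.H5Dich
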