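import Pool.Agent.H5Dich.Defs
import Pool.Agent.H5Sym.Walk

/-!
# Random sparse systems of parity constraints: the boundaries of weighted sets of rows
-/

set_option autoImplicit false

namespace Pool.Agent.H5Dich

open Module Pool.Agent.H5Sym

variable {R : Type} [Fintype R] [DecidableEq R] {P m : ℕ}

/-- the support of a family of vectors -/
def supp (h : Fin m → R → F2) : Finset (Fin m) := Finset.univ.filter fun j => h j ≠ 0

/-- the rows in which the coordinate `c` occurs -/
def suppc (h : Fin m → R → F2) (c : R) : Finset (Fin m) := Finset.univ.filter fun j => h j c ≠ 0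

/-- the boundary: the parities of the entries of each kind -/
def bdH (f : R → Fin m → Fin P) (h : Fin m → R → F2) (c : R) : Fin P → F2 :=
  ∑ j ∈ suppc h c, unit (f c j)

theorem suppc_subset (h : Fin m → R → F2) (c : R) : suppc h c ⊆ supp h := by
  intro j hj
  simp only [suppc, supp, Finset.mem_filter, Finset.mem_univ, true_and] at hj ⊢
  intro h0
  exact hj (by rw [h0]; rfl)

theorem bdH_card (h : Fin m → R → F2) (v : R → Fin P → F2) :
    (Finset.univ.filter fun f : R → Fin m → Fin P => bdH f h = v).card =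
      ∏ c, (walk (suppc h c).card (v c) * P ^ (m - (suppc h c).card)) := by
  classical
  have h1 : (Finset.univ.filter fun f : R → Fin m → Fin P => bdH f h = v) =
      Fintype.piFinset fun c => Finset.univ.filter fun g : Fin m → Fin P =>
        ∑ j ∈ suppc h c, unit (g j) = v c := by
    ext f
    simp [funext_iff, bdH]
  rw [h1, Fintype.card_piFinset]
  exact Finset.prod_congr rfl fun c _ => walk_card_set (suppc h c) (v c)

theorem sum_suppc (h : Fin m → R → F2)
    (hh : ∀ j, h j ≠ 0 → 3 ≤ (Finset.univ.filter fun c => h j c ≠ 0).card) :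
    3 * (supp h).card ≤ ∑ c, (suppc h c).card := by
  have h1 : ∑ c, (suppc h c).card = ∑ j, (Finset.univ.filter fun c => h j c ≠ 0).card := by
    simp only [suppc, Finset.card_filter]
    exact Finset.sum_comm
  rw [h1]
  calc 3 * (supp h).card = ∑ _j ∈ supp h, 3 := by rw [Finset.sum_const, smul_eq_mul, mul_comm]
    _ ≤ ∑ j ∈ supp h, (Finset.univ.filter fun c => h j c ≠ 0).card :=
        Finset.sum_le_sum fun j hj => hh j (Finset.mem_filter.1 hj).2
    _ ≤ _ := Finset.sum_le_sum_of_subset (Finset.subset_univ _)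

theorem fact_pow {t k : ℕ} (h : t ≤ k) : t.factorial ^ k ≤ k.factorial ^ t := by
  induction k, h using Nat.le_induction with
  | base => exact le_rfl
  | succ k hk ih =>
    calc t.factorial ^ (k + 1) = t.factorial ^ k * t.factorial := pow_succ _ _
      _ ≤ k.factorial ^ t * (k + 1) ^ t := by
          refine Nat.mul_le_mul ih ?_
          calc t.factorial ≤ t ^ t := Nat.factorial_le_pow t
            _ ≤ (k + 1) ^ t := Nat.pow_le_pow_left (by omega) t
      _ = (k + 1).factorial ^ t := by rw [Nat.factorial_succ, mul_pow, mul_comm]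

/-- the bound for one kind of entries -/
def bb (t : ℕ) : ℕ := 2 ^ t * t.factorial

theorem bb_pow {t k : ℕ} (h : t ≤ k) : bb t ^ k ≤ bb k ^ t := by
  rw [bb, bb, mul_pow, mul_pow, ← pow_mul, ← pow_mul, mul_comm t k]
  exact Nat.mul_le_mul_left _ (fact_pow h)

theorem arith {P κ k l ρ σ B : ℕ} (hk0 : k ≠ 0) (hP : 256 * 4 ^ ρ * κ * (k + l) ^ 2 ≤ P ^ 3)
    (hk : k ≤ 2 * κ) (hσ : 3 * k ≤ σ) (hB : B ^ k ≤ bb k ^ σ) :
    (4 ^ k * (k + l).choose k * (2 ^ ρ) ^ k) ^ 2 * B ≤ P ^ σ := by
  have h2 : (k + l).choose k * k.factorial ≤ (k + l) ^ k := by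
    rw [mul_comm, ← Nat.descFactorial_eq_factorial_mul_choose]
    exact Nat.descFactorial_le_pow (k + l) k
  have h3 : k.factorial ≤ (2 * κ) ^ k := (Nat.factorial_le_pow k).trans (Nat.pow_le_pow_left hk k)
  have h4 : (4 ^ k * (k + l).choose k * (2 ^ ρ) ^ k) ^ 2 * bb k ^ 3 ≤ P ^ (3 * k) := by
    calc (4 ^ k * (k + l).choose k * (2 ^ ρ) ^ k) ^ 2 * bb k ^ 3
        = (4 ^ k * 4 ^ k * 2 ^ k * 2 ^ k * 2 ^ k * ((2 ^ ρ) ^ k * (2 ^ ρ) ^ k)) *
            ((k + l).choose k * k.factorial) ^ 2 * k.factorial := by rw [bb]; ring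
      _ ≤ (4 ^ k * 4 ^ k * 2 ^ k * 2 ^ k * 2 ^ k * ((2 ^ ρ) ^ k * (2 ^ ρ) ^ k)) *
            ((k + l) ^ k) ^ 2 * (2 * κ) ^ k := by gcongr
      _ = (256 * 4 ^ ρ * κ * (k + l) ^ 2) ^ k := by
          rw [← pow_mul (k + l), mul_comm k 2, pow_mul (k + l), ← mul_pow, ← mul_pow, ← mul_pow,
            ← mul_pow, ← mul_pow, ← mul_pow, ← mul_pow, ← mul_pow]
          congr 1
          have : (4 : ℕ) ^ ρ = 2 ^ ρ * 2 ^ ρ := by rw [← mul_pow]; norm_num
          rw [this]
          ring
      _ ≤ (P ^ 3) ^ k := Nat.pow_le_pow_left hP k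
      _ = P ^ (3 * k) := by rw [← pow_mul]
  have h5 : bb k ≤ P ^ k := by
    have h6 : 2 * k ≤ P := by
      refine (Nat.pow_le_pow_iff_left (n := 3) (by norm_num)).1 (le_trans ?_ hP)
      have h7 : 1 ≤ 4 ^ ρ := Nat.one_le_pow _ _ (by norm_num)
      calc (2 * k) ^ 3 = 8 * k * k ^ 2 := by ring
        _ ≤ 8 * (2 * κ) * (k + l) ^ 2 := by gcongr; omega
        _ ≤ 256 * 4 ^ ρ * κ * (k + l) ^ 2 := by
            refine Nat.mul_le_mul_right _ ?_
            calc 8 * (2 * κ) = 16 * 1 * κ := by ring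
              _ ≤ 256 * 4 ^ ρ * κ := by gcongr; norm_num
    calc bb k ≤ 2 ^ k * k ^ k := Nat.mul_le_mul_left _ (Nat.factorial_le_pow k)
      _ = (2 * k) ^ k := (mul_pow _ _ _).symm
      _ ≤ P ^ k := Nat.pow_le_pow_left h6 k
  refine (Nat.pow_le_pow_iff_left hk0).1 ?_
  obtain ⟨e, rfl⟩ := Nat.exists_eq_add_of_le hσ
  calc ((4 ^ k * (k + l).choose k * (2 ^ ρ) ^ k) ^ 2 * B) ^ k
      = ((4 ^ k * (k + l).choose k * (2 ^ ρ) ^ k) ^ 2) ^ k * B ^ k := mul_pow _ _ _
    _ ≤ ((4 ^ k * (k + l).choose k * (2 ^ ρ) ^ k) ^ 2) ^ k * bb k ^ (3 * k + e) :=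
        Nat.mul_le_mul_left _ hB
    _ = ((4 ^ k * (k + l).choose k * (2 ^ ρ) ^ k) ^ 2 * bb k ^ 3) ^ k * bb k ^ e := by
        generalize (4 ^ k * (k + l).choose k * (2 ^ ρ) ^ k) ^ 2 = Z
        rw [mul_pow, ← pow_mul, mul_assoc, ← pow_add]
    _ ≤ (P ^ (3 * k)) ^ k * (P ^ k) ^ e := by gcongr
    _ = (P ^ (3 * k + e)) ^ k := by ring

theorem bdH_bound {κ : ℕ} (hP : 256 * 4 ^ Fintype.card R * κ * m ^ 2 ≤ P ^ 3)
    (h : Fin m → R → F2) (hh : ∀ j, h j ≠ 0 → 3 ≤ (Finset.univ.filter fun c => h j c ≠ 0).card)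
    (h0 : (supp h).card ≠ 0) (hS : (supp h).card ≤ 2 * κ) (v : R → Fin P → F2) :
    4 ^ (supp h).card * m.choose (supp h).card * (2 ^ Fintype.card R) ^ (supp h).card *
      (Finset.univ.filter fun f : R → Fin m → Fin P => bdH f h = v).card ≤
        P ^ (Fintype.card R * m) := by
  have hkm : (supp h).card ≤ m := by
    have := Finset.card_le_univ (supp h)
    rwa [Fintype.card_fin] at this
  have hm : m = (supp h).card + (m - (supp h).card) := by omega
  have hc : ∀ c, (suppc h c).card ≤ (supp h).card := fun c =>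
    Finset.card_le_card (suppc_subset h c)
  have h1 : (∏ c, bb (suppc h c).card) ^ (supp h).card ≤
      bb (supp h).card ^ ∑ c, (suppc h c).card := by
    rw [← Finset.prod_pow, ← Finset.prod_pow_eq_pow_sum]
    exact Finset.prod_le_prod' fun c _ => bb_pow (hc c)
  have h2 := arith (l := m - (supp h).card) h0 (by rwa [← hm]) hS (sum_suppc h hh) h1
  rw [← hm] at h2
  refine (Nat.pow_le_pow_iff_left (n := 2) two_ne_zero).1 ?_
  rw [mul_pow, bdH_card, ← Finset.prod_pow]
  have h3 : ∏ c : R, (walk (suppc h c).card (v c) * P ^ (m - (suppc h c).card)) ^ 2 ≤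
      ∏ c : R, (bb (suppc h c).card * P ^ (2 * m - (suppc h c).card)) := by
    refine Finset.prod_le_prod' fun c _ => ?_
    rw [mul_pow]
    calc walk (suppc h c).card (v c) ^ 2 * (P ^ (m - (suppc h c).card)) ^ 2
        ≤ 2 ^ (suppc h c).card * (suppc h c).card.factorial * P ^ (suppc h c).card *
            (P ^ (m - (suppc h c).card)) ^ 2 := Nat.mul_le_mul_right _ (walk_sq _ _)
      _ = bb (suppc h c).card * P ^ (2 * m - (suppc h c).card) := by
          rw [bb, mul_assoc, ← pow_mul, ← pow_add]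
          congr 2
          have := hc c
          omega
  calc _ ≤ (4 ^ (supp h).card * m.choose (supp h).card * (2 ^ Fintype.card R) ^ (supp h).card) ^ 2 *
        ∏ c : R, (bb (suppc h c).card * P ^ (2 * m - (suppc h c).card)) := Nat.mul_le_mul_left _ h3
    _ = (4 ^ (supp h).card * m.choose (supp h).card * (2 ^ Fintype.card R) ^ (supp h).card) ^ 2 *
        (∏ c : R, bb (suppc h c).card) * ∏ c : R, P ^ (2 * m - (suppc h c).card) := by
        rw [Finset.prod_mul_distrib, ← mul_assoc]
    _ ≤ P ^ (∑ c, (suppc h c).card) * ∏ c : R, P ^ (2 * m - (suppc h c).card) :=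
        Nat.mul_le_mul_right _ h2
    _ = (P ^ (Fintype.card R * m)) ^ 2 := by
        rw [Finset.prod_pow_eq_pow_sum, ← pow_add, ← Finset.sum_add_distrib, ← pow_mul]
        congr 1
        have h4 : ∀ c ∈ (Finset.univ : Finset R),
            (suppc h c).card + (2 * m - (suppc h c).card) = 2 * m := fun c _ => by
          have := hc c
          omega
        rw [Finset.sum_congr rfl h4, Finset.sum_const, Finset.card_univ, smul_eq_mul]
        ring

/-- the admissible families with support `S` -/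
noncomputable def fam (R : Type) [Fintype R] [DecidableEq R] {m : ℕ} (S : Finset (Fin m)) :
    Finset (Fin m → R → F2) :=
  Finset.univ.filter fun h => supp h = S ∧
    ∀ j, h j ≠ 0 → 3 ≤ (Finset.univ.filter fun c => h j c ≠ 0).card

theorem fam_card (S : Finset (Fin m)) : (fam R S).card ≤ (2 ^ Fintype.card R) ^ S.card := by
  classical
  have h1 : fam R S ⊆ Fintype.piFinset fun j => if j ∈ S then (Finset.univ : Finset (R → F2)) else {0} := by
    intro h hh
    rw [fam, Finset.mem_filter] at hh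
    rw [Fintype.mem_piFinset]
    intro j
    split_ifs with hj
    · exact Finset.mem_univ _
    · rw [Finset.mem_singleton]
      by_contra h0
      exact hj (hh.2.1 ▸ Finset.mem_filter.2 ⟨Finset.mem_univ _, h0⟩)
  refine (Finset.card_le_card h1).trans (le_of_eq ?_)
  rw [Fintype.card_piFinset]
  have h2 : ∀ j, (if j ∈ S then (Finset.univ : Finset (R → F2)) else {0}).card =
      if j ∈ S then 2 ^ Fintype.card R else 1 := by
    intro j
    split_ifs
    · rw [Finset.card_univ, Fintype.card_fun, ZMod.card]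
    · exact Finset.card_singleton _
  rw [Finset.prod_congr rfl fun j _ => h2 j, Finset.prod_ite_mem, Finset.univ_inter,
    Finset.prod_const]

/-- the functions `f` for which an admissible family with support size in `[a, b)` has its boundary in
`Bad` -/
noncomputable def badH (m a b : ℕ) (Bad : Finset (R → Fin P → F2)) :
    Finset (R → Fin m → Fin P) :=
  (Finset.Ico a b).biUnion fun k => (Finset.powersetCard k (Finset.univ : Finset (Fin m))).biUnion
    fun S => (fam R S).biUnion fun h => Bad.biUnion fun v => Finset.univ.filter fun f => bdH f h = v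

theorem mem_badH {a b : ℕ} {Bad : Finset (R → Fin P → F2)} {f : R → Fin m → Fin P}
    {h : Fin m → R → F2} (hh : ∀ j, h j ≠ 0 → 3 ≤ (Finset.univ.filter fun c => h j c ≠ 0).card)
    (h1 : a ≤ (supp h).card) (h2 : (supp h).card < b) (h3 : bdH f h ∈ Bad) :
    f ∈ badH m a b Bad := by
  simp only [badH, Finset.mem_biUnion, Finset.mem_Ico, Finset.mem_powersetCard, Finset.subset_univ,
    true_and, Finset.mem_filter, Finset.mem_univ]
  exact ⟨(supp h).card, ⟨h1, h2⟩, supp h, rfl, h, Finset.mem_filter.2 ⟨Finset.mem_univ _, rfl, hh⟩,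
    _, h3, rfl⟩

theorem geom_le (a b : ℕ) (h : a ≤ b) :
    ∑ k ∈ Finset.Ico a b, (1 / 4 : ℝ) ^ k ≤ 4 / 3 * (1 / 4) ^ a := by
  have : ∑ k ∈ Finset.Ico a b, (1 / 4 : ℝ) ^ k = 4 / 3 * ((1 / 4) ^ a - (1 / 4) ^ b) := by
    induction b, h using Nat.le_induction with
    | base => simp
    | succ b hb ih =>
      rw [Finset.sum_Ico_succ_top hb, ih, pow_succ]
      ring
  rw [this]
  have : (0 : ℝ) < (1 / 4) ^ b := by positivity
  linarith

theorem badH_card {κ : ℕ} (hP : 256 * 4 ^ Fintype.card R * κ * m ^ 2 ≤ P ^ 3) {a b : ℕ}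
    (ha : 0 < a) (hab : a ≤ b) (hb : b ≤ 2 * κ + 1) (Bad : Finset (R → Fin P → F2)) :
    ((badH m a b Bad).card : ℝ) ≤ Bad.card * (4 / 3 * (1 / 4) ^ a) * P ^ (Fintype.card R * m) := by
  set ρ := Fintype.card R with hρ
  have h1 : ∀ k ∈ Finset.Ico a b, (((Finset.powersetCard k (Finset.univ : Finset (Fin m))).biUnion
      fun S => (fam R S).biUnion fun h => Bad.biUnion fun v =>
        Finset.univ.filter fun f : R → Fin m → Fin P => bdH f h = v).card : ℝ) ≤
        Bad.card * (1 / 4) ^ k * P ^ (ρ * m) := by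
    intro k hk
    rw [Finset.mem_Ico] at hk
    have h2 : ∀ S ∈ Finset.powersetCard k (Finset.univ : Finset (Fin m)),
        (((fam R S).biUnion fun h => Bad.biUnion fun v =>
          Finset.univ.filter fun f : R → Fin m → Fin P => bdH f h = v).card : ℝ) ≤
          Bad.card * ((1 / 4) ^ k * P ^ (ρ * m) / m.choose k) := by
      intro S hS
      have hSk := (Finset.mem_powersetCard.1 hS).2
      have hC : 0 < m.choose k := by
        refine Nat.choose_pos ?_
        have := Finset.card_le_univ S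
        rwa [Fintype.card_fin, hSk] at this
      have hC' : (0 : ℝ) < m.choose k := by exact_mod_cast hC
      have h3 : ∀ h ∈ fam R S, ∀ v ∈ Bad,
          ((Finset.univ.filter fun f : R → Fin m → Fin P => bdH f h = v).card : ℝ) ≤
            (1 / 4) ^ k * P ^ (ρ * m) / m.choose k / (2 ^ ρ) ^ k := by
        intro h hh v _
        rw [fam, Finset.mem_filter] at hh
        have h4 := bdH_bound hP h hh.2.2 (by rw [hh.2.1, hSk]; omega) (by rw [hh.2.1]; omega) v
        rw [hh.2.1, hSk, ← hρ] at h4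
        rw [le_div_iff₀ (by positivity), le_div_iff₀ hC', one_div, inv_pow, ← div_eq_inv_mul,
          le_div_iff₀ (by positivity)]
        have h5 : ((4 ^ k * m.choose k * (2 ^ ρ) ^ k * (Finset.univ.filter
          fun f : R → Fin m → Fin P => bdH f h = v).card : ℕ) : ℝ) ≤ ((P ^ (ρ * m) : ℕ) : ℝ) := by
          exact_mod_cast h4
        push_cast at h5
        linarith
      calc (((fam R S).biUnion fun h => Bad.biUnion fun v =>
          Finset.univ.filter fun f : R → Fin m → Fin P => bdH f h = v).card : ℝ)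
          ≤ ∑ h ∈ fam R S, ((Bad.biUnion fun v =>
              Finset.univ.filter fun f : R → Fin m → Fin P => bdH f h = v).card : ℝ) := by
            exact_mod_cast Finset.card_biUnion_le
        _ ≤ ∑ h ∈ fam R S, ∑ v ∈ Bad, ((Finset.univ.filter
              fun f : R → Fin m → Fin P => bdH f h = v).card : ℝ) := by
            refine Finset.sum_le_sum fun h _ => ?_
            exact_mod_cast Finset.card_biUnion_le
        _ ≤ ∑ _h ∈ fam R S, ∑ _v ∈ Bad, ((1 / 4) ^ k * P ^ (ρ * m) / m.choose k / (2 ^ ρ) ^ k : ℝ) :=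
            Finset.sum_le_sum fun h hh => Finset.sum_le_sum fun v hv => h3 h hh v hv
        _ = (fam R S).card * (Bad.card * ((1 / 4) ^ k * P ^ (ρ * m) / m.choose k / (2 ^ ρ) ^ k)) := by
            rw [Finset.sum_const, Finset.sum_const, nsmul_eq_mul, nsmul_eq_mul]
        _ ≤ ((2 ^ ρ) ^ k : ℝ) *
              (Bad.card * ((1 / 4) ^ k * P ^ (ρ * m) / m.choose k / (2 ^ ρ) ^ k)) := by
            refine mul_le_mul_of_nonneg_right ?_ (by positivity)
            have := fam_card (R := R) S
            rw [hSk, ← hρ] at this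
            exact_mod_cast this
        _ = _ := by field_simp
    calc (((Finset.powersetCard k (Finset.univ : Finset (Fin m))).biUnion
      fun S => (fam R S).biUnion fun h => Bad.biUnion fun v =>
        Finset.univ.filter fun f : R → Fin m → Fin P => bdH f h = v).card : ℝ)
        ≤ ∑ S ∈ Finset.powersetCard k (Finset.univ : Finset (Fin m)),
            (((fam R S).biUnion fun h => Bad.biUnion fun v =>
              Finset.univ.filter fun f : R → Fin m → Fin P => bdH f h = v).card : ℝ) := by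
          exact_mod_cast Finset.card_biUnion_le
      _ ≤ ∑ _S ∈ Finset.powersetCard k (Finset.univ : Finset (Fin m)),
            (Bad.card * ((1 / 4) ^ k * P ^ (ρ * m) / m.choose k) : ℝ) := Finset.sum_le_sum h2
      _ ≤ _ := by
          rw [Finset.sum_const, Finset.card_powersetCard, Finset.card_univ, Fintype.card_fin,
            nsmul_eq_mul]
          rcases Nat.eq_zero_or_pos (m.choose k) with h0 | h0
          · rw [h0]
            simp only [Nat.cast_zero, zero_mul]
            positivity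
          · have hC' : (m.choose k : ℝ) ≠ 0 := by exact_mod_cast h0.ne'
            refine le_of_eq ?_
            field_simp
  calc ((badH m a b Bad).card : ℝ)
      ≤ ∑ k ∈ Finset.Ico a b, (((Finset.powersetCard k (Finset.univ : Finset (Fin m))).biUnion
          fun S => (fam R S).biUnion fun h => Bad.biUnion fun v =>
            Finset.univ.filter fun f : R → Fin m → Fin P => bdH f h = v).card : ℝ) := by
        exact_mod_cast Finset.card_biUnion_le
    _ ≤ ∑ k ∈ Finset.Ico a b, (Bad.card * (1 / 4) ^ k * P ^ (ρ * m) : ℝ) := Finset.sum_le_sum h1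
    _ = Bad.card * (∑ k ∈ Finset.Ico a b, (1 / 4 : ℝ) ^ k) * P ^ (ρ * m) := by
        rw [Finset.mul_sum, Finset.sum_mul]
    _ ≤ _ := by
        gcongr
        exact geom_le a b hab

/-- A good choice of the entries. -/
theorem exists_entriesH {κ : ℕ} (hκ : 0 < κ) (hP0 : 0 < P)
    (hP : 256 * 4 ^ Fintype.card R * κ * m ^ 2 ≤ P ^ 3)
    (Bad : Finset (R → Fin P → F2)) (hBad : 2 * Bad.card < 4 ^ κ) :
    ∃ f : R → Fin m → Fin P, ∀ h : Fin m → R → F2,
      (∀ j, h j ≠ 0 → 3 ≤ (Finset.univ.filter fun c => h j c ≠ 0).card) →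
      (κ ≤ (supp h).card → (supp h).card < 2 * κ → bdH f h ∉ Bad) ∧
      ((supp h).Nonempty → (supp h).card ≤ 2 * κ → bdH f h ≠ 0) := by
  by_contra hcon
  have hsub : (Finset.univ : Finset (R → Fin m → Fin P)) ⊆
      badH m κ (2 * κ) Bad ∪ badH m 1 (2 * κ + 1) {0} := by
    intro f _
    rw [Finset.mem_union]
    by_contra hf
    rw [not_or] at hf
    refine hcon ⟨f, fun h hh => ⟨fun h1 h2 h3 => hf.1 (mem_badH hh h1 h2 h3),
      fun h1 h2 h3 => hf.2 ?_⟩⟩
    exact mem_badH hh (Finset.card_pos.2 h1) (by omega)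
      (by rw [h3]; exact Finset.mem_singleton_self _)
  have h1 : ((P ^ (Fintype.card R * m) : ℕ) : ℝ) ≤ ((badH m κ (2 * κ) Bad).card : ℝ) +
      ((badH m 1 (2 * κ + 1) ({0} : Finset (R → Fin P → F2))).card : ℝ) := by
    have h2 := (Finset.card_le_card hsub).trans (Finset.card_union_le _ _)
    have h3 : (Finset.univ : Finset (R → Fin m → Fin P)).card = P ^ (Fintype.card R * m) := by
      simp [mul_comm, pow_mul]
    rw [h3] at h2
    exact_mod_cast h2
  have h2 := badH_card hP hκ (show κ ≤ 2 * κ by omega) (by omega) Bad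
  have h3 := badH_card hP one_pos (show 1 ≤ 2 * κ + 1 by omega) le_rfl
    ({0} : Finset (R → Fin P → F2))
  rw [Finset.card_singleton] at h3
  push_cast at h1 h3
  have hPP : (0 : ℝ) < (P : ℝ) ^ (Fintype.card R * m) := by positivity
  have hB : (Bad.card : ℝ) * (4 / 3 * (1 / 4) ^ κ) < 2 / 3 := by
    have h4 : (2 * Bad.card : ℝ) < 4 ^ κ := by exact_mod_cast hBad
    have h5 : (0 : ℝ) < 4 ^ κ := by positivity
    rw [one_div, inv_pow]
    have h6 : (Bad.card : ℝ) * (4 / 3 * (4 ^ κ)⁻¹) = (2 * Bad.card / 4 ^ κ) * (2 / 3) := by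
      field_simp
      ring
    rw [h6]
    have h7 : (2 * Bad.card / 4 ^ κ : ℝ) < 1 := (div_lt_one h5).2 h4
    linarith
  nlinarith

end Pool.Agent.H5Dich
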