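import Pool.Agent.H5Dich.Upper

/-!
# The local criterion, and examples
-/

set_option autoImplicit false

namespace Pool.Agent.H5Dich

open Module Pool.Agent.H5Sym

variable {Γ : Lang}

theorem ext_map {V W : Type} (g : V → W) (t : W → F2) (o : Option V) :
    ext (t ∘ g) o = ext t (o.map g) := by
  cases o <;> rfl

theorem parity_iff : Parity Γ ↔ HasParity Γ := by
  constructor
  · rintro ⟨i, q, y, M, hM, hy, hq⟩
    by_contra hΓ
    let φ : Set (Con Γ (Fin (Γ.ar i))) := {t | ∃ m ∈ M, t = ⟨i, (id, m)⟩}
    have hφ : ∀ x, x ∈ sol φ ↔ ∀ m ∈ M, x + m ∈ Γ.rel i := by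
      intro x
      constructor
      · intro h m hm
        exact h _ ⟨m, hm, rfl⟩
      · rintro h t ⟨m, hm, rfl⟩
        exact h m hm
    have h1 := twoVariable_stb hΓ φ
    have h2 : M ≤ stb (sol φ) := by
      intro m hm
      rw [mem_stb']
      intro p hp
      rw [hφ] at hp ⊢
      intro m' hm'
      rw [add_assoc]
      exact hp _ (M.add_mem hm hm')
    have h3 : y ∈ stb (sol φ) := h1 y fun u v h => hy u v fun m hm => h m (h2 hm)
    have h4 := (mem_stb'.1 h3) q ((hφ q).2 hM)
    have h5 := (hφ _).1 h4 0 M.zero_mem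
    rw [add_zero] at h5
    exact hq h5
  · rintro ⟨k, φ, q, L, hφ, hL⟩
    by_contra hcon
    refine hL fun y hy => ?_
    have hxx : ∀ l : Fin k → F2, q + l ∈ sol φ ↔ l ∈ L := by
      intro l
      rw [hφ]
      have : q + l + q = l := by
        have := add_self_mod q
        linear_combination this
      rw [this]
    have h1 : q + y ∈ sol φ := by
      rintro ⟨i, s, a⟩ ht
      dsimp only
      by_contra hR
      refine hcon ⟨i, q ∘ s + a, y ∘ s, L.map (LinearMap.funLeft F2 F2 s), ?_, ?_, ?_⟩
      · rintro m ⟨l, hl, rfl⟩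
        have h2 := (hxx l).2 hl _ ht
        dsimp only at h2
        have e : q ∘ s + a + LinearMap.funLeft F2 F2 s l = fun k => (q + l) (s k) + a k := by
          funext k
          simp only [Pi.add_apply, Function.comp, LinearMap.funLeft_apply]
          ring
        rwa [e]
      · intro u v h
        rw [ext_map, ext_map]
        refine hy _ _ fun l hl => ?_
        have h2 := h _ ⟨l, hl, rfl⟩
        change ext (l ∘ s) u = ext (l ∘ s) v at h2
        rwa [ext_map, ext_map] at h2
      · intro h2
        refine hR ?_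
        have e : q ∘ s + a + y ∘ s = fun k => (q + y) (s k) + a k := by
          funext k
          simp only [Pi.add_apply, Function.comp]
          ring
        rwa [e] at h2
    exact (hxx y).1 h1

/-- a vector outside of a subspace is separated from it by an equation -/
theorem exists_sep {k : ℕ} {M : Submodule F2 (Fin k → F2)} {y : Fin k → F2} (hy : y ∉ M) :
    ∃ h : Fin k → F2, (∀ m ∈ M, ∑ j, h j * m j = 0) ∧ ∑ j, h j * y j = 1 := by
  classical
  have h1 : ∃ μ ∈ M.dualAnnihilator, μ y ≠ 0 := by
    by_contra h2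
    push Not at h2
    refine hy ?_
    rw [← Subspace.dualAnnihilator_dualCoannihilator_eq (W := M), Submodule.mem_dualCoannihilator]
    exact h2
  obtain ⟨μ, hμ, hμ'⟩ := h1
  rw [Submodule.mem_dualAnnihilator] at hμ
  have h2 : ∀ m : Fin k → F2, μ m = ∑ j, μ (Pi.single j 1) * m j := by
    intro m
    conv_lhs => rw [← Finset.univ_sum_single m, map_sum]
    refine Finset.sum_congr rfl fun j _ => ?_
    have : (Pi.single j (m j) : Fin k → F2) = m j • Pi.single j 1 := by
      rw [← Pi.single_smul, smul_eq_mul, mul_one]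
    rw [this, map_smul, smul_eq_mul, mul_comm]
  refine ⟨fun j => μ (Pi.single j 1), fun m hm => ?_, ?_⟩
  · rw [← h2]
    exact hμ m hm
  · rw [← h2]
    exact (F2.cases _).resolve_left hμ'

/-- an equation with at most two variables holds for `y` -/
theorem two_sep {k : ℕ} {M : Submodule F2 (Fin k → F2)} {y : Fin k → F2}
    (hy : ∀ u v : Option (Fin k), (∀ m ∈ M, ext m u = ext m v) → ext y u = ext y v)
    {h : Fin k → F2} (hM : ∀ m ∈ M, ∑ j, h j * m j = 0)
    (h2 : (Finset.univ.filter fun j => h j ≠ 0).card ≤ 2) : ∑ j, h j * y j = 0 := by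
  classical
  have hsum : ∀ t : Fin k → F2, ∑ j, h j * t j = ∑ j ∈ Finset.univ.filter fun j => h j ≠ 0, t j := by
    intro t
    rw [Finset.sum_filter]
    refine Finset.sum_congr rfl fun c _ => ?_
    rcases F2.cases (h c) with h0 | h0
    · rw [h0, if_neg (fun h => h rfl), zero_mul]
    · rw [h0, if_pos one_ne_zero, one_mul]
  have h3 : (Finset.univ.filter fun c => h c ≠ 0).card = 0 ∨
      (Finset.univ.filter fun c => h c ≠ 0).card = 1 ∨
      (Finset.univ.filter fun c => h c ≠ 0).card = 2 := by omega
  have h4 : ∀ x y : F2, x + y = 0 ↔ x = y := by decide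
  rcases h3 with h3 | h3 | h3
  · rw [Finset.card_eq_zero] at h3
    rw [hsum, h3, Finset.sum_empty]
  · obtain ⟨c, hc⟩ := Finset.card_eq_one.1 h3
    rw [hsum, hc, Finset.sum_singleton]
    refine hy (some c) none fun m hm => ?_
    have := hM m hm
    rw [hsum, hc, Finset.sum_singleton] at this
    exact this
  · obtain ⟨c, c', hne, hc⟩ := Finset.card_eq_two.1 h3
    rw [hsum, hc, Finset.sum_pair hne, h4]
    refine hy (some c) (some c') fun m hm => ?_
    have := hM m hm
    rw [hsum, hc, Finset.sum_pair hne, h4] at this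
    exact this

theorem card_filter_le {k : ℕ} (h : Fin k → F2) : (Finset.univ.filter fun j => h j ≠ 0).card ≤ k := by
  have := Finset.card_filter_le (Finset.univ : Finset (Fin k)) fun j => h j ≠ 0
  rwa [Finset.card_univ, Fintype.card_fin] at this

/-- the parity of the first `r` coordinates, the other coordinates vanish -/
def parM (k r : ℕ) : Submodule F2 (Fin k → F2) where
  carrier := {x | (∑ j, if j.1 < r then x j else 0) = 0 ∧ ∀ j, r ≤ j.1 → x j = 0}
  zero_mem' := by
    refine ⟨?_, fun _ _ => rfl⟩
    simp
  add_mem' := by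
    rintro a b ⟨h1, h2⟩ ⟨h3, h4⟩
    refine ⟨?_, fun j hj => by rw [Pi.add_apply, h2 j hj, h4 j hj, add_zero]⟩
    have : ∀ j : Fin k, (if j.1 < r then (a + b) j else 0) =
        (if j.1 < r then a j else 0) + if j.1 < r then b j else 0 := by
      intro j
      split_ifs
      · rfl
      · exact (add_zero (0 : F2)).symm
    rw [Finset.sum_congr rfl fun j _ => this j, Finset.sum_add_distrib, h1, h3, add_zero]
  smul_mem' := by
    rintro c a ⟨h1, h2⟩
    rcases F2.cases c with rfl | rfl
    · rw [zero_smul]
      refine ⟨?_, fun _ _ => rfl⟩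
      simp
    · rw [one_smul]
      exact ⟨h1, h2⟩

theorem mem_parM {k r : ℕ} {x : Fin k → F2} :
    x ∈ parM k r ↔ (∑ j, if j.1 < r then x j else 0) = 0 ∧ ∀ j, r ≤ j.1 → x j = 0 := Iff.rfl

theorem pair_mem_parM {k r : ℕ} {i j : Fin k} (hi : i.1 < r) (hj : j.1 < r) (hij : i ≠ j) :
    (Pi.single i 1 + Pi.single j 1 : Fin k → F2) ∈ parM k r := by
  classical
  rw [mem_parM]
  constructor
  · have h1 : ∀ l : Fin k, (if l.1 < r then (Pi.single i 1 + Pi.single j 1 : Fin k → F2) l else 0) =
        (Pi.single i 1 : Fin k → F2) l + (Pi.single j 1 : Fin k → F2) l := by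
      intro l
      split_ifs with hl
      · rfl
      · rw [Pi.single_eq_of_ne (by rintro rfl; exact hl hi),
          Pi.single_eq_of_ne (by rintro rfl; exact hl hj), add_zero]
    rw [Finset.sum_congr rfl fun l _ => h1 l, Finset.sum_add_distrib, Finset.sum_pi_single',
      Finset.sum_pi_single', if_pos (Finset.mem_univ _), if_pos (Finset.mem_univ _)]
    rfl
  · intro l hl
    rw [Pi.add_apply, Pi.single_eq_of_ne (by rintro rfl; omega),
      Pi.single_eq_of_ne (by rintro rfl; omega), add_zero]

/-- for at least three coordinates, the parity is not defined by equations with two variables -/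
theorem parM_closure {k r : ℕ} (hr : 3 ≤ r) (hk : r ≤ k) (u v : Option (Fin k))
    (h : ∀ m ∈ parM k r, ext m u = ext m v) :
    ext (Pi.single (⟨0, by omega⟩ : Fin k) 1 : Fin k → F2) u =
      ext (Pi.single (⟨0, by omega⟩ : Fin k) 1 : Fin k → F2) v := by
  classical
  set z : Fin k := ⟨0, by omega⟩ with hz
  -- the value at a node
  have key : ∀ u v : Option (Fin k), (∀ m ∈ parM k r, ext m u = ext m v) → u = some z →
      v = some z := by
    rintro u v h rfl
    by_contra hv
    -- choose another coordinate, different from `v`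
    obtain ⟨j, hj, hjz, hjv⟩ : ∃ j : Fin k, j.1 < r ∧ j ≠ z ∧ some j ≠ v := by
      by_cases h1 : v = some ⟨1, by omega⟩
      · refine ⟨⟨2, by omega⟩, by show 2 < r; omega, ?_, ?_⟩
        · intro h2
          have := congrArg Fin.val h2
          simp [hz] at this
        · rw [h1]
          intro h2
          have := congrArg Fin.val (Option.some.inj h2)
          simp at this
      · refine ⟨⟨1, by omega⟩, by show 1 < r; omega, ?_, fun h2 => h1 h2.symm⟩
        intro h2
        have := congrArg Fin.val h2
        simp [hz] at this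
    have h2 := h _ (pair_mem_parM (i := z) (j := j) (by show 0 < r; omega) hj (Ne.symm hjz))
    rw [ext_some, Pi.add_apply, Pi.single_eq_same, Pi.single_eq_of_ne (Ne.symm hjz), add_zero] at h2
    cases v with
    | none => exact one_ne_zero h2
    | some w =>
      have h3 : w ≠ z := fun h => hv (by rw [h])
      have h4 : w ≠ j := fun h => hjv (by rw [h])
      rw [ext_some, Pi.add_apply, Pi.single_eq_of_ne h3, Pi.single_eq_of_ne h4, add_zero] at h2
      exact one_ne_zero h2
  by_cases hu : u = some z
  · rw [key u v h hu, hu]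
  · have hv : v ≠ some z := fun hv => hu (key v u (fun m hm => (h m hm).symm) hv)
    have h0 : ∀ w : Option (Fin k), w ≠ some z → ext (Pi.single z 1 : Fin k → F2) w = 0 := by
      intro w hw
      cases w with
      | none => rfl
      | some w => rw [ext_some, Pi.single_eq_of_ne fun h => hw (by rw [h])]
    rw [h0 u hu, h0 v hv]

theorem sum_single_parM {k r : ℕ} (hr : 3 ≤ r) (hk : r ≤ k) :
    (∑ j : Fin k, if j.1 < r then (Pi.single (⟨0, by omega⟩ : Fin k) 1 : Fin k → F2) j else 0) = 1 := by
  classical
  have h1 : ∀ l : Fin k, (if l.1 < r then (Pi.single (⟨0, by omega⟩ : Fin k) 1 : Fin k → F2) l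
      else 0) = (Pi.single (⟨0, by omega⟩ : Fin k) 1 : Fin k → F2) l := by
    intro l
    split_ifs with hl
    · rfl
    · rw [Pi.single_eq_of_ne]
      rintro rfl
      exact hl (by show 0 < r; omega)
  rw [Finset.sum_congr rfl fun l _ => h1 l, Finset.sum_pi_single', if_pos (Finset.mem_univ _)]

/-- the condition of `Parity` for one relation -/
def ParRel {k : ℕ} (S : Set (Fin k → F2)) : Prop :=
  ∃ (q y : Fin k → F2) (M : Submodule F2 (Fin k → F2)), (∀ m ∈ M, q + m ∈ S) ∧
    (∀ u v : Option (Fin k), (∀ m ∈ M, ext m u = ext m v) → ext y u = ext y v) ∧ q + y ∉ S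

theorem parRel_kSat (k : ℕ) : ParRel {x : Fin k → F2 | ∃ j, x j = 1} ↔ 3 ≤ k := by
  constructor
  · rintro ⟨q, y, M, hM, hy, hq⟩
    by_contra hk
    refine hq ?_
    have : y ∈ M := by
      by_contra hyM
      obtain ⟨h, h1, h2⟩ := exists_sep hyM
      have h3 := two_sep hy h1 ((card_filter_le h).trans (by omega : k ≤ 2))
      rw [h3] at h2
      exact zero_ne_one h2
    exact hM y this
  · intro hk
    refine ⟨(Pi.single (⟨0, by omega⟩ : Fin k) 1 : Fin k → F2),
      (Pi.single (⟨0, by omega⟩ : Fin k) 1 : Fin k → F2), parM k 3, ?_, ?_, ?_⟩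
    · intro m hm
      change ∃ j, ((Pi.single (⟨0, by omega⟩ : Fin k) 1 : Fin k → F2) + m) j = 1
      by_contra hcon
      push Not at hcon
      have h1 : ∀ j, ((Pi.single (⟨0, by omega⟩ : Fin k) 1 : Fin k → F2) + m) j = 0 := fun j =>
        (F2.cases _).resolve_right (hcon j)
      have h2 := sum_single_parM (k := k) (r := 3) le_rfl hk
      have h3 : ∀ j : Fin k, (if j.1 < 3 then (Pi.single (⟨0, by omega⟩ : Fin k) 1 : Fin k → F2) j
          else 0) = if j.1 < 3 then m j else 0 := by
        intro j
        have h4 := h1 j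
        rw [Pi.add_apply] at h4
        have h5 : ∀ x y : F2, x + y = 0 → x = y := by decide
        rw [h5 _ _ h4]
      rw [Finset.sum_congr rfl fun j _ => h3 j, (mem_parM.1 hm).1] at h2
      exact zero_ne_one h2
    · exact parM_closure le_rfl hk
    · rintro ⟨j, hj⟩
      rw [add_self_mod] at hj
      exact zero_ne_one hj

theorem parRel_nae (k : ℕ) : ParRel {x : Fin k → F2 | ∃ j j', x j ≠ x j'} ↔ 4 ≤ k := by
  classical
  constructor
  · rintro ⟨q, y, M, hM, hy, hq⟩
    by_contra hk
    -- `q + y` is constant
    have hconst : ∀ j j', (q + y) j = (q + y) j' := by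
      by_contra h
      push Not at h
      exact hq h
    -- neither `y` nor `y + 1` is in `M`
    have hy1 : y ∉ M := fun h => hq (hM y h)
    have hy2 : (y + fun _ => 1) ∉ M := by
      intro h
      obtain ⟨j, j', hj⟩ := hM _ h
      refine hj ?_
      have := hconst j j'
      simp only [Pi.add_apply] at this ⊢
      rw [← add_assoc, ← add_assoc, this]
    obtain ⟨h, h1, h2⟩ := exists_sep hy1
    have h3 : ¬ (Finset.univ.filter fun j => h j ≠ 0).card ≤ 2 := by
      intro h4
      rw [two_sep hy h1 h4] at h2
      exact zero_ne_one h2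
    have hk3 : k = 3 := by
      have := card_filter_le h
      omega
    subst hk3
    have hall : ∀ h : Fin 3 → F2, ¬ (Finset.univ.filter fun j => h j ≠ 0).card ≤ 2 → ∀ j, h j = 1 := by
      intro h hh j
      by_contra hj
      refine hh ?_
      have h4 : (Finset.univ.filter fun j => h j ≠ 0) ⊆ Finset.univ.erase j := by
        intro l hl
        rw [Finset.mem_erase]
        refine ⟨?_, Finset.mem_univ _⟩
        rintro rfl
        exact (Finset.mem_filter.1 hl).2 ((F2.cases _).resolve_right hj)
      have h5 := Finset.card_le_card h4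
      rw [Finset.card_erase_of_mem (Finset.mem_univ _), Finset.card_univ, Fintype.card_fin] at h5
      exact h5
    have h4 := hall h h3
    have h5 : h = fun _ => 1 := funext h4
    subst h5
    obtain ⟨g, g1, g2⟩ := exists_sep hy2
    by_cases g3 : (Finset.univ.filter fun j => g j ≠ 0).card ≤ 2
    · have g4 := two_sep hy g1 g3
      -- the equation `g` together with the parity
      have g5 := two_sep hy (h := fun j => g j + 1) (fun m hm => by
        have e1 := g1 m hm
        have e2 := h1 m hm
        simp only [add_mul, Finset.sum_add_distrib]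
        rw [e1, e2, add_zero]) (by
        by_contra hcon
        have e1 := hall _ hcon
        have e2 : ∀ j, g j = 0 := fun j => by
          have := e1 j
          simpa using this
        rw [Finset.sum_eq_zero (fun j _ => by rw [e2 j, zero_mul])] at g2
        exact zero_ne_one g2)
      simp only [add_mul, Finset.sum_add_distrib] at g5
      rw [g4, h2, zero_add] at g5
      exact one_ne_zero g5
    · have g4 := hall g g3
      have g5 : g = fun _ => 1 := funext g4
      subst g5
      simp only [Fin.sum_univ_three, Pi.add_apply, one_mul] at g2 h2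
      have g6 : ∀ x y z : F2, x + y + z = 1 → x + 1 + (y + 1) + (z + 1) = 1 → False := by decide
      exact g6 _ _ _ h2 g2
  · intro hk
    refine ⟨(Pi.single (⟨0, by omega⟩ : Fin k) 1 : Fin k → F2),
      (Pi.single (⟨0, by omega⟩ : Fin k) 1 : Fin k → F2), parM k 4, ?_, ?_, ?_⟩
    · intro m hm
      change ∃ j j', ((Pi.single (⟨0, by omega⟩ : Fin k) 1 : Fin k → F2) + m) j ≠
        ((Pi.single (⟨0, by omega⟩ : Fin k) 1 : Fin k → F2) + m) j'
      by_contra hcon
      push Not at hcon
      set c : F2 := ((Pi.single (⟨0, by omega⟩ : Fin k) 1 : Fin k → F2) + m) ⟨0, by omega⟩ with hc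
      have h1 : ∀ j, ((Pi.single (⟨0, by omega⟩ : Fin k) 1 : Fin k → F2) + m) j = c := fun j =>
        hcon _ _
      have h2 := sum_single_parM (k := k) (r := 4) (by norm_num) hk
      have h3 : ∀ j : Fin k, (if j.1 < 4 then (Pi.single (⟨0, by omega⟩ : Fin k) 1 : Fin k → F2) j
          else 0) = (if j.1 < 4 then m j else 0) + if j.1 < 4 then c else 0 := by
        intro j
        have h4 := h1 j
        rw [Pi.add_apply] at h4
        have h5 : ∀ x y z : F2, x + y = z → x = y + z := by decide
        split_ifs
        · exact h5 _ _ _ h4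
        · exact (add_zero (0 : F2)).symm
      rw [Finset.sum_congr rfl fun j _ => h3 j, Finset.sum_add_distrib, (mem_parM.1 hm).1,
        zero_add, ← Finset.sum_filter, Finset.sum_const] at h2
      have h6 : (Finset.univ.filter fun j : Fin k => j.1 < 4).card = 4 := by
        have : (Finset.univ.filter fun j : Fin k => j.1 < 4) =
            Finset.univ.map (Fin.castLEEmb hk) := by
          ext j
          simp only [Finset.mem_filter, Finset.mem_univ, true_and, Finset.mem_map]
          constructor
          · intro h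
            exact ⟨⟨j.1, h⟩, rfl⟩
          · rintro ⟨l, rfl⟩
            exact l.2
        rw [this, Finset.card_map, Finset.card_univ, Fintype.card_fin]
      rw [h6] at h2
      have h7 : ∀ c : F2, ¬ (4 • c = 1) := by decide
      exact h7 c h2
    · exact parM_closure (by norm_num) hk
    · rintro ⟨j, j', hj⟩
      refine hj ?_
      rw [add_self_mod]
      rfl

theorem parity_kSat (k : ℕ) : Parity (kSat k) ↔ 3 ≤ k := by
  rw [← parRel_kSat]
  exact ⟨fun ⟨_, h⟩ => h, fun h => ⟨(), h⟩⟩

theorem parity_nae (k : ℕ) : Parity (nae k) ↔ 4 ≤ k := by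
  rw [← parRel_nae]
  exact ⟨fun ⟨_, h⟩ => h, fun h => ⟨(), h⟩⟩

end Pool.Agent.H5Dich
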