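import Pool.Agent.H5Sym.CircuitDefs

/-!
# Boolean constraint satisfaction with literals, and flips of variables: definitions
-/

set_option autoImplicit false

namespace Pool.Agent.H5Dich

open Pool.Agent.H5Sym

/-- A finite family of Boolean relations, written with the values `0`, `1` of `ZMod 2`. -/
structure Lang where
  /-- the index set of the family -/
  Idx : Type
  /-- the family is finite -/
  finite : Finite Idx
  /-- the arities -/
  ar : Idx → ℕ
  /-- the relations -/
  rel : (i : Idx) → Set (Fin (ar i) → ZMod 2)

/-- Constraints over the variables `V`: a relation of the family applied to literals. The constraint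
`⟨i, s, a⟩` says that the tuple with the entries `x (s k) + a k` is in the relation `i`. -/
abbrev Con (Γ : Lang) (V : Type) : Type :=
  (i : Γ.Idx) × ((Fin (Γ.ar i) → V) × (Fin (Γ.ar i) → ZMod 2))

/-- the set of the solutions of a set of constraints -/
def sol {Γ : Lang} {V : Type} (φ : Set (Con Γ V)) : Set (V → ZMod 2) :=
  {x | ∀ t ∈ φ, (fun k => x (t.2.1 k) + t.2.2 k) ∈ Γ.rel t.1}

/-- the constraints with the bit `true` -/
def ones {Γ : Lang} {V : Type} (φ : Con Γ V → Bool) : Set (Con Γ V) := {t | φ t = true}

/-- the permutation of the constraints that flips the variables `v` with `u v = 1` -/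
def flipC {Γ : Lang} {V : Type} (u : V → ZMod 2) : Equiv.Perm (Con Γ V) :=
  Equiv.sigmaCongrRight fun i =>
    Equiv.prodShear (Equiv.refl _) fun s : Fin (Γ.ar i) → V => Equiv.addRight (u ∘ s)

/-- the extension of `t` by the value `0` at one further point -/
def ext {V : Type} (t : V → ZMod 2) : Option V → ZMod 2 := fun o => o.elim 0 t

/-- The set `S` of vectors is defined by equations of the forms `t v = 0` and `t u = t v`. -/
def TwoVariable {V : Type} (S : Set (V → ZMod 2)) : Prop :=
  ∀ t, (∀ u v : Option V, (∀ t' ∈ S, ext t' u = ext t' v) → ext t u = ext t v) → t ∈ S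

/-- Some relation of the family contains a translate `q + M` of a subspace `M`, but does not contain a
certain vector `q + y` which satisfies all the equations with at most two variables that hold on
`q + M`. -/
def Parity (Γ : Lang) : Prop :=
  ∃ (i : Γ.Idx) (q y : Fin (Γ.ar i) → ZMod 2) (M : Submodule (ZMod 2) (Fin (Γ.ar i) → ZMod 2)),
    (∀ m ∈ M, q + m ∈ Γ.rel i) ∧
    (∀ u v : Option (Fin (Γ.ar i)), (∀ m ∈ M, ext m u = ext m v) → ext y u = ext y v) ∧
    q + y ∉ Γ.rel i

/-- one relation: clauses of length `k` -/
def kSat (k : ℕ) : Lang where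
  Idx := Unit
  finite := inferInstance
  ar _ := k
  rel _ := {x | ∃ j, x j = 1}

/-- one relation: not all of the `k` entries are equal -/
def nae (k : ℕ) : Lang where
  Idx := Unit
  finite := inferInstance
  ar _ := k
  rel _ := {x | ∃ j j', x j ≠ x j'}

/-- Some conjunction of constraints defines a translate of a subspace which is not defined by
equations with at most two variables. -/
def HasParity (Γ : Lang) : Prop :=
  ∃ (k : ℕ) (φ : Set (Con Γ (Fin k))) (q : Fin k → ZMod 2)
    (L : Submodule (ZMod 2) (Fin k → ZMod 2)),
    (∀ x, x ∈ sol φ ↔ x + q ∈ L) ∧ ¬ TwoVariable (L : Set (Fin k → ZMod 2))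

/-- the OR gate; the inputs on the wires with the label `1` are negated -/
def orLit (M : Multiset (ℕ × Bool)) : Bool := decide ((0, true) ∈ M ∨ (1, false) ∈ M)

/-- the AND gate; the inputs on the wires with the label `1` are negated -/
def andLit (M : Multiset (ℕ × Bool)) : Bool := decide ((0, false) ∉ M ∧ (1, true) ∉ M)

end Pool.Agent.H5Dich
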