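import Pool.Agent.H5Dich.Lower

/-!
# Translates of sets of solutions, canonical translates and canonical signs
-/

set_option autoImplicit false

namespace Pool.Agent.H5Dich

open Module Pool.Agent.H5Sym

variable {Γ : Lang} {V : Type}

/-- the translate of a set -/
def tr (u : V → F2) (S : Set (V → F2)) : Set (V → F2) := {x | x + u ∈ S}

theorem mem_tr {u x : V → F2} {S : Set (V → F2)} : x ∈ tr u S ↔ x + u ∈ S := Iff.rfl

theorem tr_tr (u v : V → F2) (S : Set (V → F2)) : tr u (tr v S) = tr (u + v) S := by
  ext x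
  rw [mem_tr, mem_tr, mem_tr, add_assoc]

theorem tr_zero (S : Set (V → F2)) : tr 0 S = S := by
  ext x
  rw [mem_tr, add_zero]

theorem tr_self (u : V → F2) (S : Set (V → F2)) : tr u (tr u S) = S := by
  rw [tr_tr, add_self_mod, tr_zero]

/-- the stabiliser of a set -/
def stb (S : Set (V → F2)) : Submodule F2 (V → F2) where
  carrier := {t | tr t S = S}
  zero_mem' := tr_zero S
  add_mem' := by
    intro a b ha hb
    change tr (a + b) S = S
    rw [← tr_tr, show tr b S = S from hb, show tr a S = S from ha]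
  smul_mem' := by
    intro c a ha
    rcases F2.cases c with rfl | rfl
    · rw [zero_smul]; exact tr_zero S
    · rw [one_smul]; exact ha

theorem mem_stb {t : V → F2} {S : Set (V → F2)} : t ∈ stb S ↔ tr t S = S := Iff.rfl

theorem mem_stb' {t : V → F2} {S : Set (V → F2)} : t ∈ stb S ↔ ∀ p ∈ S, p + t ∈ S := by
  rw [mem_stb]
  constructor
  · intro h p hp
    rw [← h] at hp
    exact hp
  · intro h
    refine Set.Subset.antisymm (fun x hx => ?_) h
    have h1 := h _ hx
    rwa [add_assoc, add_self_mod, add_zero] at h1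

theorem stb_tr (u : V → F2) (S : Set (V → F2)) : stb (tr u S) = stb S := by
  ext t
  rw [mem_stb, mem_stb, tr_tr, add_comm, ← tr_tr]
  constructor
  · intro h
    have := congrArg (tr u) h
    rwa [tr_self, tr_self] at this
  · intro h
    rw [h]

/-- two sets are equivalent if they are translates of each other -/
def orb (V : Type) : Setoid (Set (V → F2)) where
  r S S' := ∃ u, S' = tr u S
  iseqv :=
    { refl := fun S => ⟨0, (tr_zero S).symm⟩
      symm := by
        rintro S S' ⟨u, rfl⟩
        exact ⟨u, (tr_self u S).symm⟩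
      trans := by
        rintro S S' S'' ⟨u, rfl⟩ ⟨v, rfl⟩
        exact ⟨v + u, tr_tr v u S⟩ }

/-- the representative of the class of the translates of a set -/
noncomputable def rep (S : Set (V → F2)) : Set (V → F2) := Quotient.out (Quotient.mk (orb V) S)

theorem exists_gauge (S : Set (V → F2)) : ∃ u, S = tr u (rep S) :=
  Quotient.exact (Quotient.out_eq (Quotient.mk (orb V) S))

/-- a translation that maps the representative to the set -/
noncomputable def gauge (S : Set (V → F2)) : V → F2 := (exists_gauge S).choose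

theorem gauge_spec (S : Set (V → F2)) : S = tr (gauge S) (rep S) := (exists_gauge S).choose_spec

theorem gauge_tr (u : V → F2) (S : Set (V → F2)) : gauge (tr u S) + (gauge S + u) ∈ stb S := by
  have h0 : rep (tr u S) = rep S := by
    have : Quotient.mk (orb V) (tr u S) = Quotient.mk (orb V) S :=
      Quotient.sound (s := orb V) ⟨u, (tr_self u S).symm⟩
    rw [rep, rep, this]
  have h1 := gauge_spec (tr u S)
  have h2 := gauge_spec S
  rw [h0] at h1
  have h3 : stb S = stb (rep S) := by
    conv_lhs => rw [h2]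
    exact stb_tr _ _
  rw [h3, mem_stb, ← tr_tr]
  have h4 : tr (gauge S + u) (rep S) = tr u S := by
    rw [add_comm, ← tr_tr, ← h2]
  have h5 := congrArg (tr (gauge (tr u S))) h1
  rw [tr_self] at h5
  rw [h4]
  exact h5

/-- the equation `t x = t y` holds on the stabiliser of `S` -/
def valid (S : Set (V → F2)) (x y : Option V) : Prop := ∀ t ∈ stb S, ext t x = ext t y

theorem valid_tr (u : V → F2) (S : Set (V → F2)) (x y : Option V) :
    valid (tr u S) x y ↔ valid S x y := by
  rw [valid, valid, stb_tr]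

/-- the canonical sign of a valid pair -/
def edge (S : Set (V → F2)) (x y : Option V) (d : F2) : Prop :=
  valid S x y ∧ ext (gauge S) x + ext (gauge S) y = d

theorem edge_tr (u : V → F2) (S : Set (V → F2)) (x y : Option V) (d : F2) :
    edge (tr u S) x y (d + (ext u x + ext u y)) ↔ edge S x y d := by
  rw [edge, edge, valid_tr]
  refine and_congr_right fun hv => ?_
  have h1 := hv _ (gauge_tr u S)
  rw [ext_add, ext_add] at h1
  simp only [Pi.add_apply] at h1
  generalize ext (gauge (tr u S)) x = a at *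
  generalize ext (gauge (tr u S)) y = b at *
  generalize ext (gauge S) x = a' at *
  generalize ext (gauge S) y = b' at *
  generalize ext u x = c at *
  generalize ext u y = c' at *
  revert a b a' b' c c' d
  decide

/-- a state: the pairs of connected nodes and their signs -/
def Good {N : Type} (q : N → N → F2 → Prop) (κ : N → N) (t : N → F2) : Prop :=
  ∀ x y d, q x y d ↔ κ x = κ y ∧ t x + t y = d

/-- the components of `u` and `v` are joined by an edge with the sign in `E` -/
def step {N : Type} (E : F2 → Prop) (u v : N) (q : N → N → F2 → Prop) (x y : N) (d : F2) : Prop :=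
  q x y d ∨ (¬ q u v 0 ∧ ¬ q u v 1 ∧ ∃ d₁ d₂ d₃, d₁ + d₂ + d₃ = d ∧ E d₂ ∧
    ((q x u d₁ ∧ q v y d₃) ∨ (q y u d₁ ∧ q v x d₃)))

theorem step_good {N : Type} {E : F2 → Prop} {u v : N} {q : N → N → F2 → Prop} {κ : N → N}
    {t : N → F2} (hE : ∀ d d', E d → E d' → d = d') (h : Good q κ t) :
    ∃ κ' t', Good (step E u v q) κ' t' ∧ (∀ x y, κ x = κ y → κ' x = κ' y) ∧
      ((∃ d, E d) → κ' u = κ' v) := by
  classical
  have huv : (¬ q u v 0 ∧ ¬ q u v 1) ↔ κ u ≠ κ v := by
    rw [h, h]
    constructor
    · rintro ⟨h0, h1⟩ hk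
      rcases F2.cases (t u + t v) with h2 | h2
      · exact h0 ⟨hk, h2⟩
      · exact h1 ⟨hk, h2⟩
    · intro hk
      exact ⟨fun h => hk h.1, fun h => hk h.1⟩
  by_cases hc : κ u = κ v ∨ ¬ ∃ d, E d
  · refine ⟨κ, t, ?_, fun x y h => h, ?_⟩
    · intro x y d
      rw [← h]
      constructor
      · rintro (h1 | ⟨h1, h2, d₁, d₂, d₃, h3, h4, h5⟩)
        · exact h1
        · rcases hc with hc | hc
          · exact absurd hc (huv.1 ⟨h1, h2⟩)
          · exact absurd ⟨d₂, h4⟩ hc
      · exact Or.inl
    · intro hE'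
      rcases hc with hc | hc
      · exact hc
      · exact absurd hE' hc
  · rw [not_or, not_not] at hc
    obtain ⟨hne, c, hcE⟩ := hc
    refine ⟨fun x => if κ x = κ v then κ u else κ x,
      fun x => t x + if κ x = κ v then c + t u + t v else 0, ?_, ?_, ?_⟩
    · intro x y d
      have key : step E u v q x y d ↔ (κ x = κ y ∧ t x + t y = d) ∨
          ((κ x = κ u ∧ κ v = κ y ∨ κ y = κ u ∧ κ v = κ x) ∧ t x + t y + (c + t u + t v) = d) := by
        rw [step, h]
        refine or_congr_right ?_
        constructor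
        · rintro ⟨-, -, d₁, d₂, d₃, h3, h4, h5⟩
          have h6 := hE _ _ h4 hcE
          subst h6
          rcases h5 with ⟨h5, h7⟩ | ⟨h5, h7⟩ <;> rw [h] at h5 h7
          · refine ⟨Or.inl ⟨h5.1, h7.1⟩, ?_⟩
            rw [← h3, ← h5.2, ← h7.2]
            ring
          · refine ⟨Or.inr ⟨h5.1, h7.1⟩, ?_⟩
            rw [← h3, ← h5.2, ← h7.2]
            ring
        · rintro ⟨h1, h2⟩
          obtain ⟨h3, h4⟩ := huv.2 hne
          rcases h1 with ⟨h5, h6⟩ | ⟨h5, h6⟩
          · refine ⟨h3, h4, t x + t u, c, t v + t y, ?_, hcE, Or.inl ⟨(h _ _ _).2 ⟨h5, rfl⟩,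
              (h _ _ _).2 ⟨h6, rfl⟩⟩⟩
            rw [← h2]
            ring
          · refine ⟨h3, h4, t y + t u, c, t v + t x, ?_, hcE, Or.inr ⟨(h _ _ _).2 ⟨h5, rfl⟩,
              (h _ _ _).2 ⟨h6, rfl⟩⟩⟩
            rw [← h2]
            ring
      rw [key]
      dsimp only
      by_cases hx : κ x = κ v <;> by_cases hy : κ y = κ v
      · rw [if_pos hx, if_pos hy, if_pos hx, if_pos hy]
        have e1 : κ x = κ y := hx.trans hy.symm
        have e2 : ¬ κ x = κ u := fun h => hne (h.symm.trans hx)
        have e3 : ¬ κ y = κ u := fun h => hne (h.symm.trans hy)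
        have e4 : t x + (c + t u + t v) + (t y + (c + t u + t v)) = t x + t y := by
          have := add_self_mod (c + t u + t v)
          linear_combination this
        rw [e4]
        simp only [e1, e3, false_and, or_false, true_and]
      · rw [if_pos hx, if_neg hy, if_pos hx, if_neg hy]
        have e1 : ¬ κ x = κ y := fun h => hy (h.symm.trans hx)
        have e2 : ¬ κ v = κ y := fun h => hy h.symm
        have e4 : t x + (c + t u + t v) + (t y + 0) = t x + t y + (c + t u + t v) := by ring
        rw [e4]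
        simp only [e1, hx.symm, false_and, and_true, false_or, eq_comm (a := κ u)]
        tauto
      · rw [if_neg hx, if_pos hy, if_neg hx, if_pos hy]
        have e1 : ¬ κ x = κ y := fun h => hx (h.trans hy)
        have e2 : ¬ κ v = κ x := fun h => hx h.symm
        have e4 : t x + 0 + (t y + (c + t u + t v)) = t x + t y + (c + t u + t v) := by ring
        rw [e4]
        have e3 : ¬ κ y = κ x := fun h => e1 h.symm
        simp only [e1, e3, hy.symm, false_and, and_false, and_true, false_or, or_false]
      · rw [if_neg hx, if_neg hy, if_neg hx, if_neg hy]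
        have e2 : ¬ κ v = κ x := fun h => hx h.symm
        have e3 : ¬ κ v = κ y := fun h => hy h.symm
        rw [add_zero, add_zero]
        simp only [e2, e3, and_false, false_and, or_false]
    · intro x y hxy
      dsimp only
      rw [hxy]
    · intro _
      dsimp only
      rw [if_pos rfl, if_neg hne]

/-- the constraints on the scope `σ` with the signs in `B` -/
def lset (σ : (i : Γ.Idx) × (Fin (Γ.ar i) → V)) (B : (Fin (Γ.ar σ.1) → F2) → Bool) :
    Set (V → F2) := {x | ∀ a, B a = true → x ∘ σ.2 + a ∈ Γ.rel σ.1}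

theorem lset_tr (σ : (i : Γ.Idx) × (Fin (Γ.ar i) → V)) (B : (Fin (Γ.ar σ.1) → F2) → Bool)
    (u : V → F2) : lset σ (fun a => B (a + u ∘ σ.2)) = tr u (lset σ B) := by
  ext x
  constructor
  · intro h a ha
    have h1 := h (a + u ∘ σ.2) (by
      dsimp only
      rwa [add_assoc, add_self_mod, add_zero])
    have e : (x + u) ∘ σ.2 + a = x ∘ σ.2 + (a + u ∘ σ.2) := by
      funext k
      simp only [Pi.add_apply, Function.comp]
      ring
    rwa [e]
  · intro h a ha
    have h1 := h _ ha
    have e : (x + u) ∘ σ.2 + (a + u ∘ σ.2) = x ∘ σ.2 + a := by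
      funext k
      simp only [Pi.add_apply, Function.comp]
      have := add_self_mod (u (σ.2 k))
      linear_combination this
    rwa [e] at h1

theorem twoVariable_stb (hΓ : ¬ HasParity Γ) {n : ℕ} (φ : Set (Con Γ (Fin n))) :
    TwoVariable (stb (sol φ) : Set (Fin n → F2)) := by
  by_contra hcon
  rcases Set.eq_empty_or_nonempty (sol φ) with he | ⟨q, hq⟩
  · refine hcon fun t _ => ?_
    change t ∈ stb (sol φ)
    rw [he, mem_stb]
    rfl
  · refine hΓ ⟨n, {t | ∃ p ∈ sol φ, flipC (q + p) t ∈ φ}, q, stb (sol φ), ?_, hcon⟩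
    intro x
    rw [mem_stb']
    have h1 : x ∈ sol {t | ∃ p ∈ sol φ, flipC (q + p) t ∈ φ} ↔
        ∀ p ∈ sol φ, x ∈ sol {t | flipC (q + p) t ∈ φ} :=
      ⟨fun h p hp t ht => h t ⟨p, hp, ht⟩, fun h t ⟨p, hp, ht⟩ => h p hp t ht⟩
    rw [h1]
    refine forall₂_congr fun p _ => ?_
    rw [sol_flip]
    have : x + (q + p) = p + (x + q) := by ring
    rw [this]

theorem twoVariable_lset (hΓ : ¬ HasParity Γ) {n : ℕ} (σ : (i : Γ.Idx) × (Fin (Γ.ar i) → Fin n))
    (B : (Fin (Γ.ar σ.1) → F2) → Bool) : TwoVariable (stb (lset σ B) : Set (Fin n → F2)) := by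
  have h1 : lset σ B = sol {t : Con Γ (Fin n) | ∃ a, B a = true ∧ t = ⟨σ.1, (σ.2, a)⟩} := by
    ext x
    constructor
    · rintro h t ⟨a, ha, rfl⟩
      exact h a ha
    · intro h a ha
      exact h _ ⟨a, ha, rfl⟩
  rw [h1]
  exact twoVariable_stb hΓ _

end Pool.Agent.H5Dich
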