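import Pool.Agent.H5Dich.Count

/-!
# Symmetric circuits do not see the right-hand side of a sparse system of parity constraints
-/

set_option autoImplicit false

namespace Pool.Agent.H5Dich

open Module Pool.Agent.H5Sym

variable {Γ : Lang} {R : Type} {P m : ℕ} {V : Type}

theorem ext_add {R : Type} (a b : R → F2) : ext (a + b) = ext a + ext b := by
  funext o
  cases o
  · exact (add_zero (0 : F2)).symm
  · rfl

theorem ext_zero {R : Type} : ext (0 : R → F2) = 0 := by
  funext o
  cases o <;> rfl

theorem ext_none {R : Type} (a : R → F2) : ext a none = 0 := rfl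

theorem ext_some {R : Type} (a : R → F2) (c : R) : ext a (some c) = a c := rfl

/-- the extension as a linear map -/
def extL (R : Type) : (R → F2) →ₗ[F2] (Option R → F2) where
  toFun := ext
  map_add' := ext_add
  map_smul' r a := by
    funext o
    cases o
    · exact (mul_zero r).symm
    · rfl

/-- the scope of the row `j` -/
def sc (v0 : V) (ι : R × Fin P ↪ V) (f : R → Fin m → Fin P) (j : Fin m) : Option R → V :=
  fun o => o.elim v0 fun c => ι (c, f c j)

/-- a translate of a copy of a constraint -/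
def cpy (v0 : V) (ι : R × Fin P ↪ V) (f : R → Fin m → Fin P) (j : Fin m) (c : Con Γ (Option R))
    (y : R → F2) : Con Γ V :=
  ⟨c.1, (sc v0 ι f j ∘ c.2.1, c.2.2 + ext y ∘ c.2.1)⟩

open Classical in
/-- The system of the `m` copies of the system `φ`, with the right-hand sides `w`. -/
noncomputable def frm (v0 : V) (ι : R × Fin P ↪ V) (f : R → Fin m → Fin P)
    (φ : Set (Con Γ (Option R))) (L : Submodule F2 (Option R → F2)) (w : Fin m → R → F2)
    (t : Con Γ V) : Bool :=
  decide (∃ j, ∃ c ∈ φ, ∃ l : R → F2, ext l ∈ L ∧ t = cpy v0 ι f j c (w j + l))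

theorem frm_true {v0 : V} {ι : R × Fin P ↪ V} {f : R → Fin m → Fin P}
    {φ : Set (Con Γ (Option R))} {L : Submodule F2 (Option R → F2)} {w : Fin m → R → F2}
    {t : Con Γ V} : frm v0 ι f φ L w t = true ↔
      ∃ j, ∃ c ∈ φ, ∃ l : R → F2, ext l ∈ L ∧ t = cpy v0 ι f j c (w j + l) := by
  simp only [frm, decide_eq_true_eq]

theorem sol_frm (v0 : V) (ι : R × Fin P ↪ V) (f : R → Fin m → Fin P)
    (φ : Set (Con Γ (Option R))) (L : Submodule F2 (Option R → F2)) (hsol : sol φ = L)
    (w : Fin m → R → F2) (x : V → F2) :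
    x ∈ sol (ones (frm v0 ι f φ L w)) ↔ ∀ j, x ∘ sc v0 ι f j + ext (w j) ∈ L := by
  constructor
  · intro hx j
    have h1 : x ∘ sc v0 ι f j + ext (w j) ∈ sol φ := by
      intro c hc
      have h2 := hx (cpy v0 ι f j c (w j + 0))
        (frm_true.2 ⟨j, c, hc, 0, by rw [ext_zero]; exact L.zero_mem, rfl⟩)
      rw [add_zero] at h2
      have h3 : (fun k => x (sc v0 ι f j (c.2.1 k)) + (c.2.2 k + ext (w j) (c.2.1 k))) ∈ Γ.rel c.1 := h2
      have h4 : (fun k => (x ∘ sc v0 ι f j + ext (w j)) (c.2.1 k) + c.2.2 k) =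
          fun k => x (sc v0 ι f j (c.2.1 k)) + (c.2.2 k + ext (w j) (c.2.1 k)) := by
        funext k
        simp only [Pi.add_apply, Function.comp]
        ring
      rw [h4]
      exact h3
    rw [hsol] at h1
    exact h1
  · rintro hx t ht
    obtain ⟨j, c, hc, l, hl, rfl⟩ := frm_true.1 ht
    have h1 : x ∘ sc v0 ι f j + ext (w j) + ext l ∈ sol φ := by
      rw [hsol]
      exact L.add_mem (hx j) hl
    have h2 := h1 c hc
    have h4 : (fun k => (x ∘ sc v0 ι f j + ext (w j) + ext l) (c.2.1 k) + c.2.2 k) =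
        fun k => x (sc v0 ι f j (c.2.1 k)) + (c.2.2 k + ext (w j + l) (c.2.1 k)) := by
      funext k
      simp only [Pi.add_apply, Function.comp, ext_add]
      ring
    rw [h4] at h2
    exact h2

/-- the left-hand sides -/
def lhsH (ι : R × Fin P ↪ V) (f : R → Fin m → Fin P) : (V → F2) →ₗ[F2] (Fin m → R → F2) where
  toFun u j c := u (ι (c, f c j))
  map_add' _ _ := rfl
  map_smul' _ _ := rfl

theorem comp_sc {v0 : V} {ι : R × Fin P ↪ V} {f : R → Fin m → Fin P} {u : V → F2} (hu : u v0 = 0)
    (j : Fin m) : u ∘ sc v0 ι f j = ext (lhsH ι f u j) := by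
  funext o
  cases o
  · exact hu
  · rfl

theorem flipC_apply (u : V → F2) (t : Con Γ V) : flipC u t = ⟨t.1, (t.2.1, t.2.2 + u ∘ t.2.1)⟩ := rfl

theorem flipC_add (u v : V → F2) : (flipC (u + v) : Equiv.Perm (Con Γ V)) = flipC u * flipC v := by
  refine Equiv.ext fun t => ?_
  rw [Equiv.Perm.mul_apply, flipC_apply, flipC_apply, flipC_apply]
  have : t.2.2 + (u + v) ∘ t.2.1 = t.2.2 + v ∘ t.2.1 + u ∘ t.2.1 := by
    funext k
    simp only [Pi.add_apply, Function.comp]
    ring
  rw [this]

theorem flipC_zero : (flipC (0 : V → F2) : Equiv.Perm (Con Γ V)) = 1 := by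
  refine Equiv.ext fun t => ?_
  rw [flipC_apply]
  have : t.2.2 + (0 : V → F2) ∘ t.2.1 = t.2.2 := by
    funext k
    simp
  rw [this]
  rfl

theorem flipC_flipC (u : V → F2) (t : Con Γ V) : flipC u (flipC u t) = t := by
  rw [← Equiv.Perm.mul_apply, ← flipC_add, add_self_mod, flipC_zero]
  rfl

theorem flip_cpy {v0 : V} {ι : R × Fin P ↪ V} {f : R → Fin m → Fin P} {u : V → F2} (hu : u v0 = 0)
    (j : Fin m) (c : Con Γ (Option R)) (y : R → F2) :
    flipC u (cpy v0 ι f j c y) = cpy v0 ι f j c (y + lhsH ι f u j) := by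
  rw [flipC_apply, cpy, cpy]
  dsimp only
  rw [← Function.comp_assoc, comp_sc hu, ext_add]
  have : c.2.2 + ext y ∘ c.2.1 + ext (lhsH ι f u j) ∘ c.2.1 =
      c.2.2 + (ext y + ext (lhsH ι f u j)) ∘ c.2.1 := by
    funext k
    simp only [Pi.add_apply, Function.comp]
    ring
  rw [this]

theorem frm_flip {v0 : V} {ι : R × Fin P ↪ V} {f : R → Fin m → Fin P}
    {φ : Set (Con Γ (Option R))} {L : Submodule F2 (Option R → F2)} {u : V → F2} (hu : u v0 = 0)
    (w : Fin m → R → F2) (t : Con Γ V) :
    frm v0 ι f φ L (w + lhsH ι f u) (flipC u t) = frm v0 ι f φ L w t := by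
  have key : ∀ (w : Fin m → R → F2) (t : Con Γ V), frm v0 ι f φ L w t = true →
      frm v0 ι f φ L (w + lhsH ι f u) (flipC u t) = true := by
    intro w t h
    obtain ⟨j, c, hc, l, hl, rfl⟩ := frm_true.1 h
    refine frm_true.2 ⟨j, c, hc, l, hl, ?_⟩
    rw [flip_cpy hu, Pi.add_apply, add_right_comm]
  rw [Bool.eq_iff_iff]
  refine ⟨fun h => ?_, key w t⟩
  have h1 := key _ _ h
  rwa [flipC_flipC, add_assoc, add_self_mod, add_zero] at h1

section functional

variable [Fintype R] [DecidableEq R]

/-- the coefficients of a functional -/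
def coef (q : Dual F2 (Fin m → R → F2)) : Fin m → R → F2 :=
  fun j c => q (Pi.single j (Pi.single c 1))

theorem coef_apply (q : Dual F2 (Fin m → R → F2)) (w : Fin m → R → F2) :
    q w = ∑ j, ∑ c, coef q j c * w j c := by
  have h1 : w = ∑ j, ∑ c, w j c • (Pi.single j (Pi.single c 1) : Fin m → R → F2) := by
    funext j c
    rw [Finset.sum_apply, Finset.sum_apply]
    rw [Finset.sum_eq_single j]
    · rw [Finset.sum_apply, Finset.sum_apply, Finset.sum_eq_single c]
      · simp
      · intro c' _ hc'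
        simp [Pi.single_eq_of_ne hc'.symm]
      · intro h; exact absurd (Finset.mem_univ _) h
    · intro j' _ hj'
      rw [Finset.sum_apply, Finset.sum_apply]
      refine Finset.sum_eq_zero fun c' _ => ?_
      simp [Pi.single_eq_of_ne hj'.symm]
    · intro h; exact absurd (Finset.mem_univ _) h
  conv_lhs => rw [h1]
  rw [map_sum]
  refine Finset.sum_congr rfl fun j _ => ?_
  rw [map_sum]
  refine Finset.sum_congr rfl fun c _ => ?_
  rw [map_smul, smul_eq_mul, mul_comm]
  rfl

theorem coef_single (q : Dual F2 (Fin m → R → F2)) (j : Fin m) (y : R → F2) :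
    q (Pi.single j y) = ∑ c, coef q j c * y c := by
  rw [coef_apply, Finset.sum_eq_single j]
  · simp
  · intro j' _ hj'
    refine Finset.sum_eq_zero fun c _ => ?_
    rw [Pi.single_eq_of_ne hj', Pi.zero_apply, mul_zero]
  · intro h; exact absurd (Finset.mem_univ _) h

theorem supp_zero : supp (0 : Fin m → R → F2) = ∅ := by
  simp [supp]

theorem supp_add (h h' : Fin m → R → F2) : (supp (h + h')).card ≤ (supp h).card + (supp h').card := by
  refine le_trans (Finset.card_le_card ?_) (Finset.card_union_le _ _)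
  intro j hj
  simp only [supp, Finset.mem_filter, Finset.mem_univ, true_and, Pi.add_apply,
    Finset.mem_union] at hj ⊢
  by_contra hcon
  push Not at hcon
  exact hj (by rw [hcon.1, hcon.2, add_zero])

theorem coef_add (q q' : Dual F2 (Fin m → R → F2)) : coef (q + q') = coef q + coef q' := rfl

/-- the functional on the flips with the coefficients `v` -/
def funcH (ι : R × Fin P ↪ V) (U : Submodule F2 (V → F2)) (v : R → Fin P → F2) : Dual F2 U where
  toFun u := ∑ c, ∑ i, v c i * u.1 (ι (c, i))
  map_add' u u' := by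
    simp only [Submodule.coe_add, Pi.add_apply, mul_add, Finset.sum_add_distrib]
  map_smul' r u := by
    simp only [Submodule.coe_smul, Pi.smul_apply, smul_eq_mul, RingHom.id_apply, Finset.mul_sum]
    refine Finset.sum_congr rfl fun c _ => Finset.sum_congr rfl fun i _ => ?_
    ring

theorem funcH_inj {ι : R × Fin P ↪ V} {U : Submodule F2 (V → F2)}
    (hι : ∀ y : R × Fin P → F2, ∃ u ∈ U, ∀ p, u (ι p) = y p) : Function.Injective (funcH ι U) := by
  intro v v' h
  funext c i
  obtain ⟨u, hu, hu'⟩ := hι (Pi.single (c, i) 1)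
  have h1 : funcH ι U v ⟨u, hu⟩ = funcH ι U v' ⟨u, hu⟩ := by rw [h]
  have h2 : ∀ v : R → Fin P → F2, funcH ι U v ⟨u, hu⟩ = v c i := by
    intro v
    change ∑ c, ∑ i, v c i * u (ι (c, i)) = v c i
    simp only [hu']
    rw [Finset.sum_eq_single c, Finset.sum_eq_single i]
    · simp
    · intro i' _ hi'
      rw [Pi.single_eq_of_ne (by simp [hi']), mul_zero]
    · intro h; exact absurd (Finset.mem_univ _) h
    · intro c' _ hc'
      refine Finset.sum_eq_zero fun i' _ => ?_
      rw [Pi.single_eq_of_ne (by simp [hc']), mul_zero]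
    · intro h; exact absurd (Finset.mem_univ _) h
  rwa [h2, h2] at h1

theorem funcH_bd (ι : R × Fin P ↪ V) (U : Submodule F2 (V → F2)) (f : R → Fin m → Fin P)
    (q : Dual F2 (Fin m → R → F2)) (u : U) :
    funcH ι U (bdH f (coef q)) u = q (lhsH ι f u.1) := by
  rw [coef_apply]
  change ∑ c, ∑ i, bdH f (coef q) c i * u.1 (ι (c, i)) = ∑ j, ∑ c, coef q j c * u.1 (ι (c, f c j))
  rw [Finset.sum_comm (s := (Finset.univ : Finset (Fin m)))]
  refine Finset.sum_congr rfl fun c _ => ?_
  simp only [bdH, Finset.sum_apply, Finset.sum_mul]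
  rw [Finset.sum_comm, suppc, Finset.sum_filter]
  refine Finset.sum_congr rfl fun j _ => ?_
  rcases F2.cases (coef q j c) with h0 | h0
  · rw [h0, if_neg (fun h => h rfl), zero_mul]
  · rw [h0, if_pos one_ne_zero, one_mul, Finset.sum_eq_single (f c j)]
    · rw [unit_self, one_mul]
    · intro i _ hi
      rw [unit_ne hi, zero_mul]
    · intro h; exact absurd (Finset.mem_univ _) h

universe u w

/-- For some sparse system the circuit does not see the right-hand side; the rows are distinct if
there are at least three kinds of variables. -/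
theorem foolingH' [Finite V] (v0 : V) (ι : R × Fin P ↪ V) (U : Submodule F2 (V → F2))
    (hU : ∀ u ∈ U, u v0 = 0) (hι : ∀ y : R × Fin P → F2, ∃ u ∈ U, ∀ p, u (ι p) = y p) {D : Type u}
    (C : Circuit.{0, u, w} (Con Γ V) D) [Finite C.Gate] (inp : Bool → D)
    (hinv : ∀ u ∈ U, C.Invariant (flipC u)) {κ : ℕ} (hκ : 0 < κ) (hP0 : 0 < P)
    (hP : 256 * 4 ^ Fintype.card R * κ * m ^ 2 ≤ P ^ 3) (hC : 2 * Nat.card C.Gate < 4 ^ κ)
    (φ : Set (Con Γ (Option R))) (L : Submodule F2 (Option R → F2))
    (hL : ∀ h : R → F2, h ≠ 0 → (∀ y, ext y ∈ L → ∑ c, h c * y c = 0) →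
      3 ≤ (Finset.univ.filter fun c => h c ≠ 0).card) :
    ∃ f : R → Fin m → Fin P, (3 ≤ Fintype.card R → ∀ j j', (∀ c, f c j = f c j') → j = j') ∧
      ∀ w w' : Fin m → R → F2,
      C.eval (inp ∘ frm v0 ι f φ L w) C.out = C.eval (inp ∘ frm v0 ι f φ L w') C.out := by
  classical
  have : Finite (V → F2) := Pi.finite
  have : Finite U := Subtype.finite
  let ρ : U → Equiv.Perm (Con Γ V) := fun u => flipC u.1
  have hρ : ∀ u v : U, ρ (u + v) = ρ u * ρ v := fun u v => flipC_add u.1 v.1
  have hfin : (C.special ρ hρ).Finite := by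
    have : Finite (Dual F2 U) := Finite.of_injective (fun q : Dual F2 U => (q : U → F2))
      DFunLike.coe_injective
    exact Set.toFinite _
  let Bad : Finset (R → Fin P → F2) := Finset.univ.filter fun v => funcH ι U v ∈ C.special ρ hρ
  have hBad : Bad.card ≤ Nat.card C.Gate := by
    refine le_trans ?_ (C.special_card hρ fun u => hinv u.1 u.2)
    rw [← Set.ncard_coe_finset]
    refine Set.ncard_le_ncard_of_injOn (funcH ι U) ?_ ((funcH_inj hι).injOn) hfin
    intro v hv
    simpa [Bad] using hv
  obtain ⟨f, hf⟩ := exists_entriesH (m := m) hκ hP0 hP Bad (by omega)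
  refine ⟨f, fun hR3 j j' hjj => ?_, ?_⟩
  · by_contra hne
    let h : Fin m → R → F2 := fun i => if i = j ∨ i = j' then 1 else 0
    have hh : ∀ i, h i ≠ 0 → i = j ∨ i = j' := by
      intro i hi
      by_contra hcon
      exact hi (if_neg hcon)
    have h1 : supp h = {j, j'} := by
      ext i
      rw [Finset.mem_insert, Finset.mem_singleton, supp, Finset.mem_filter]
      refine ⟨fun hi => hh i hi.2, fun hi => ⟨Finset.mem_univ _, ?_⟩⟩
      have hRne : Nonempty R := Fintype.card_pos_iff.1 (by omega)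
      obtain ⟨c⟩ := hRne
      intro h0
      have h2 : h i c = 1 := by
        change (if i = j ∨ i = j' then (1 : R → F2) else 0) c = 1
        rw [if_pos hi]
        rfl
      rw [h0] at h2
      exact zero_ne_one h2
    have h2 : (supp h).card = 2 := by rw [h1, Finset.card_pair hne]
    refine (hf h fun i hi => ?_).2 (Finset.card_pos.1 (by omega)) (by omega) ?_
    · have h3 : h i = 1 := if_pos (hh i hi)
      rw [h3]
      simpa using hR3
    · funext c
      have h3 : suppc h c = {j, j'} := by
        ext i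
        rw [Finset.mem_insert, Finset.mem_singleton, suppc, Finset.mem_filter]
        refine ⟨fun hi => hh i fun h0 => hi.2 (by rw [h0]; rfl), fun hi => ⟨Finset.mem_univ _, ?_⟩⟩
        change (if i = j ∨ i = j' then (1 : R → F2) else 0) c ≠ 0
        rw [if_pos hi]
        exact one_ne_zero
      rw [bdH, h3, Finset.sum_pair hne, hjj c, add_self_mod]
      rfl
  let A : U →ₗ[F2] (Fin m → R → F2) := (lhsH ι f).comp U.subtype
  have hvis : ∀ (g : C.Gate) (q : Dual F2 (Fin m → R → F2)),
      (∀ v ∈ C.stab ρ hρ g, q (A v) = 0) → funcH ι U (bdH f (coef q)) ∈ C.special ρ hρ := by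
    intro g q hq
    refine ⟨g, fun v hv => ?_⟩
    rw [funcH_bd]
    exact hq v hv
  let small : Set (Dual F2 (Fin m → R → F2)) :=
    {q | (∀ w : Fin m → R → F2, (∀ j, ext (w j) ∈ L) → q w = 0) ∧ (supp (coef q)).card < 2 * κ}
  have hsmall : ∀ q ∈ small, ∀ j, coef q j ≠ 0 →
      3 ≤ (Finset.univ.filter fun c => coef q j c ≠ 0).card := by
    intro q hq j hj
    refine hL (coef q j) hj fun y hy => ?_
    rw [← coef_single]
    refine hq.1 _ fun j' => ?_
    by_cases h : j' = j
    · subst h
      rwa [Pi.single_eq_same]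
    · rw [Pi.single_eq_of_ne h, ext_zero]
      exact L.zero_mem
  have key := C.core (W := Fin m → R → F2) hρ A (fun w => inp ∘ frm v0 ι f φ L w) ?_ small ?_ ?_ ?_
    C.out
  · intro w w'
    have := key (w + w') ?_ w'
    · rw [show w' + (w + w') = w by
        rw [add_comm w w', ← add_assoc, add_self_mod, zero_add]] at this
      exact this
    · rintro q ⟨hq1, hq2⟩
      have h0 : bdH f (coef q) = 0 := by
        refine funcH_inj hι (LinearMap.ext fun u => ?_)
        rw [funcH_bd]
        obtain ⟨π, hπ⟩ := hinv u.1 u.2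
        have h1 := hq2 u ⟨π, hπ, hπ.out⟩
        have h2 : funcH ι U 0 u = 0 := by
          change ∑ c, ∑ i, (0 : R → Fin P → F2) c i * u.1 (ι (c, i)) = 0
          simp
        rw [h2]
        exact h1
      have h1 : supp (coef q) = ∅ := by
        by_contra hne
        exact (hf (coef q) (hsmall q hq1)).2 (Finset.nonempty_iff_ne_empty.2 hne)
          (le_of_lt hq1.2) h0
      rw [coef_apply]
      refine Finset.sum_eq_zero fun j _ => ?_
      have h2 : coef q j = 0 := by
        by_contra h2
        have : j ∈ supp (coef q) := Finset.mem_filter.2 ⟨Finset.mem_univ _, h2⟩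
        rw [h1] at this
        exact absurd this (Finset.notMem_empty j)
      rw [h2]
      simp
  · intro w v t
    exact congrArg inp (frm_flip (hU v.1 v.2) w t)
  · refine ⟨fun _ _ => rfl, ?_⟩
    change (supp (0 : Fin m → R → F2)).card < 2 * κ
    rw [supp_zero, Finset.card_empty]
    omega
  · intro t w d hd
    refine congrArg inp ?_
    have claim : ∀ (j : Fin m) (c : Con Γ (Option R)) (y : R → F2), t = cpy v0 ι f j c y →
        ∃ l : R → F2, ext l ∈ L ∧ ext (d j) ∘ c.2.1 = ext l ∘ c.2.1 := by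
      intro j c y ht
      let E : (R → F2) →ₗ[F2] (Fin (Γ.ar c.1) → F2) :=
        (LinearMap.funLeft F2 F2 c.2.1).comp (extL R)
      let N : Submodule F2 (Fin (Γ.ar c.1) → F2) := (L.comap (extL R)).map E
      suffices h : E (d j) ∈ N by
        obtain ⟨l, hl, hl'⟩ := h
        exact ⟨l, hl, hl'.symm⟩
      by_contra hcon
      have h1 : ∃ μ ∈ N.dualAnnihilator, μ (E (d j)) ≠ 0 := by
        by_contra h2
        push Not at h2
        refine hcon ?_
        rw [← Subspace.dualAnnihilator_dualCoannihilator_eq (W := N)]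
        rw [Submodule.mem_dualCoannihilator]
        exact h2
      obtain ⟨μ, hμ, hμ'⟩ := h1
      rw [Submodule.mem_dualAnnihilator] at hμ
      refine hμ' ?_
      let q : Dual F2 (Fin m → R → F2) := (μ.comp E).comp (LinearMap.proj j)
      have hq : ∀ w : Fin m → R → F2, q w = μ (E (w j)) := fun w => rfl
      have h3 : q d = 0 := by
        refine hd q ⟨fun w hw => ?_, ?_⟩ fun v hv => ?_
        · rw [hq]
          exact hμ _ ⟨w j, hw j, rfl⟩
        · have h4 : supp (coef q) ⊆ {j} := by
            intro j' hj'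
            rw [Finset.mem_singleton]
            by_contra hne
            refine (Finset.mem_filter.1 hj').2 ?_
            funext c'
            change q (Pi.single j' (Pi.single c' 1)) = 0
            rw [hq, Pi.single_eq_of_ne (Ne.symm hne), map_zero, map_zero]
          have h5 := Finset.card_le_card h4
          rw [Finset.card_singleton] at h5
          omega
        · have hv' : flipC v.1 t = t := hv
          rw [ht, flip_cpy (hU v.1 v.2), cpy, cpy] at hv'
          have h5 := congrArg Prod.snd (eq_of_heq (Sigma.mk.inj hv').2)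
          dsimp only at h5
          have h6 : ext (lhsH ι f v.1 j) ∘ c.2.1 = 0 := by
            rw [ext_add] at h5
            have h7 : c.2.2 + (ext y + ext (lhsH ι f v.1 j)) ∘ c.2.1 =
                (c.2.2 + ext y ∘ c.2.1) + ext (lhsH ι f v.1 j) ∘ c.2.1 := by
              funext k
              simp only [Pi.add_apply, Function.comp]
              ring
            rw [h7] at h5
            exact add_eq_left.1 h5
          rw [hq]
          change μ (ext (lhsH ι f v.1 j) ∘ c.2.1) = 0
          rw [h6, map_zero]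
      exact h3
    rw [Bool.eq_iff_iff, frm_true, frm_true]
    have claim2 : ∀ (y y' : R → F2) (c : Con Γ (Option R)), ext y ∘ c.2.1 = ext y' ∘ c.2.1 →
        ∀ j, cpy v0 ι f j c y = cpy v0 ι f j c y' := by
      intro y y' c h j
      rw [cpy, cpy, h]
    constructor
    · rintro ⟨j, c, hc, l, hl, ht⟩
      obtain ⟨l0, hl0, h0⟩ := claim j c _ ht
      refine ⟨j, c, hc, l + l0, by rw [ext_add]; exact L.add_mem hl hl0, ?_⟩
      rw [ht]
      refine claim2 _ _ c ?_ j
      funext k
      have h1 := congrFun h0 k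
      simp only [Pi.add_apply, Function.comp, ext_add] at h1 ⊢
      rw [h1]
      ring
    · rintro ⟨j, c, hc, l, hl, ht⟩
      obtain ⟨l0, hl0, h0⟩ := claim j c _ ht
      refine ⟨j, c, hc, l + l0, by rw [ext_add]; exact L.add_mem hl hl0, ?_⟩
      rw [ht]
      refine claim2 _ _ c ?_ j
      funext k
      have h1 := congrFun h0 k
      simp only [Pi.add_apply, Function.comp, ext_add] at h1 ⊢
      rw [h1]
      have h2 := add_self_mod (ext l0 (c.2.1 k))
      linear_combination -h2
  · rintro g q ⟨hq1, hq2⟩ q' ⟨hq1', hq2'⟩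
    have b : ∀ q ∈ small, (∀ v ∈ C.stab ρ hρ g, q (A v) = 0) → (supp (coef q)).card < κ := by
      intro q hq1 hq2
      by_contra hcon
      exact (hf (coef q) (hsmall q hq1)).1 (not_lt.1 hcon) hq1.2
        (Finset.mem_filter.2 ⟨Finset.mem_univ _, hvis g q hq2⟩)
    have b1 := b q hq1 hq2
    have b2 := b q' hq1' hq2'
    refine ⟨fun w hw => ?_, ?_⟩
    · rw [LinearMap.add_apply, hq1.1 w hw, hq1'.1 w hw, add_zero]
    · rw [coef_add]
      have := supp_add (coef q) (coef q')
      omega

/-- For some sparse system the circuit does not see the right-hand side. -/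
theorem foolingH [Finite V] (v0 : V) (ι : R × Fin P ↪ V) (U : Submodule F2 (V → F2))
    (hU : ∀ u ∈ U, u v0 = 0) (hι : ∀ y : R × Fin P → F2, ∃ u ∈ U, ∀ p, u (ι p) = y p) {D : Type u}
    (C : Circuit.{0, u, w} (Con Γ V) D) [Finite C.Gate] (inp : Bool → D)
    (hinv : ∀ u ∈ U, C.Invariant (flipC u)) {κ : ℕ} (hκ : 0 < κ) (hP0 : 0 < P)
    (hP : 256 * 4 ^ Fintype.card R * κ * m ^ 2 ≤ P ^ 3) (hC : 2 * Nat.card C.Gate < 4 ^ κ)
    (φ : Set (Con Γ (Option R))) (L : Submodule F2 (Option R → F2))
    (hL : ∀ h : R → F2, h ≠ 0 → (∀ y, ext y ∈ L → ∑ c, h c * y c = 0) →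
      3 ≤ (Finset.univ.filter fun c => h c ≠ 0).card) :
    ∃ f : R → Fin m → Fin P, ∀ w w' : Fin m → R → F2,
      C.eval (inp ∘ frm v0 ι f φ L w) C.out = C.eval (inp ∘ frm v0 ι f φ L w') C.out := by
  obtain ⟨f, -, hf⟩ := foolingH' v0 ι U hU hι C inp hinv hκ hP0 hP hC φ L hL
  exact ⟨f, hf⟩

end functional

end Pool.Agent.H5Dich
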