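import Pool.Agent.H5Dich.Inst
import Pool.Agent.H5Sym.InfoSet

/-!
# The lower bound for constraint languages which express parities
-/

set_option autoImplicit false

namespace Pool.Agent.H5Dich

open Module Pool.Agent.H5Sym

variable {Γ : Lang}

theorem sol_flip {V : Type} (φ : Set (Con Γ V)) (u x : V → F2) :
    x ∈ sol {t | flipC u t ∈ φ} ↔ x + u ∈ sol φ := by
  have e : ∀ t : Con Γ V, (fun k => x ((flipC u t).2.1 k) + (flipC u t).2.2 k) =
      fun k => (x + u) (t.2.1 k) + t.2.2 k := by
    intro t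
    funext k
    change x (t.2.1 k) + (t.2.2 k + u (t.2.1 k)) = x (t.2.1 k) + u (t.2.1 k) + t.2.2 k
    ring
  constructor
  · intro h t ht
    have h1 : flipC u t ∈ {t | flipC u t ∈ φ} := by
      change flipC u (flipC u t) ∈ φ
      rwa [flipC_flipC]
    have h2 := h _ h1
    have h3 : (fun k => x ((flipC u t).2.1 k) + (flipC u t).2.2 k) ∈ Γ.rel t.1 := h2
    rwa [e] at h3
  · intro h t ht
    have h2 := h _ ht
    have e2 : (fun k => (x + u) ((flipC u t).2.1 k) + (flipC u t).2.2 k) =
        fun k => x (t.2.1 k) + t.2.2 k := by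
      funext k
      change x (t.2.1 k) + u (t.2.1 k) + (t.2.2 k + u (t.2.1 k)) = x (t.2.1 k) + t.2.2 k
      have := add_self_mod (u (t.2.1 k))
      linear_combination this
    have h3 : (fun k => (x + u) ((flipC u t).2.1 k) + (flipC u t).2.2 k) ∈ Γ.rel t.1 := h2
    rwa [e2] at h3

/-- renaming the variables of a constraint -/
def ren {V W : Type} (g : V → W) (t : Con Γ V) : Con Γ W := ⟨t.1, (g ∘ t.2.1, t.2.2)⟩

theorem sol_ren {V W : Type} (g : V → W) (φ : Set (Con Γ V)) (z : W → F2) :
    z ∈ sol (ren g '' φ) ↔ z ∘ g ∈ sol φ := by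
  constructor
  · intro h t ht
    exact h _ ⟨t, ht, rfl⟩
  · rintro h _ ⟨t, ht, rfl⟩
    exact h t ht

/-- the data which are needed for the lower bound -/
structure Data (Γ : Lang) where
  R : Type
  fin : Fintype R
  dec : DecidableEq R
  φ : Set (Con Γ (Option R))
  L : Submodule F2 (Option R → F2)
  sol : sol φ = L
  y0 : R → F2
  hy0 : ext y0 ∉ L
  weight : ∀ h : R → F2, h ≠ 0 → (∀ y, ext y ∈ L → ∑ c, h c * y c = 0) →
    3 ≤ (Finset.univ.filter fun c => h c ≠ 0).card

theorem exists_data (hΓ : HasParity Γ) : Nonempty (Data Γ) := by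
  classical
  obtain ⟨k, φ, q, L, hφ, hL⟩ := hΓ
  -- the classes of the variables
  let S : Setoid (Option (Fin k)) :=
    { r := fun u v => ∀ t ∈ L, ext t u = ext t v
      iseqv :=
        { refl := fun u t _ => rfl
          symm := fun h t ht => (h t ht).symm
          trans := fun h h' t ht => (h t ht).trans (h' t ht) } }
  have hS : ∀ {u v : Option (Fin k)}, (Quotient.mk S u = Quotient.mk S v) ↔
      ∀ t ∈ L, ext t u = ext t v := Quotient.eq (r := S)
  let R : Type := {c : Quotient S // c ≠ Quotient.mk S none}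
  let fin : Fintype R := Fintype.ofFinite R
  let cls : Fin k → Option R := fun i =>
    if h : Quotient.mk S (some i) = Quotient.mk S none then none else some ⟨_, h⟩
  have hcls : ∀ (t : Fin k → F2), (∀ u v : Option (Fin k), (∀ t' ∈ L, ext t' u = ext t' v) →
      ext t u = ext t v) → ext (fun c : R => ext t (Quotient.out c.1)) ∘ cls = t := by
    intro t ht
    funext i
    change ext (fun c : R => ext t (Quotient.out c.1)) (cls i) = t i
    by_cases h : Quotient.mk S (some i) = Quotient.mk S none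
    · have h1 : cls i = none := dif_pos h
      rw [h1, ext_none]
      exact (ht (some i) none (hS.1 h)).symm
    · have h1 : cls i = some ⟨_, h⟩ := dif_neg h
      rw [h1, ext_some]
      exact ht _ (some i) (hS.1 (Quotient.out_eq (Quotient.mk S (some i))))
  have hcls2 : ∀ t ∈ L, ext (fun c : R => ext t (Quotient.out c.1)) ∘ cls = t := fun t ht =>
    hcls t fun u v h => h t ht
  rw [TwoVariable] at hL
  push Not at hL
  obtain ⟨t0, ht0, ht0'⟩ := hL
  let Lh : Submodule F2 (Option R → F2) := L.comap (LinearMap.funLeft F2 F2 cls)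
  have hLh : ∀ z, z ∈ Lh ↔ z ∘ cls ∈ L := fun z => Iff.rfl
  refine ⟨⟨R, fin, inferInstance, ren cls '' {t | flipC q t ∈ φ}, Lh, ?_,
    fun c => ext t0 (Quotient.out c.1), ?_, ?_⟩⟩
  · ext z
    rw [sol_ren, sol_flip, hφ, SetLike.mem_coe, hLh, add_assoc, add_self_mod, add_zero]
  · rw [hLh, hcls t0 ht0]
    exact ht0'
  · intro h hh hv
    have hv' : ∀ t ∈ L, ∑ c : R, h c * ext t (Quotient.out c.1) = 0 := fun t ht =>
      hv _ (by rw [hLh, hcls2 t ht]; exact ht)
    have hsum : ∀ t : Fin k → F2, ∑ c : R, h c * ext t (Quotient.out c.1) =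
        ∑ c ∈ Finset.univ.filter fun c => h c ≠ 0, ext t (Quotient.out c.1) := by
      intro t
      rw [Finset.sum_filter]
      refine Finset.sum_congr rfl fun c _ => ?_
      rcases F2.cases (h c) with h0 | h0
      · rw [h0, if_neg (fun h => h rfl), zero_mul]
      · rw [h0, if_pos one_ne_zero, one_mul]
    by_contra hcon
    have h3 : (Finset.univ.filter fun c => h c ≠ 0).card = 0 ∨
        (Finset.univ.filter fun c => h c ≠ 0).card = 1 ∨
        (Finset.univ.filter fun c => h c ≠ 0).card = 2 := by omega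
    rcases h3 with h3 | h3 | h3
    · rw [Finset.card_eq_zero] at h3
      refine hh (funext fun c => ?_)
      by_contra hc
      have : c ∈ Finset.univ.filter fun c => h c ≠ 0 := Finset.mem_filter.2 ⟨Finset.mem_univ _, hc⟩
      rw [h3] at this
      exact absurd this (Finset.notMem_empty c)
    · obtain ⟨c, hc⟩ := Finset.card_eq_one.1 h3
      refine c.2 ?_
      rw [← Quotient.out_eq c.1]
      refine hS.2 fun t ht => ?_
      have h4 := hv' t ht
      rw [hsum, hc, Finset.sum_singleton] at h4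
      exact h4
    · obtain ⟨c, c', hne, hc⟩ := Finset.card_eq_two.1 h3
      refine hne (Subtype.ext ?_)
      rw [← Quotient.out_eq c.1, ← Quotient.out_eq c'.1]
      refine hS.2 fun t ht => ?_
      have h4 := hv' t ht
      rw [hsum, hc, Finset.sum_pair hne] at h4
      have h5 : ∀ x y : F2, x + y = 0 → x = y := by decide
      exact h5 _ _ h4

universe u w

theorem lower (hΓ : HasParity Γ) : ∃ c : ℕ, 0 < c ∧ ∀ (n : ℕ) (U : Submodule F2 (Fin n → F2))
    (D : Type u) (C : Circuit.{0, u, w} (Con Γ (Fin n)) D) [Finite C.Gate] (inp : Bool → D)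
    (acc : D → Prop), (∀ u ∈ U, C.Invariant (flipC u)) →
    (∀ φ : Con Γ (Fin n) → Bool, 2 ^ (n - finrank F2 U) ≤ Nat.card (sol (ones φ)) →
      acc (C.eval (inp ∘ φ) C.out)) →
    (∀ φ : Con Γ (Fin n) → Bool, sol (ones φ) = ∅ → ¬ acc (C.eval (inp ∘ φ) C.out)) →
    2 ^ (finrank F2 U / c) ≤ Nat.card C.Gate := by
  classical
  obtain ⟨R, fin, dec, φ, L, hsol, y0, hy0, hwt⟩ := exists_data hΓ
  set ρ := Fintype.card R with hρ
  have hρ0 : 0 < ρ := by
    rw [hρ, Fintype.card_pos_iff]
    by_contra hemp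
    rw [not_nonempty_iff] at hemp
    refine hy0 ?_
    have : y0 = 0 := funext fun c => hemp.elim c
    rw [this, ext_zero]
    exact L.zero_mem
  set N := 256 * 4 ^ ρ * (ρ + 2) ^ 2 with hN
  refine ⟨ρ * N + 1, Nat.succ_pos _, ?_⟩
  intro n U D C _ inp acc hinv hacc hrej
  have hs : 0 < Nat.card C.Gate := Nat.card_pos_iff.2 ⟨⟨C.out⟩, inferInstance⟩
  obtain ⟨ι₀, hι₀⟩ := exists_info U
  generalize finrank F2 U = d at ι₀ hι₀ hacc ⊢
  set κ := d / (ρ * N + 1) with hκdef
  rcases Nat.eq_zero_or_pos κ with h0 | hκ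
  · rw [h0, pow_zero]; exact hs
  have hcκ : (ρ * N + 1) * κ ≤ d := Nat.mul_div_le d _
  obtain ⟨d', rfl⟩ : ∃ d', d = d' + 1 := by
    refine ⟨d - 1, ?_⟩
    have : 1 ≤ (ρ * N + 1) * κ := Nat.mul_pos (Nat.succ_pos _) hκ
    omega
  have hNP : N * κ ≤ d' / ρ := by
    rw [Nat.le_div_iff_mul_le hρ0]
    have : (ρ * N + 1) * κ = N * κ * ρ + κ := by ring
    omega
  set P := d' / ρ with hPdef
  have hN1 : 0 < N := by rw [hN]; positivity
  have hP0 : 0 < P := lt_of_lt_of_le (Nat.mul_pos hN1 hκ) hNP
  have hP : 256 * 4 ^ ρ * κ * (ρ * P + 2) ^ 2 ≤ P ^ 3 := by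
    calc 256 * 4 ^ ρ * κ * (ρ * P + 2) ^ 2 ≤ 256 * 4 ^ ρ * κ * ((ρ + 2) * P) ^ 2 := by
          gcongr
          nlinarith
      _ = N * κ * P ^ 2 := by rw [hN]; ring
      _ ≤ P * P ^ 2 := Nat.mul_le_mul_right _ hNP
      _ = P ^ 3 := by ring
  by_contra hcon
  push Not at hcon
  have hC : 2 * Nat.card C.Gate < 4 ^ κ := by
    have h3 : 2 ^ 1 ≤ 2 ^ κ := Nat.pow_le_pow_right (by norm_num) hκ
    calc 2 * Nat.card C.Gate < 2 * 2 ^ κ := by omega
      _ ≤ 2 ^ κ * 2 ^ κ := by
          rw [pow_one] at h3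
          exact Nat.mul_le_mul_right _ h3
      _ = 4 ^ κ := by rw [← mul_pow]; rfl
  -- the blocks
  obtain ⟨ι₁⟩ : Nonempty (R × Fin P ↪ Fin d') := by
    refine Function.Embedding.nonempty_of_card_le ?_
    rw [Fintype.card_prod, Fintype.card_fin, Fintype.card_fin, ← hρ]
    exact Nat.mul_div_le d' ρ
  let ι₂ : R × Fin P ↪ Fin (d' + 1) := ι₁.trans (Fin.succEmb d')
  let v0 : Fin n := ι₀ 0
  let U' : Submodule F2 (Fin n → F2) := U ⊓ LinearMap.ker (LinearMap.proj (R := F2)
    (φ := fun _ : Fin n => F2) v0)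
  have hU' : ∀ u, u ∈ U' ↔ u ∈ U ∧ u v0 = 0 := fun u => Iff.rfl
  have hι : ∀ y : R × Fin P → F2, ∃ u ∈ U', ∀ p, u ((ι₂.trans ι₀) p) = y p := by
    intro y
    obtain ⟨u, hu, hu'⟩ := hι₀ (Function.extend ι₂ y 0)
    refine ⟨u, (hU' u).2 ⟨hu, ?_⟩, fun p => ?_⟩
    · change u (ι₀ 0) = 0
      rw [hu', Function.extend_apply']
      · rfl
      · rintro ⟨p, hp⟩
        exact Fin.succ_ne_zero _ hp
    · rw [Function.Embedding.trans_apply, hu', ι₂.injective.extend_apply]
  obtain ⟨f, hf⟩ := foolingH (m := ρ * P + 2) v0 (ι₂.trans ι₀) U' (fun u hu => ((hU' u).1 hu).2) hι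
    C inp (fun u hu => hinv u ((hU' u).1 hu).1) hκ hP0 hP hC φ L hwt
  have hmany : 2 ^ (n - (d' + 1)) ≤ Nat.card (sol (ones (frm v0 (ι₂.trans ι₀) f φ L 0))) := by
    -- the assignments which vanish on the variables that occur
    let used : Finset (Fin n) := insert v0 (Finset.univ.map (ι₂.trans ι₀))
    have hused : used.card ≤ d' + 1 := by
      refine (Finset.card_insert_le _ _).trans ?_
      rw [Finset.card_map, Finset.card_univ, Fintype.card_prod, Fintype.card_fin, ← hρ]
      have h2 : ρ * P ≤ d' := Nat.mul_div_le d' ρ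
      exact Nat.succ_le_succ h2
    have h1 : Nat.card ({v // v ∉ used} → F2) = 2 ^ (n - used.card) := by
      rw [Nat.card_eq_fintype_card, Fintype.card_fun, ZMod.card, Fintype.card_subtype_compl,
        Fintype.card_fin, Fintype.card_coe]
    have : Finite (sol (ones (frm v0 (ι₂.trans ι₀) f φ L 0))) := Subtype.finite
    refine le_trans (Nat.pow_le_pow_right (by norm_num) (by omega : n - (d' + 1) ≤ n - used.card)) ?_
    rw [← h1]
    refine Nat.card_le_card_of_injective (fun x => ⟨fun v => if h : v ∉ used then x ⟨v, h⟩ else 0,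
      ?_⟩) ?_
    · rw [sol_frm _ _ _ _ _ hsol]
      intro j
      have h2 : (fun v => if h : v ∉ used then x ⟨v, h⟩ else 0) ∘ sc v0 (ι₂.trans ι₀) f j +
          ext ((0 : Fin (ρ * P + 2) → R → F2) j) = 0 := by
        rw [Pi.zero_apply, ext_zero, add_zero]
        funext o
        cases o with
        | none =>
          have h3 : v0 ∈ used := Finset.mem_insert_self _ _
          change (if h : v0 ∉ used then x ⟨v0, h⟩ else 0) = 0
          rw [dif_neg (not_not.2 h3)]
        | some c =>
          have h3 : (ι₂.trans ι₀) (c, f c j) ∈ used :=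
            Finset.mem_insert_of_mem (Finset.mem_map.2 ⟨_, Finset.mem_univ _, rfl⟩)
          change (if h : (ι₂.trans ι₀) (c, f c j) ∉ used then x ⟨_, h⟩ else 0) = 0
          rw [dif_neg (not_not.2 h3)]
      rw [h2]
      exact L.zero_mem
    · intro x x' hxx
      funext v
      have h2 := congrFun (congrArg Subtype.val hxx) v.1
      dsimp only at h2
      rw [dif_pos v.2, dif_pos v.2] at h2
      exact h2
  have hne : ∀ w, (sol (ones (frm v0 (ι₂.trans ι₀) f φ L w))).Nonempty := by
    intro w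
    by_contra hcon2
    rw [Set.not_nonempty_iff_eq_empty] at hcon2
    refine hrej _ hcon2 ?_
    rw [hf w 0]
    exact hacc _ hmany
  choose x hx using fun b : Fin (ρ * P + 2) → Bool => hne fun j => if b j then y0 else 0
  have hinj : Function.Injective fun b : Fin (ρ * P + 2) → Bool =>
      ((fun p => x b ((ι₂.trans ι₀) p), x b v0) : (R × Fin P → F2) × F2) := by
    intro b b' hbb
    have e1 := congrArg Prod.fst hbb
    have e2 := congrArg Prod.snd hbb
    dsimp only at e1 e2
    have key : ∀ j, ext ((if b j then y0 else 0) + (if b' j then y0 else 0) : R → F2) ∈ L := by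
      intro j
      have h1 := (sol_frm _ _ _ _ _ hsol _ _).1 (hx b) j
      have h2 := (sol_frm _ _ _ _ _ hsol _ _).1 (hx b') j
      have h3 : x b ∘ sc v0 (ι₂.trans ι₀) f j = x b' ∘ sc v0 (ι₂.trans ι₀) f j := by
        funext o
        cases o with
        | none => exact e2
        | some c => exact congrFun e1 (c, f c j)
      have h4 := L.add_mem h1 h2
      rw [h3] at h4
      have h5 : ∀ a b c : Option R → F2, a + b + (a + c) = b + c := by
        intro a b c
        have := add_self_mod a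
        rw [show a + b + (a + c) = (a + a) + (b + c) by ring, this, zero_add]
      rw [h5, ← ext_add] at h4
      exact h4
    funext j
    have h1 := key j
    cases hb : b j <;> cases hb' : b' j <;> rw [hb, hb'] at h1
    · simp only [Bool.false_eq_true, if_false, if_true, zero_add] at h1
      exact absurd h1 hy0
    · simp only [Bool.false_eq_true, if_false, if_true, add_zero] at h1
      exact absurd h1 hy0
  have h1 := Fintype.card_le_of_injective _ hinj
  rw [Fintype.card_fun, Fintype.card_prod, Fintype.card_fun, Fintype.card_prod, Fintype.card_bool,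
    Fintype.card_fin, Fintype.card_fin, ZMod.card, ← hρ, ← pow_succ,
    Nat.pow_le_pow_iff_right (by norm_num)] at h1
  omega

end Pool.Agent.H5Dich
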