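import Pool.Agent.H5Dich.ResistDefs
import Pool.Agent.H5Dich.Lower
import Pool.Agent.H5Sym.Symmetrize

/-!
# Approximation resistance for flip-invariant circuits
-/

set_option autoImplicit false

namespace Pool.Agent.H5Dich

open Module Pool.Agent.H5Sym

section moment

variable {k m : ℕ}

/-- convexity of the exponential function -/
theorem exp_convex {h x : ℝ} (h0 : 0 ≤ x) (h1 : x ≤ 1) : Real.exp (h * x) ≤ 1 + x * (Real.exp h - 1) := by
  have hc := convexOn_exp.2 (Set.mem_univ (0 : ℝ)) (Set.mem_univ h) (sub_nonneg.2 h1) h0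
    (by ring : (1 - x) + x = 1)
  simp only [smul_eq_mul, mul_zero, zero_add, Real.exp_zero, mul_one] at hc
  rw [mul_comm h x]
  linarith

theorem exp_sub_one_le {h : ℝ} (h0 : 0 ≤ h) (h1 : h ≤ 1) : Real.exp h - 1 ≤ h + h ^ 2 := by
  have h2 := Real.abs_exp_sub_one_sub_id_le (x := h) (by rwa [abs_of_nonneg h0])
  rw [abs_le] at h2
  linarith [h2.2]

/-- random translates of a function with values in `[0, 1]` -/
theorem moment (g : (Fin k → F2) → ℝ) (hg0 : ∀ z, 0 ≤ g z) (hg1 : ∀ z, g z ≤ 1) {δ ε : ℝ}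
    (hδ0 : 0 ≤ δ) (hδ1 : δ ≤ 1) (hε0 : 0 < ε) (hε1 : ε ≤ 1)
    (hδ : ∑ z, g z = δ * 2 ^ k) (y : Fin m → Fin k → F2) :
    ((Finset.univ.filter fun w : Fin m → Fin k → F2 => (δ + ε) * m ≤ ∑ j, g (y j + w j)).card : ℝ) ≤
      (2 ^ k) ^ m * Real.exp (-(ε ^ 2 / 4 * m)) := by
  set h : ℝ := ε / 2 with hh
  have hh0 : 0 ≤ h := by positivity
  have hh1 : h ≤ 1 := by linarith
  have h1 : ∑ w : Fin m → Fin k → F2, Real.exp (h * ∑ j, g (y j + w j)) =
      (∑ z, Real.exp (h * g z)) ^ m := by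
    have e1 : ∀ w : Fin m → Fin k → F2, Real.exp (h * ∑ j, g (y j + w j)) =
        ∏ j, Real.exp (h * g (y j + w j)) := by
      intro w
      rw [Finset.mul_sum, Real.exp_sum]
    simp only [e1]
    have e2 := Finset.prod_univ_sum (fun _ : Fin m => (Finset.univ : Finset (Fin k → F2)))
      (fun j z => Real.exp (h * g (y j + z)))
    rw [Fintype.piFinset_univ] at e2
    rw [← e2]
    have e3 : ∀ j : Fin m, ∑ z, Real.exp (h * g (y j + z)) = ∑ z, Real.exp (h * g z) := fun j =>
      Fintype.sum_equiv (Equiv.addLeft (y j)) _ _ fun z => rfl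
    rw [Finset.prod_congr rfl fun j _ => e3 j, Finset.prod_const, Finset.card_univ,
      Fintype.card_fin]
  have h2 : ∑ z, Real.exp (h * g z) ≤ 2 ^ k * Real.exp (δ * h + h ^ 2) := by
    calc ∑ z, Real.exp (h * g z) ≤ ∑ z, (1 + g z * (Real.exp h - 1)) :=
          Finset.sum_le_sum fun z _ => exp_convex (hg0 z) (hg1 z)
      _ = 2 ^ k * (1 + δ * (Real.exp h - 1)) := by
          rw [Finset.sum_add_distrib, ← Finset.sum_mul, hδ, Finset.sum_const, Finset.card_univ,
            Fintype.card_fun, ZMod.card, Fintype.card_fin, nsmul_eq_mul]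
          push_cast
          ring
      _ ≤ 2 ^ k * (1 + (δ * h + h ^ 2)) := by
          gcongr
          have e1 := exp_sub_one_le hh0 hh1
          have e2 : δ * (Real.exp h - 1) ≤ δ * (h + h ^ 2) := mul_le_mul_of_nonneg_left e1 hδ0
          have e3 : δ * h ^ 2 ≤ 1 * h ^ 2 := mul_le_mul_of_nonneg_right hδ1 (by positivity)
          nlinarith
      _ ≤ _ := by
          gcongr
          have := Real.add_one_le_exp (δ * h + h ^ 2)
          linarith
  have h3 : ((Finset.univ.filter fun w : Fin m → Fin k → F2 =>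
      (δ + ε) * m ≤ ∑ j, g (y j + w j)).card : ℝ) * Real.exp (h * ((δ + ε) * m)) ≤
      (2 ^ k * Real.exp (δ * h + h ^ 2)) ^ m := by
    refine le_trans ?_ (pow_le_pow_left₀ (Finset.sum_nonneg fun z _ => (Real.exp_pos _).le) h2 m)
    rw [← h1, ← nsmul_eq_mul, ← Finset.sum_const]
    refine (Finset.sum_le_sum (f := fun _ => Real.exp (h * ((δ + ε) * m)))
      (g := fun w : Fin m → Fin k → F2 => Real.exp (h * ∑ j, g (y j + w j))) fun w hw => ?_).trans
        (Finset.sum_le_sum_of_subset_of_nonneg (Finset.filter_subset _ _) fun _ _ _ =>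
          (Real.exp_pos _).le)
    rw [Finset.mem_filter] at hw
    exact Real.exp_le_exp.2 (mul_le_mul_of_nonneg_left hw.2 hh0)
  have h4 : (2 ^ k * Real.exp (δ * h + h ^ 2)) ^ m =
      (2 ^ k) ^ m * Real.exp (-(ε ^ 2 / 4 * m)) * Real.exp (h * ((δ + ε) * m)) := by
    rw [mul_pow, ← Real.exp_nat_mul, mul_assoc, ← Real.exp_add]
    congr 2
    rw [hh]
    ring
  rw [h4] at h3
  exact le_of_mul_le_mul_right h3 (Real.exp_pos _)

/-- for some choice of the translates all members of a small family have small sums -/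
theorem exists_w (g : (Fin k → F2) → ℝ) (hg0 : ∀ z, 0 ≤ g z) (hg1 : ∀ z, g z ≤ 1) {δ ε : ℝ}
    (hδ0 : 0 ≤ δ) (hδ1 : δ ≤ 1) (hε0 : 0 < ε) (hε1 : ε ≤ 1)
    (hδ : ∑ z, g z = δ * 2 ^ k) {ι : Type} [Fintype ι] (y : ι → Fin m → Fin k → F2)
    (hι : (Fintype.card ι : ℝ) < Real.exp (ε ^ 2 / 4 * m)) :
    ∃ w : Fin m → Fin k → F2, ∀ i, ∑ j, g (y i j + w j) < (δ + ε) * m := by
  classical
  by_contra hcon
  push Not at hcon
  have h1 : (Finset.univ : Finset (Fin m → Fin k → F2)) ⊆ Finset.univ.biUnion fun i =>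
      Finset.univ.filter fun w : Fin m → Fin k → F2 => (δ + ε) * m ≤ ∑ j, g (y i j + w j) := by
    intro w _
    obtain ⟨i, hi⟩ := hcon w
    simp only [Finset.mem_biUnion, Finset.mem_univ, Finset.mem_filter, true_and]
    exact ⟨i, hi⟩
  have h2 : ((Finset.univ : Finset (Fin m → Fin k → F2)).card : ℝ) ≤ ∑ i : ι,
      ((Finset.univ.filter fun w : Fin m → Fin k → F2 =>
        (δ + ε) * m ≤ ∑ j, g (y i j + w j)).card : ℝ) := by
    exact_mod_cast (Finset.card_le_card h1).trans Finset.card_biUnion_le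
  have h3 : ((Finset.univ : Finset (Fin m → Fin k → F2)).card : ℝ) = (2 ^ k) ^ m := by
    rw [Finset.card_univ, Fintype.card_fun, Fintype.card_fun, Fintype.card_fin, Fintype.card_fin,
      ZMod.card]
    push_cast
    rfl
  have h4 := h2.trans (Finset.sum_le_sum fun i _ =>
    moment g hg0 hg1 hδ0 hδ1 hε0 hε1 hδ (y i))
  rw [h3, Finset.sum_const, Finset.card_univ, nsmul_eq_mul, Real.exp_neg] at h4
  have h5 : (0 : ℝ) < (2 ^ k) ^ m := by positivity
  have h6 : (0 : ℝ) < Real.exp (ε ^ 2 / 4 * m) := Real.exp_pos _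
  have h7 : (Fintype.card ι : ℝ) * ((2 ^ k) ^ m * (Real.exp (ε ^ 2 / 4 * m))⁻¹) =
      (2 ^ k) ^ m * ((Fintype.card ι : ℝ) / Real.exp (ε ^ 2 / 4 * m)) := by
    field_simp
  rw [h7] at h4
  have h8 : (Fintype.card ι : ℝ) / Real.exp (ε ^ 2 / 4 * m) < 1 := (div_lt_one h6).2 hι
  nlinarith

end moment

section instances

variable {k m P : ℕ} {V : Type}

/-- the constraint of the row `j` with the sign vector `a` -/
def rowC (R : Set (Fin k → F2)) (ι : Fin k × Fin P ↪ V) (f : Fin k → Fin m → Fin P) (j : Fin m)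
    (a : Fin k → F2) : Con (pred R) V := ⟨(), (fun c => ι (c, f c j), a)⟩

open Classical in
theorem frm_pred (R : Set (Fin k → F2)) (v0 : V) (ι : Fin k × Fin P ↪ V)
    (f : Fin k → Fin m → Fin P) (q : Fin k → F2) (M : Submodule F2 (Fin k → F2))
    (w : Fin m → Fin k → F2) (t : Con (pred R) V) :
    frm (Γ := pred R) v0 ι f {⟨(), (some, q)⟩} (M.comap (LinearMap.funLeft F2 F2 some)) w t = true ↔
      ∃ j, ∃ l ∈ M, t = rowC R ι f j (q + (w j + l)) := by
  rw [frm_true]
  constructor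
  · rintro ⟨j, c, rfl, l, hl, ht⟩
    exact ⟨j, l, hl, ht⟩
  · rintro ⟨j, l, hl, ht⟩
    exact ⟨j, _, rfl, l, hl, ht⟩

theorem rowC_inj {R : Set (Fin k → F2)} {ι : Fin k × Fin P ↪ V} {f : Fin k → Fin m → Fin P}
    (hf : ∀ j j', (∀ c, f c j = f c j') → j = j') {j j' : Fin m} {a a' : Fin k → F2}
    (h : rowC R ι f j a = rowC R ι f j' a') : j = j' ∧ a = a' := by
  have h1 := eq_of_heq (Sigma.mk.inj h).2
  have h2 := congrArg Prod.fst h1
  have h3 := congrArg Prod.snd h1
  refine ⟨hf j j' fun c => ?_, h3⟩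
  have h4 := ι.injective (congrFun h2 c)
  exact congrArg Prod.snd h4

/-- the number of constraints with a property -/
theorem card_rows (R : Set (Fin k → F2)) (v0 : V) (ι : Fin k × Fin P ↪ V)
    (f : Fin k → Fin m → Fin P) (hf : ∀ j j', (∀ c, f c j = f c j') → j = j')
    (q : Fin k → F2) (M : Submodule F2 (Fin k → F2)) (w : Fin m → Fin k → F2)
    (Q : Con (pred R) V → Prop) :
    Nat.card {t // frm (Γ := pred R) v0 ι f {⟨(), (some, q)⟩}
      (M.comap (LinearMap.funLeft F2 F2 some)) w t = true ∧ Q t} =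
      Nat.card {p : Fin m × M // Q (rowC R ι f p.1 (q + (w p.1 + p.2.1)))} := by
  classical
  refine (Nat.card_congr (Equiv.ofBijective (fun p => ⟨rowC R ι f p.1.1 (q + (w p.1.1 + p.1.2.1)),
    (frm_pred R v0 ι f q M w _).2 ⟨p.1.1, p.1.2.1, p.1.2.2, rfl⟩, p.2⟩) ⟨?_, ?_⟩)).symm
  · rintro ⟨⟨j, l⟩, hp⟩ ⟨⟨j', l'⟩, hp'⟩ h
    obtain ⟨h1, h2⟩ := rowC_inj hf (congrArg Subtype.val h)
    dsimp only at h1 h2
    subst h1
    have h3 : l = l' := Subtype.ext (add_left_cancel (add_left_cancel h2))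
    subst h3
    rfl
  · rintro ⟨t, ht, hQ⟩
    obtain ⟨j, l, hl, rfl⟩ := (frm_pred R v0 ι f q M w t).1 ht
    exact ⟨⟨(j, ⟨l, hl⟩), hQ⟩, rfl⟩

open Classical in
/-- the density of `R` in the coset of `M` which contains `z` -/
noncomputable def dens (R : Set (Fin k → F2)) (M : Submodule F2 (Fin k → F2)) (z : Fin k → F2) : ℝ :=
  (Nat.card {l : M // z + l.1 ∈ R} : ℝ) / Nat.card M

theorem dens_sum (R : Set (Fin k → F2)) (M : Submodule F2 (Fin k → F2)) :
    ∑ z, dens R M z = R.ncard := by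
  classical
  have : Fintype M := Fintype.ofFinite M
  have hM : (0 : ℝ) < Nat.card M := by
    have : 0 < Nat.card M := Nat.card_pos
    exact_mod_cast this
  have h1 : ∀ z, dens R M z = (∑ l : M, if z + l.1 ∈ R then (1 : ℝ) else 0) / Nat.card M := by
    intro z
    rw [dens]
    congr 1
    rw [Nat.card_eq_fintype_card, Fintype.card_subtype, Finset.card_filter]
    push_cast
    rfl
  simp only [h1]
  rw [← Finset.sum_div, Finset.sum_comm]
  have h2 : ∀ l : M, (∑ z : Fin k → F2, if z + l.1 ∈ R then (1 : ℝ) else 0) = R.ncard := by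
    intro l
    have h3 : (∑ z : Fin k → F2, if z + l.1 ∈ R then (1 : ℝ) else 0) =
        ∑ z : Fin k → F2, if z ∈ R then (1 : ℝ) else 0 :=
      Fintype.sum_equiv (Equiv.addRight l.1) _ _ fun z => rfl
    rw [h3, ← Nat.card_coe_set_eq, Nat.card_eq_fintype_card, Fintype.card_subtype,
      Finset.card_filter]
    push_cast
    rfl
  rw [Finset.sum_congr rfl fun l _ => h2 l, Finset.sum_const, Finset.card_univ, nsmul_eq_mul,
    Nat.card_eq_fintype_card]
  have : (Fintype.card M : ℝ) ≠ 0 := by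
    rw [← Nat.card_eq_fintype_card]
    exact hM.ne'
  field_simp

theorem dens_nonneg (R : Set (Fin k → F2)) (M : Submodule F2 (Fin k → F2)) (z : Fin k → F2) :
    0 ≤ dens R M z := by
  rw [dens]
  positivity

theorem dens_le_one (R : Set (Fin k → F2)) (M : Submodule F2 (Fin k → F2)) (z : Fin k → F2) :
    dens R M z ≤ 1 := by
  have hM : (0 : ℝ) < Nat.card M := by
    have : 0 < Nat.card M := Nat.card_pos
    exact_mod_cast this
  rw [dens, div_le_one hM]
  exact_mod_cast Nat.card_le_card_of_injective (fun l : {l : M // z + l.1 ∈ R} => l.1)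
    Subtype.val_injective

/-- the number of satisfied constraints -/
theorem card_sat (R : Set (Fin k → F2)) (v0 : V) (ι : Fin k × Fin P ↪ V)
    (f : Fin k → Fin m → Fin P) (hf : ∀ j j', (∀ c, f c j = f c j') → j = j')
    (q : Fin k → F2) (M : Submodule F2 (Fin k → F2)) (w : Fin m → Fin k → F2) (x : V → F2) :
    (Nat.card {t // frm (Γ := pred R) v0 ι f {⟨(), (some, q)⟩}
      (M.comap (LinearMap.funLeft F2 F2 some)) w t = true ∧
        (fun i => x (t.2.1 i) + t.2.2 i) ∈ (pred R).rel t.1} : ℝ) =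
      (∑ j, dens R M ((fun c => x (ι (c, f c j))) + q + w j)) * Nat.card M := by
  classical
  have : Fintype M := Fintype.ofFinite M
  have hM : (0 : ℝ) < Nat.card M := by
    have : 0 < Nat.card M := Nat.card_pos
    exact_mod_cast this
  rw [card_rows R v0 ι f hf q M w fun t => (fun i => x (t.2.1 i) + t.2.2 i) ∈ (pred R).rel t.1]
  rw [Finset.sum_mul]
  have h1 : ∀ j : Fin m, dens R M ((fun c => x (ι (c, f c j))) + q + w j) * Nat.card M =
      (Nat.card {l : M // (fun c => x (ι (c, f c j))) + q + w j + l.1 ∈ R} : ℝ) := by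
    intro j
    rw [dens, div_mul_cancel₀ _ hM.ne']
  simp only [h1]
  have h2 : Nat.card {p : Fin m × M // (fun i => x ((rowC R ι f p.1 (q + (w p.1 + p.2.1))).2.1 i) +
      (rowC R ι f p.1 (q + (w p.1 + p.2.1))).2.2 i) ∈ (pred R).rel
        (rowC R ι f p.1 (q + (w p.1 + p.2.1))).1} =
      ∑ j : Fin m, Nat.card {l : M // (fun c => x (ι (c, f c j))) + q + w j + l.1 ∈ R} := by
    have e : ∀ p : Fin m × M, ((fun i => x ((rowC R ι f p.1 (q + (w p.1 + p.2.1))).2.1 i) +
        (rowC R ι f p.1 (q + (w p.1 + p.2.1))).2.2 i) ∈ (pred R).rel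
          (rowC R ι f p.1 (q + (w p.1 + p.2.1))).1) ↔
        (fun c => x (ι (c, f c p.1))) + q + w p.1 + p.2.1 ∈ R := by
      intro p
      have e1 : (fun c => x (ι (c, f c p.1))) + q + w p.1 + p.2.1 =
          fun i => x (ι (i, f i p.1)) + (q + (w p.1 + p.2.1)) i := by
        funext i
        simp only [Pi.add_apply]
        ring
      rw [e1]
      rfl
    rw [Nat.card_congr (Equiv.subtypeEquivRight e), Nat.card_eq_fintype_card,
      Fintype.card_subtype, Finset.card_filter, Fintype.sum_prod_type]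
    refine Finset.sum_congr rfl fun j _ => ?_
    rw [Nat.card_eq_fintype_card, Fintype.card_subtype, Finset.card_filter]
  rw [h2]
  push_cast
  rfl

theorem card_total (R : Set (Fin k → F2)) (v0 : V) (ι : Fin k × Fin P ↪ V)
    (f : Fin k → Fin m → Fin P) (hf : ∀ j j', (∀ c, f c j = f c j') → j = j')
    (q : Fin k → F2) (M : Submodule F2 (Fin k → F2)) (w : Fin m → Fin k → F2) :
    (Nat.card {t // frm (Γ := pred R) v0 ι f {⟨(), (some, q)⟩}
      (M.comap (LinearMap.funLeft F2 F2 some)) w t = true} : ℝ) = m * Nat.card M := by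
  have h1 := card_rows R v0 ι f hf q M w fun _ => True
  have h2 : Nat.card {t // frm (Γ := pred R) v0 ι f {⟨(), (some, q)⟩}
      (M.comap (LinearMap.funLeft F2 F2 some)) w t = true} = Nat.card {t // frm (Γ := pred R) v0 ι f
      {⟨(), (some, q)⟩} (M.comap (LinearMap.funLeft F2 F2 some)) w t = true ∧ True} :=
    Nat.card_congr (Equiv.subtypeEquivRight fun t => (and_true _).symm ▸ Iff.rfl)
  have h3 : Nat.card {p : Fin m × M // True} = m * Nat.card M := by
    rw [Nat.card_congr (Equiv.subtypeUnivEquiv fun _ => trivial), Nat.card_prod,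
      Nat.card_eq_fintype_card, Fintype.card_fin]
  rw [h2, h1, h3]
  push_cast
  rfl

end instances

end Pool.Agent.H5Dich
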