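import Pool.Agent.H5Dich.Defs

/-!
# One predicate: definitions
-/

set_option autoImplicit false

namespace Pool.Agent.H5Dich

open Pool.Agent.H5Sym

/-- the family which consists of one relation `R` of arity `k` -/
def pred {k : ℕ} (R : Set (Fin k → ZMod 2)) : Lang where
  Idx := Unit
  finite := inferInstance
  ar _ := k
  rel _ := R

/-- every assignment satisfies less than `r` times the number of constraints -/
def ValueLT {Γ : Lang} {V : Type} (r : ℝ) (φ : Con Γ V → Bool) : Prop :=
  ∀ x : V → ZMod 2, (Nat.card {t // φ t = true ∧ (fun k => x (t.2.1 k) + t.2.2 k) ∈ Γ.rel t.1} : ℝ) <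
    r * Nat.card {t // φ t = true}

/-- the variables of each constraint are distinct -/
def Proper {Γ : Lang} {V : Type} (φ : Con Γ V → Bool) : Prop :=
  ∀ t, φ t = true → Function.Injective t.2.1

/-- The predicate `R` contains a translate `q + M` of a subspace `M` such that all equations which
hold on `M` have at least three variables. -/
def PairwiseSubspace {k : ℕ} (R : Set (Fin k → ZMod 2)) : Prop :=
  ∃ (q : Fin k → ZMod 2) (M : Submodule (ZMod 2) (Fin k → ZMod 2)), (∀ m ∈ M, q + m ∈ R) ∧
    ∀ h : Fin k → ZMod 2, h ≠ 0 → (∀ m ∈ M, ∑ j, h j * m j = 0) → 3 ≤ {j | h j ≠ 0}.ncard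

end Pool.Agent.H5Dich
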