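import Pool.Agent.H5Dich.ResistMain

/-!
# Approximation resistance for flip-invariant circuits: examples and the upper bound
-/

set_option autoImplicit false

namespace Pool.Agent.H5Dich

open Module Pool.Agent.H5Sym

universe u w

theorem PairwiseSubspace.mono {k : ℕ} {R R' : Set (Fin k → F2)} (h : R ⊆ R')
    (hR : PairwiseSubspace R) : PairwiseSubspace R' := by
  obtain ⟨q, M, h1, h2⟩ := hR
  exact ⟨q, M, fun m hm => h (h1 m hm), h2⟩

/-- a parity of at least three entries -/
theorem pairwise_parity {k : ℕ} (S : Finset (Fin k)) (hS : 3 ≤ S.card) (b : F2) :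
    PairwiseSubspace {x : Fin k → F2 | ∑ j ∈ S, x j = b} := by
  classical
  obtain ⟨i0, hi0⟩ : S.Nonempty := Finset.card_pos.1 (by omega)
  let σ : (Fin k → F2) →ₗ[F2] F2 := ∑ j ∈ S, LinearMap.proj j
  have hσ : ∀ x, σ x = ∑ j ∈ S, x j := by
    intro x
    simp [σ]
  have hsing : ∀ (i : Fin k) (a : F2), ∑ j ∈ S, (Pi.single i a : Fin k → F2) j =
      if i ∈ S then a else 0 := by
    intro i a
    by_cases hi : i ∈ S
    · rw [if_pos hi, Finset.sum_eq_single i]
      · rw [Pi.single_eq_same]
      · intro j _ hj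
        rw [Pi.single_eq_of_ne hj]
      · intro h; exact absurd hi h
    · rw [if_neg hi]
      refine Finset.sum_eq_zero fun j hj => ?_
      rw [Pi.single_eq_of_ne]
      rintro rfl
      exact hi hj
  have hh1 : ∀ (h : Fin k → F2) (i : Fin k), ∑ j, h j * (Pi.single i 1 : Fin k → F2) j = h i := by
    intro h i
    rw [Finset.sum_eq_single i]
    · rw [Pi.single_eq_same, mul_one]
    · intro j _ hj
      rw [Pi.single_eq_of_ne hj, mul_zero]
    · intro h; exact absurd (Finset.mem_univ _) h
  refine ⟨Pi.single i0 b, LinearMap.ker σ, fun m hm => ?_, fun h hh hm => ?_⟩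
  · rw [LinearMap.mem_ker, hσ] at hm
    rw [Set.mem_setOf_eq]
    simp only [Pi.add_apply, Finset.sum_add_distrib]
    rw [hm, hsing, if_pos hi0, add_zero]
  · have h1 : ∀ i, i ∉ S → h i = 0 := by
      intro i hi
      have := hm (Pi.single i 1) (by rw [LinearMap.mem_ker, hσ, hsing, if_neg hi])
      rwa [hh1] at this
    have h2 : ∀ i ∈ S, ∀ j ∈ S, h i = h j := by
      intro i hi j hj
      have := hm (Pi.single i 1 + Pi.single j 1) (by
        rw [LinearMap.mem_ker, map_add, hσ, hσ, hsing, hsing, if_pos hi, if_pos hj]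
        decide)
      simp only [Pi.add_apply, mul_add, Finset.sum_add_distrib] at this
      rw [hh1, hh1] at this
      have h3 : ∀ a b : F2, a + b = 0 → a = b := by decide
      exact h3 _ _ this
    obtain ⟨i, hi⟩ := Function.ne_iff.1 hh
    rw [Pi.zero_apply] at hi
    have hiS : i ∈ S := by
      by_contra hcon
      exact hi (h1 i hcon)
    have h3 : (S : Set (Fin k)) ⊆ {j | h j ≠ 0} := by
      intro j hj
      rw [Set.mem_setOf_eq, ← h2 i hiS j hj]
      exact hi
    have h4 := Set.ncard_le_ncard h3 (Set.toFinite _)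
    rw [Set.ncard_coe_finset] at h4
    omega

theorem pairwise_kSat {k : ℕ} (hk : 3 ≤ k) : PairwiseSubspace {x : Fin k → F2 | ∃ j, x j = 1} := by
  refine PairwiseSubspace.mono ?_ (pairwise_parity Finset.univ (by simpa using hk) 1)
  intro x hx
  by_contra hcon
  rw [Set.mem_setOf_eq] at hx hcon
  push Not at hcon
  have h1 : ∀ j, x j = 0 := fun j => (F2.cases (x j)).resolve_right (hcon j)
  rw [Finset.sum_eq_zero fun j _ => h1 j] at hx
  exact zero_ne_one hx

theorem pairwise_nae {k : ℕ} (hk : 4 ≤ k) :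
    PairwiseSubspace {x : Fin k → F2 | ∃ j j', x j ≠ x j'} := by
  classical
  obtain ⟨S, -, hS⟩ := Finset.exists_subset_card_eq
    (s := (Finset.univ : Finset (Fin k))) (n := 4) (by simpa using hk)
  refine PairwiseSubspace.mono ?_ (pairwise_parity S (by omega) 1)
  intro x hx
  by_contra hcon
  rw [Set.mem_setOf_eq] at hx hcon
  push Not at hcon
  have i0 : Fin k := ⟨0, by omega⟩
  rw [Finset.sum_congr rfl fun j _ => hcon j i0, Finset.sum_const, hS] at hx
  have h : ∀ a : F2, 4 • a ≠ 1 := by decide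
  exact h _ hx

/-- predicates with few accepting assignments -/
theorem pairwise_hadamard {k r : ℕ} (hk : k < 2 ^ r) :
    ∃ R : Set (Fin k → F2), R.ncard ≤ 2 ^ r ∧ PairwiseSubspace R := by
  classical
  obtain ⟨e⟩ : Nonempty (Fin k ↪ {u : Fin r → F2 // u ≠ 0}) := by
    refine Function.Embedding.nonempty_of_card_le ?_
    rw [Fintype.card_subtype_compl, Fintype.card_fin, Fintype.card_fun, ZMod.card,
      Fintype.card_fin, Fintype.card_subtype_eq]
    omega
  let F : (Fin r → F2) →ₗ[F2] (Fin k → F2) :=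
    { toFun := fun a i => ∑ j, a j * (e i).1 j
      map_add' := fun a b => by
        funext i
        simp only [Pi.add_apply, add_mul, Finset.sum_add_distrib]
      map_smul' := fun c a => by
        funext i
        simp only [Pi.smul_apply, smul_eq_mul, RingHom.id_apply, Finset.mul_sum, mul_assoc] }
  refine ⟨LinearMap.range F, ?_, 0, LinearMap.range F, fun m hm => ?_, fun h hh hm => ?_⟩
  · have h1 : (LinearMap.range F : Set (Fin k → F2)) = F '' Set.univ := by
      rw [Set.image_univ]
      rfl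
    rw [h1]
    refine (Set.ncard_image_le (Set.toFinite _)).trans ?_
    rw [Set.ncard_univ, Nat.card_eq_fintype_card, Fintype.card_fun, ZMod.card, Fintype.card_fin]
  · rw [zero_add]
    exact hm
  · have h1 : ∀ t : Fin r, ∑ i, h i * (e i).1 t = 0 := by
      intro t
      have h2 := hm (F (Pi.single t 1)) ⟨_, rfl⟩
      have h3 : ∀ i, F (Pi.single t 1) i = (e i).1 t := by
        intro i
        change ∑ j, (Pi.single t 1 : Fin r → F2) j * (e i).1 j = (e i).1 t
        rw [Finset.sum_eq_single t]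
        · rw [Pi.single_eq_same, one_mul]
        · intro j _ hj
          rw [Pi.single_eq_of_ne hj, zero_mul]
        · intro h; exact absurd (Finset.mem_univ _) h
      simp only [h3] at h2
      exact h2
    have hset : {j | h j ≠ 0} = ((Finset.univ.filter fun c => h c ≠ 0 : Finset (Fin k)) : Set (Fin k)) := by
      ext j
      simp
    rw [hset, Set.ncard_coe_finset]
    have h2 : ∀ t : Fin r, ∑ i ∈ Finset.univ.filter fun c => h c ≠ 0, (e i).1 t = 0 := by
      intro t
      refine Eq.trans ?_ (h1 t)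
      rw [Finset.sum_filter]
      refine Finset.sum_congr rfl fun i _ => ?_
      rcases F2.cases (h i) with h0 | h0
      · rw [h0, if_neg (fun h => h rfl), zero_mul]
      · rw [h0, if_pos one_ne_zero, one_mul]
    by_contra hcon
    have h3 : (Finset.univ.filter fun c => h c ≠ 0).card = 0 ∨
        (Finset.univ.filter fun c => h c ≠ 0).card = 1 ∨
        (Finset.univ.filter fun c => h c ≠ 0).card = 2 := by omega
    rcases h3 with h3 | h3 | h3
    · rw [Finset.card_eq_zero] at h3
      refine hh (funext fun c => ?_)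
      by_contra hc
      have : c ∈ Finset.univ.filter fun c => h c ≠ 0 := Finset.mem_filter.2 ⟨Finset.mem_univ _, hc⟩
      rw [h3] at this
      exact absurd this (Finset.notMem_empty c)
    · obtain ⟨c, hc⟩ := Finset.card_eq_one.1 h3
      refine (e c).2 (funext fun t => ?_)
      have h4 := h2 t
      rw [hc, Finset.sum_singleton] at h4
      exact h4
    · obtain ⟨c, c', hne, hc⟩ := Finset.card_eq_two.1 h3
      refine hne (e.injective (Subtype.ext (funext fun t => ?_)))
      have h4 := h2 t
      rw [hc, Finset.sum_pair hne] at h4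
      have h5 : ∀ x y : F2, x + y = 0 → x = y := by decide
      exact h5 _ _ h4

section upper

variable {Γ : Lang} {V : Type}

theorem valueLT_flip {r : ℝ} (u : V → F2) {φ : Con Γ V → Bool} (hφ : ValueLT r φ) :
    ValueLT r (φ ∘ flipC u) := by
  intro x
  have h1 := hφ (x + u)
  have e1 : Nat.card {t // (φ ∘ flipC u) t = true} = Nat.card {t // φ t = true} :=
    Nat.card_congr ((flipC u).subtypeEquiv fun t => Iff.rfl)
  have e2 : Nat.card {t // (φ ∘ flipC u) t = true ∧
      (fun k => x (t.2.1 k) + t.2.2 k) ∈ Γ.rel t.1} =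
      Nat.card {t // φ t = true ∧ (fun k => (x + u) (t.2.1 k) + t.2.2 k) ∈ Γ.rel t.1} := by
    refine Nat.card_congr ((flipC u).subtypeEquiv fun t => ?_)
    have h2 : (fun k => (x + u) ((flipC u t).2.1 k) + (flipC u t).2.2 k) =
        fun k => x (t.2.1 k) + t.2.2 k := by
      funext k
      change x (t.2.1 k) + u (t.2.1 k) + (t.2.2 k + u (t.2.1 k)) = x (t.2.1 k) + t.2.2 k
      have := add_self_mod (u (t.2.1 k))
      linear_combination this
    have h3 : ((fun k => (x + u) ((flipC u t).2.1 k) + (flipC u t).2.2 k) ∈ Γ.rel (flipC u t).1) ↔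
        (fun k => x (t.2.1 k) + t.2.2 k) ∈ Γ.rel t.1 := by
      change ((fun k => (x + u) ((flipC u t).2.1 k) + (flipC u t).2.2 k) ∈ Γ.rel t.1) ↔ _
      rw [h2]
      exact Iff.rfl
    rw [h3]
    rfl
  rw [e1, e2]
  exact h1

theorem nonempty_flip (u : V → F2) {φ : Con Γ V → Bool} (hφ : (sol (ones φ)).Nonempty) :
    (sol (ones (φ ∘ flipC u))).Nonempty := by
  obtain ⟨x, hx⟩ := hφ
  refine ⟨x + u, ?_⟩
  have h1 : ones (φ ∘ flipC u) = {t | flipC u t ∈ ones φ} := rfl
  rw [h1, sol_flip, add_assoc, add_self_mod, add_zero]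
  exact hx

theorem proper_flip (u : V → F2) {φ : Con Γ V → Bool} (hφ : Proper φ) : Proper (φ ∘ flipC u) :=
  fun t ht => hφ (flipC u t) ht

theorem upper_gap [Finite V] (U : Submodule F2 (V → F2)) (r : ℝ)
    (C : Circuit.{0, 0, w} (Con Γ V) Bool) [Finite C.Gate]
    (h1 : ∀ φ : Con Γ V → Bool, Proper φ → (sol (ones φ)).Nonempty → C.eval φ C.out = true)
    (h2 : ∀ φ : Con Γ V → Bool, Proper φ → ValueLT r φ → C.eval φ C.out = false) :
    ∃ C' : Circuit.{0, 0, w} (Con Γ V) Bool, (∀ u ∈ U, C'.Invariant (flipC u)) ∧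
      (∀ φ : Con Γ V → Bool, Proper φ → (sol (ones φ)).Nonempty → C'.eval φ C'.out = true) ∧
      (∀ φ : Con Γ V → Bool, Proper φ → ValueLT r φ → C'.eval φ C'.out = false) ∧
      (∀ g, C'.op g = orGate ∨ ∃ h, C'.op g = C.op h) ∧
      Nat.card C'.Gate = 2 ^ finrank F2 U * Nat.card C.Gate + 1 := by
  classical
  have : Finite (V → F2) := Pi.finite
  have : Finite U := Subtype.finite
  have : Fintype U := Fintype.ofFinite U
  have : FiniteDimensional F2 U := Module.Finite.of_finite
  refine ⟨sym (G := U) C (fun u => flipC u.1), fun u hu => ?_, fun φ hp hφ => ?_,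
    fun φ hp hφ => ?_, ?_, ?_⟩
  · exact sym_inv C (fun u : U => flipC u.1) (fun u v => flipC_add u.1 v.1) ⟨u, hu⟩
  · rw [sym_eval]
    exact ⟨0, h1 _ (proper_flip _ hp) (nonempty_flip _ hφ)⟩
  · rw [Bool.eq_false_iff]
    intro hcon
    rw [sym_eval] at hcon
    obtain ⟨u, hu⟩ := hcon
    rw [h2 _ (proper_flip _ hp) (valueLT_flip _ hφ)] at hu
    exact absurd hu (by decide)
  · rintro (_ | p)
    · exact Or.inl rfl
    · exact Or.inr ⟨p.2, rfl⟩
  · rw [sym_card, Nat.card_eq_fintype_card, Module.card_eq_pow_finrank (K := F2) (V := U), ZMod.card]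

/-- the average of a function of the values at distinct points -/
theorem sum_scope {k : ℕ} [Fintype V] [DecidableEq V] (s : Fin k → V) (hs : Function.Injective s)
    (g : (Fin k → F2) → ℝ) :
    2 ^ k * ∑ x : V → F2, g (fun i => x (s i)) = 2 ^ Fintype.card V * ∑ y, g y := by
  have h1 : ∀ y : Fin k → F2, ∑ x : V → F2, g (fun i => x (s i)) =
      ∑ x : V → F2, g ((fun i => x (s i)) + y) := by
    intro y
    symm
    refine Fintype.sum_equiv (Equiv.addRight (Function.extend s y 0)) _ _ fun x => ?_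
    congr 1
    funext i
    change x (s i) + y i = x (s i) + Function.extend s y 0 (s i)
    rw [hs.extend_apply]
  have h2 : ∑ y : Fin k → F2, ∑ x : V → F2, g (fun i => x (s i)) =
      2 ^ k * ∑ x : V → F2, g (fun i => x (s i)) := by
    rw [Finset.sum_const, Finset.card_univ, Fintype.card_fun, ZMod.card, Fintype.card_fin,
      nsmul_eq_mul]
    push_cast
    rfl
  rw [← h2, Finset.sum_congr rfl fun y _ => h1 y, Finset.sum_comm]
  have h3 : ∀ x : V → F2, ∑ y : Fin k → F2, g ((fun i => x (s i)) + y) = ∑ y, g y := fun x =>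
    Fintype.sum_equiv (Equiv.addLeft (fun i => x (s i))) _ _ fun y => rfl
  rw [Finset.sum_congr rfl fun x _ => h3 x, Finset.sum_const, Finset.card_univ, Fintype.card_fun,
    ZMod.card, nsmul_eq_mul]
  push_cast
  rfl

/-- some assignment is as good as a random one -/
theorem not_valueLT {k : ℕ} [Finite V] (R : Set (Fin k → F2)) {φ : Con (pred R) V → Bool}
    (hφ : Proper φ) : ¬ ValueLT (R.ncard / 2 ^ k) φ := by
  classical
  intro hcon
  have : Fintype V := Fintype.ofFinite V
  have : Fintype (pred R).Idx := inferInstanceAs (Fintype Unit)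
  let T : Finset (Con (pred R) V) := Finset.univ.filter fun t => φ t = true
  have e1 : Nat.card {t // φ t = true} = T.card := by
    rw [Nat.card_eq_fintype_card, Fintype.card_subtype]
  have e2 : ∀ x : V → F2, (Nat.card {t // φ t = true ∧
      (fun k => x (t.2.1 k) + t.2.2 k) ∈ (pred R).rel t.1} : ℝ) =
      ∑ t ∈ T, if (fun k => x (t.2.1 k) + t.2.2 k) ∈ (pred R).rel t.1 then (1 : ℝ) else 0 := by
    intro x
    rw [Nat.card_eq_fintype_card, Fintype.card_subtype, Finset.sum_ite, Finset.sum_const_zero,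
      add_zero, Finset.sum_const, nsmul_eq_mul, mul_one, Finset.filter_filter]
  have e3 : ∀ t ∈ T, 2 ^ k * ∑ x : V → F2,
      (if (fun k => x (t.2.1 k) + t.2.2 k) ∈ (pred R).rel t.1 then (1 : ℝ) else 0) =
      2 ^ Fintype.card V * R.ncard := by
    rintro ⟨⟨⟩, s, a'⟩ ht
    have hs : Function.Injective s := hφ _ (Finset.mem_filter.1 ht).2
    change Fin k → V at s
    change Fin k → F2 at a'
    generalize hah : a' = a
    change 2 ^ k * ∑ x : V → F2, (if (fun i => x (s i)) + a ∈ R then (1 : ℝ) else 0) = _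
    have h1 := sum_scope s hs fun y => if y + a ∈ R then (1 : ℝ) else 0
    have h2 : (∑ y : Fin k → F2, if y + a ∈ R then (1 : ℝ) else 0) = R.ncard := by
      have h3 : (∑ y : Fin k → F2, if y + a ∈ R then (1 : ℝ) else 0) =
          ∑ y : Fin k → F2, if y ∈ R then (1 : ℝ) else 0 :=
        Fintype.sum_equiv (Equiv.addRight a) _ _ fun y => rfl
      rw [h3, ← Nat.card_coe_set_eq, Nat.card_eq_fintype_card, Fintype.card_subtype,
        Finset.card_filter]
      push_cast
      rfl
    rw [h2] at h1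
    exact h1
  have h1 : ∑ x : V → F2, (Nat.card {t // φ t = true ∧
      (fun k => x (t.2.1 k) + t.2.2 k) ∈ (pred R).rel t.1} : ℝ) <
      ∑ _x : V → F2, (R.ncard / 2 ^ k : ℝ) * Nat.card {t // φ t = true} :=
    Finset.sum_lt_sum_of_nonempty Finset.univ_nonempty fun x _ => hcon x
  simp only [e2] at h1
  rw [Finset.sum_comm, Finset.sum_const, Finset.card_univ, Fintype.card_fun, ZMod.card,
    nsmul_eq_mul, e1] at h1
  have h2 := mul_lt_mul_of_pos_left h1 (show (0 : ℝ) < 2 ^ k by positivity)
  rw [Finset.mul_sum, Finset.sum_congr rfl e3, Finset.sum_const, nsmul_eq_mul] at h2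
  push_cast at h2
  have h3 : (2 : ℝ) ^ k * (2 ^ Fintype.card V * (R.ncard / 2 ^ k * T.card)) =
      T.card * (2 ^ Fintype.card V * R.ncard) := by
    field_simp
  rw [h3] at h2
  exact lt_irrefl _ h2

end upper

end Pool.Agent.H5Dich
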