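import Pool.Agent.H5Dich.Resist

/-!
# Approximation resistance for flip-invariant circuits: the lower bound
-/

set_option autoImplicit false

namespace Pool.Agent.H5Dich

open Module Pool.Agent.H5Sym

universe u w

theorem ValueLT.mono {Γ : Lang} {V : Type} {r r' : ℝ} (h : r ≤ r') {φ : Con Γ V → Bool}
    (hφ : ValueLT r φ) : ValueLT r' φ := fun x =>
  (hφ x).trans_le (mul_le_mul_of_nonneg_right h (Nat.cast_nonneg _))

/-- many solutions, if all assignments which vanish on a small set are solutions -/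
theorem many_sol {n s : ℕ} (used : Finset (Fin n)) (hused : used.card ≤ s)
    (S : Set (Fin n → F2)) (hS : ∀ x : Fin n → F2, (∀ v ∈ used, x v = 0) → x ∈ S) :
    2 ^ (n - s) ≤ Nat.card S := by
  have h1 : Nat.card ({v // v ∉ used} → F2) = 2 ^ (n - used.card) := by
    rw [Nat.card_eq_fintype_card, Fintype.card_fun, ZMod.card, Fintype.card_subtype_compl,
      Fintype.card_fin, Fintype.card_coe]
  have : Finite S := Subtype.finite
  refine le_trans (Nat.pow_le_pow_right (by norm_num) (by omega : n - s ≤ n - used.card)) ?_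
  rw [← h1]
  refine Nat.card_le_card_of_injective (fun x => ⟨fun v => if h : v ∉ used then x ⟨v, h⟩ else 0,
    hS _ fun v hv => dif_neg (not_not.2 hv)⟩) ?_
  intro x x' hxx
  funext v
  have h2 := congrFun (congrArg Subtype.val hxx) v.1
  dsimp only at h2
  rw [dif_pos v.2, dif_pos v.2] at h2
  exact h2

/-- the constant in the exponent -/
def resC (k : ℕ) : ℕ := k * (256 * 4 ^ k * (4 * k + 2) ^ 2) + 1

theorem resist {k : ℕ} (hk : 3 ≤ k) (R : Set (Fin k → F2)) (hR : PairwiseSubspace R) (ε : ℝ)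
    (hε0 : 0 < ε) (hε1 : ε ≤ 1) (n : ℕ) (U : Submodule F2 (Fin n → F2))
    (D : Type u) (C : Circuit.{0, u, w} (Con (pred R) (Fin n)) D) [Finite C.Gate] (inp : Bool → D)
    (acc : D → Prop) (hinv : ∀ u ∈ U, C.Invariant (flipC u))
    (hacc : ∀ φ : Con (pred R) (Fin n) → Bool, Proper φ →
      2 ^ (n - finrank F2 U) ≤ Nat.card (sol (ones φ)) → acc (C.eval (inp ∘ φ) C.out))
    (hrej : ∀ φ : Con (pred R) (Fin n) → Bool, Proper φ → ValueLT (R.ncard / 2 ^ k + ε) φ →
      ¬ acc (C.eval (inp ∘ φ) C.out)) :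
    2 ^ ⌊ε ^ 4 * finrank F2 U / resC k⌋₊ ≤ Nat.card C.Gate := by
  classical
  obtain ⟨q, M, hqM, hM⟩ := hR
  have hs : 0 < Nat.card C.Gate := Nat.card_pos_iff.2 ⟨⟨C.out⟩, inferInstance⟩
  obtain ⟨ι₀, hι₀⟩ := exists_info U
  generalize finrank F2 U = d at ι₀ hι₀ hacc ⊢
  set K : ℕ := ⌈4 * k / ε ^ 2⌉₊ + 1 with hK
  set N := 256 * 4 ^ k * K ^ 2 with hN
  have hε2 : 0 < ε ^ 2 := by positivity
  have hε21 : ε ^ 2 ≤ 1 := pow_le_one₀ hε0.le hε1
  have hK1 : (4 * k / ε ^ 2 : ℝ) < K := by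
    rw [hK]
    push_cast
    linarith [Nat.le_ceil (4 * k / ε ^ 2 : ℝ)]
  have hK2 : (K : ℝ) * ε ^ 2 ≤ 4 * k + 2 := by
    have h1 : (K : ℝ) < 4 * k / ε ^ 2 + 1 + 1 := by
      rw [hK]
      push_cast
      have := Nat.ceil_lt_add_one (show (0 : ℝ) ≤ 4 * k / ε ^ 2 by positivity)
      linarith
    have h2 : (K : ℝ) * ε ^ 2 ≤ (4 * k / ε ^ 2 + 1 + 1) * ε ^ 2 :=
      mul_le_mul_of_nonneg_right h1.le hε2.le
    have h3 : (4 * k / ε ^ 2 + 1 + 1) * ε ^ 2 = 4 * k + 2 * ε ^ 2 := by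
      field_simp
      ring
    linarith
  set κ := ⌊ε ^ 4 * d / resC k⌋₊ with hκdef
  rcases Nat.eq_zero_or_pos κ with h0 | hκ
  · rw [h0, pow_zero]; exact hs
  have hcκ : (k * N + 1) * κ ≤ d := by
    have h1 : (κ : ℝ) ≤ ε ^ 4 * d / resC k := Nat.floor_le (by positivity)
    have hc : (0 : ℝ) < resC k := by
      have : 0 < resC k := Nat.succ_pos _
      exact_mod_cast this
    have h2 : ((k * N + 1 : ℕ) : ℝ) * ε ^ 4 ≤ resC k := by
      rw [hN, resC]
      push_cast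
      have h3 : ((K : ℝ) * ε ^ 2) ^ 2 ≤ (4 * k + 2) ^ 2 := by
        gcongr
      have h4 : ε ^ 4 ≤ 1 := pow_le_one₀ hε0.le hε1
      have h5 : ((k : ℝ) * (256 * 4 ^ k * (K : ℝ) ^ 2) + 1) * ε ^ 4 =
          k * (256 * 4 ^ k * ((K : ℝ) * ε ^ 2) ^ 2) + ε ^ 4 := by ring
      rw [h5]
      gcongr
    have h3 : ((k * N + 1 : ℕ) : ℝ) * κ ≤ d := by
      calc ((k * N + 1 : ℕ) : ℝ) * κ ≤ ((k * N + 1 : ℕ) : ℝ) * (ε ^ 4 * d / resC k) := by gcongr
        _ = (((k * N + 1 : ℕ) : ℝ) * ε ^ 4) * (d / resC k) := by ring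
        _ ≤ resC k * (d / resC k) := by gcongr
        _ = d := by field_simp
    exact_mod_cast h3
  obtain ⟨d', rfl⟩ : ∃ d', d = d' + 1 := by
    refine ⟨d - 1, ?_⟩
    have : 1 ≤ (k * N + 1) * κ := Nat.mul_pos (Nat.succ_pos _) hκ
    omega
  have hNP : N * κ ≤ d' / k := by
    rw [Nat.le_div_iff_mul_le (by omega)]
    have : (k * N + 1) * κ = N * κ * k + κ := by ring
    omega
  set P := d' / k with hPdef
  have hN1 : 0 < N := by
    rw [hN]
    have : 0 < K := Nat.succ_pos _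
    positivity
  have hP0 : 0 < P := lt_of_lt_of_le (Nat.mul_pos hN1 hκ) hNP
  have hP : 256 * 4 ^ Fintype.card (Fin k) * κ * (K * P) ^ 2 ≤ P ^ 3 := by
    rw [Fintype.card_fin]
    calc 256 * 4 ^ k * κ * (K * P) ^ 2 = N * κ * P ^ 2 := by rw [hN]; ring
      _ ≤ P * P ^ 2 := Nat.mul_le_mul_right _ hNP
      _ = P ^ 3 := by ring
  by_contra hcon
  push Not at hcon
  have hC : 2 * Nat.card C.Gate < 4 ^ κ := by
    have h3 : 2 ^ 1 ≤ 2 ^ κ := Nat.pow_le_pow_right (by norm_num) hκ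
    calc 2 * Nat.card C.Gate < 2 * 2 ^ κ := by omega
      _ ≤ 2 ^ κ * 2 ^ κ := by
          rw [pow_one] at h3
          exact Nat.mul_le_mul_right _ h3
      _ = 4 ^ κ := by rw [← mul_pow]; rfl
  -- the blocks
  obtain ⟨ι₁⟩ : Nonempty (Fin k × Fin P ↪ Fin d') := by
    refine Function.Embedding.nonempty_of_card_le ?_
    rw [Fintype.card_prod, Fintype.card_fin, Fintype.card_fin, Fintype.card_fin]
    exact Nat.mul_div_le d' k
  let ι₂ : Fin k × Fin P ↪ Fin (d' + 1) := ι₁.trans (Fin.succEmb d')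
  let v0 : Fin n := ι₀ 0
  let U' : Submodule F2 (Fin n → F2) := U ⊓ LinearMap.ker (LinearMap.proj (R := F2)
    (φ := fun _ : Fin n => F2) v0)
  have hU' : ∀ u, u ∈ U' ↔ u ∈ U ∧ u v0 = 0 := fun u => Iff.rfl
  have hι : ∀ y : Fin k × Fin P → F2, ∃ u ∈ U', ∀ p, u ((ι₂.trans ι₀) p) = y p := by
    intro y
    obtain ⟨u, hu, hu'⟩ := hι₀ (Function.extend ι₂ y 0)
    refine ⟨u, (hU' u).2 ⟨hu, ?_⟩, fun p => ?_⟩
    · change u (ι₀ 0) = 0
      rw [hu', Function.extend_apply']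
      · rfl
      · rintro ⟨p, hp⟩
        exact Fin.succ_ne_zero _ hp
    · rw [Function.Embedding.trans_apply, hu', ι₂.injective.extend_apply]
  have hwt : ∀ h : Fin k → F2, h ≠ 0 → (∀ y, ext y ∈ M.comap (LinearMap.funLeft F2 F2 some) →
      ∑ c, h c * y c = 0) → 3 ≤ (Finset.univ.filter fun c => h c ≠ 0).card := by
    intro h hh hy
    have h1 := hM h hh fun m hm => hy m hm
    have h2 : {j | h j ≠ 0} = ↑(Finset.univ.filter fun c => h c ≠ 0) := by
      ext j
      simp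
    rwa [h2, Set.ncard_coe_finset] at h1
  obtain ⟨f, hdist, hf⟩ := foolingH' (Γ := pred R) (m := K * P) v0 (ι₂.trans ι₀) U'
    (fun u hu => ((hU' u).1 hu).2) hι C inp (fun u hu => hinv u ((hU' u).1 hu).1) hκ hP0 hP hC
    {⟨(), (some, q)⟩} (M.comap (LinearMap.funLeft F2 F2 some)) hwt
  replace hdist := hdist (by rwa [Fintype.card_fin])
  have hprop : ∀ w, Proper (frm (Γ := pred R) v0 (ι₂.trans ι₀) f
      {⟨(), (some, q)⟩} (M.comap (LinearMap.funLeft F2 F2 some)) w) := by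
    intro w t ht
    obtain ⟨j, l, hl, rfl⟩ := (frm_pred R v0 _ f q M w t).1 ht
    intro c c' h
    exact congrArg Prod.fst ((ι₂.trans ι₀).injective h)
  -- the homogeneous system
  have hmany : 2 ^ (n - (d' + 1)) ≤ Nat.card (sol (ones (frm (Γ := pred R) v0 (ι₂.trans ι₀) f
      {⟨(), (some, q)⟩} (M.comap (LinearMap.funLeft F2 F2 some)) 0))) := by
    refine many_sol (insert v0 (Finset.univ.map (ι₂.trans ι₀))) ?_ _ fun x hx => ?_
    · refine (Finset.card_insert_le _ _).trans ?_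
      rw [Finset.card_map, Finset.card_univ, Fintype.card_prod, Fintype.card_fin, Fintype.card_fin]
      have h2 : k * P ≤ d' := Nat.mul_div_le d' k
      exact Nat.succ_le_succ h2
    · intro t ht
      obtain ⟨j, l, hl, rfl⟩ := (frm_pred R v0 _ f q M 0 t).1 ht
      have h1 : (fun c => x ((rowC R (ι₂.trans ι₀) f j (q + ((0 : Fin (K * P) → Fin k → F2) j + l))).2.1 c) +
          (rowC R (ι₂.trans ι₀) f j (q + ((0 : Fin (K * P) → Fin k → F2) j + l))).2.2 c) = q + l := by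
        funext c
        change x ((ι₂.trans ι₀) (c, f c j)) + (q + ((0 : Fin (K * P) → Fin k → F2) j + l)) c =
          (q + l) c
        rw [hx _ (Finset.mem_insert_of_mem (Finset.mem_map.2 ⟨_, Finset.mem_univ _, rfl⟩)),
          Pi.zero_apply, zero_add, zero_add]
      rw [h1]
      exact hqM l hl
  -- the translates
  set δ : ℝ := R.ncard / 2 ^ k with hδ
  have hRk : R.ncard ≤ 2 ^ k := by
    have h1 := Set.ncard_le_ncard (Set.subset_univ R) (Set.toFinite _)
    rw [Set.ncard_univ, Nat.card_eq_fintype_card, Fintype.card_fun, ZMod.card, Fintype.card_fin] at h1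
    exact h1
  have hδ0 : 0 ≤ δ := by positivity
  have hδ1 : δ ≤ 1 := by
    rw [hδ, div_le_one (by positivity)]
    exact_mod_cast hRk
  obtain ⟨w, hw⟩ := exists_w (m := K * P) (dens R M) (dens_nonneg R M) (dens_le_one R M) hδ0 hδ1
    hε0 hε1 (by rw [dens_sum, hδ]; field_simp)
    (ι := Fin k × Fin P → F2) (fun z j => (fun c => z (c, f c j)) + q) (by
      rw [Fintype.card_fun, ZMod.card, Fintype.card_prod, Fintype.card_fin, Fintype.card_fin]
      have h1 : (2 : ℝ) ≤ Real.exp 1 := by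
        have := Real.add_one_le_exp (1 : ℝ)
        linarith
      have h2 : ((2 ^ (k * P) : ℕ) : ℝ) ≤ Real.exp ((k * P : ℕ) * 1) := by
        rw [Real.exp_nat_mul]
        push_cast
        gcongr
      refine h2.trans_lt (Real.exp_lt_exp.2 ?_)
      push_cast
      have hPr : (0 : ℝ) < P := by exact_mod_cast hP0
      have h3 : (k : ℝ) < ε ^ 2 / 4 * K := by
        have h4 := mul_lt_mul_of_pos_left hK1 (show 0 < ε ^ 2 / 4 by positivity)
        have h5 : ε ^ 2 / 4 * (4 * k / ε ^ 2) = (k : ℝ) := by field_simp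
        rwa [h5] at h4
      nlinarith)
  refine hrej _ (hprop w) ?_ ((hf w 0).symm ▸ hacc _ (hprop 0) hmany)
  intro x
  rw [card_sat R v0 _ f hdist q M w x, card_total R v0 _ f hdist q M w]
  have hMc : (0 : ℝ) < Nat.card M := by
    have : 0 < Nat.card M := Nat.card_pos
    exact_mod_cast this
  have h1 := hw (x ∘ (ι₂.trans ι₀))
  have h2 := mul_lt_mul_of_pos_right h1 hMc
  rw [← mul_assoc]
  exact h2

end Pool.Agent.H5Dich
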