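import Pool.Agent.H5Dich.Build

/-!
# The canonical form of an instance, and the upper bound
-/

set_option autoImplicit false

namespace Pool.Agent.H5Dich

open Module Pool.Agent.H5Sym

variable {Γ : Lang} {n : ℕ}

theorem Qr_good (φ : Con Γ (Fin n) → Bool) (l : List (Sc Γ n × Nd n × Nd n)) :
    ∃ κ t, Good (Qr φ l) κ t ∧
      ∀ e ∈ l, valid (lset e.1 (pat φ e.1)) e.2.1 e.2.2 → κ e.2.1 = κ e.2.2 := by
  induction l with
  | nil =>
    refine ⟨id, 0, ?_, fun e he => absurd he (List.not_mem_nil)⟩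
    intro x y d
    change x = y ∧ d = 0 ↔ x = y ∧ (0 : F2) + 0 = d
    rw [add_zero, eq_comm (a := d)]
  | cons e l ih =>
    obtain ⟨κ, t, h1, h2⟩ := ih
    obtain ⟨κ', t', h3, h4, h5⟩ := step_good (E := fun d => edge (lset e.1 (pat φ e.1)) e.2.1 e.2.2 d)
      (u := e.2.1) (v := e.2.2) (fun d d' h h' => h.2.symm.trans h'.2) h1
    refine ⟨κ', t', h3, ?_⟩
    intro e' he' hv
    rcases List.mem_cons.1 he' with rfl | he'
    · exact h5 ⟨_, hv, rfl⟩
    · exact h4 _ _ (h2 e' he' hv)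

/-- all edges -/
noncomputable def allEdges (Γ : Lang) (n : ℕ) : List (Sc Γ n × Nd n × Nd n) :=
  letI := Fintype.ofFinite (Sc Γ n × Nd n × Nd n)
  (Finset.univ : Finset (Sc Γ n × Nd n × Nd n)).toList

theorem mem_allEdges (e : Sc Γ n × Nd n × Nd n) : e ∈ allEdges Γ n := by
  letI := Fintype.ofFinite (Sc Γ n × Nd n × Nd n)
  exact Finset.mem_toList.2 (Finset.mem_univ e)

theorem length_allEdges : (allEdges Γ n).length = Nat.card (Sc Γ n × Nd n × Nd n) := by
  letI := Fintype.ofFinite (Sc Γ n × Nd n × Nd n)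
  rw [allEdges, Finset.length_toList, Finset.card_univ, Nat.card_eq_fintype_card]

theorem mem_sol_ones {φ : Con Γ (Fin n) → Bool} {x : Fin n → F2} :
    x ∈ sol (ones φ) ↔ ∀ σ : Sc Γ n, x ∈ lset σ (pat φ σ) :=
  ⟨fun h σ a ha => h ⟨σ.1, (σ.2, a)⟩ ha, fun h t ht => h ⟨t.1, t.2.1⟩ t.2.2 ht⟩

theorem unit_mem_stb (σ : Sc Γ n) (B : Pt σ) (v : Fin n) (hv : ∀ k, σ.2 k ≠ v) :
    (Pi.single v 1 : Fin n → F2) ∈ stb (lset σ B) := by
  rw [mem_stb']
  intro p hp a ha
  have h1 := hp a ha
  have e : (p + Pi.single v 1) ∘ σ.2 + a = p ∘ σ.2 + a := by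
    funext k
    simp only [Pi.add_apply, Function.comp, Pi.single_eq_of_ne (hv k), add_zero]
  rwa [e]

theorem canon_spec (hΓ : ¬ HasParity Γ) (φ : Con Γ (Fin n) → Bool) :
    ∃ t : Fin n → F2, ∀ c : Con Γ (Fin n), canon (allEdges Γ n) c φ = true ↔
      ∀ x ∈ lset ⟨c.1, c.2.1⟩ (pat φ ⟨c.1, c.2.1⟩), (x + t) ∘ c.2.1 + c.2.2 ∈ Γ.rel c.1 := by
  classical
  obtain ⟨κ, t, h1, h2⟩ := Qr_good φ (allEdges Γ n)
  have ht : ∀ x : Nd n, ext (fun v => t (some v) + t none) x = t x + t none := by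
    intro x
    cases x
    · exact (add_self_mod _).symm
    · rfl
  refine ⟨fun v => t (some v) + t none, fun c => ?_⟩
  obtain ⟨i, s, a⟩ := c
  dsimp only
  set σ : Sc Γ n := ⟨i, s⟩ with hσ
  rw [canon, decide_eq_true_eq]
  dsimp only
  constructor
  · rintro ⟨b, hb, hD⟩ x hx
    have hb' : ∀ o o' : Option (Fin (Γ.ar i)), κ (o.map s) = κ (o'.map s) →
        ext b o + ext b o' = t (o.map s) + t (o'.map s) := by
      intro o o' hk
      have h3 := hb o o'
      rw [h1] at h3
      have h4 : ¬ t (o.map s) + t (o'.map s) = ext b o + ext b o' + 1 := fun h => h3 ⟨hk, h⟩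
      have h5 : ∀ y z : F2, ¬ y = z + 1 → z = y := by decide
      exact h5 _ _ h4
    -- a global sign vector which agrees with `b` on the scope
    let β : Fin n → F2 := fun v => if h : ∃ k, s k = v then b h.choose else t (some v) + t none
    have hβ : ∀ k, β (s k) = b k := by
      intro k
      have h3 : ∃ k', s k' = s k := ⟨k, rfl⟩
      have h4 : β (s k) = b h3.choose := dif_pos h3
      rw [h4]
      have h5 := hb' (some h3.choose) (some k) (by
        rw [Option.map_some, Option.map_some, h3.choose_spec])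
      rw [Option.map_some, Option.map_some, h3.choose_spec, add_self_mod, ext_some, ext_some] at h5
      have h6 : ∀ y z : F2, y + z = 0 → y = z := by decide
      exact h6 _ _ h5
    have hβ' : β ∘ s = b := funext hβ
    have hβo : ∀ o : Option (Fin (Γ.ar i)), ext β (o.map s) = ext b o := by
      intro o
      cases o with
      | none => rfl
      | some k => exact hβ k
    have hstb : (fun v => t (some v) + t none) + β ∈ stb (lset σ (pat φ σ)) := by
      refine twoVariable_lset hΓ σ (pat φ σ) _ fun y z hv => ?_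
      have hv' : valid (lset σ (pat φ σ)) y z := hv
      have hk : κ y = κ z := h2 (σ, y, z) (mem_allEdges _) hv'
      -- nodes outside of the scope
      have hout : ∀ y z : Nd n, valid (lset σ (pat φ σ)) y z →
          (¬ ∃ o : Option (Fin (Γ.ar i)), o.map s = y) → y = z := by
        intro y z hv hy
        cases y with
        | none => exact absurd ⟨none, rfl⟩ hy
        | some v =>
          have h3 : ∀ k, σ.2 k ≠ v := fun k hk => hy ⟨some k, congrArg some hk⟩
          have h4 := hv _ (unit_mem_stb σ (pat φ σ) v h3)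
          rw [ext_some, Pi.single_eq_same] at h4
          cases z with
          | none => exact absurd h4 one_ne_zero
          | some w =>
            rw [ext_some] at h4
            by_contra hne
            have : w ≠ v := fun h => hne (by rw [h])
            rw [Pi.single_eq_of_ne this] at h4
            exact one_ne_zero h4
      by_cases hy : ∃ o : Option (Fin (Γ.ar i)), o.map s = y
      · by_cases hz : ∃ o : Option (Fin (Γ.ar i)), o.map s = z
        · obtain ⟨o, rfl⟩ := hy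
          obtain ⟨o', rfl⟩ := hz
          rw [ext_add, Pi.add_apply, Pi.add_apply, ht, ht, hβo, hβo]
          have h3 := hb' o o' hk
          have h4 : ∀ e1 e2 e3 e4 e5 : F2, e3 + e4 = e1 + e2 → e1 + e5 + e3 = e2 + e5 + e4 := by
            decide
          exact h4 _ _ _ _ _ h3
        · rw [hout z y (fun t' ht' => (hv t' ht').symm) hz]
      · rw [hout y z hv' hy]
    have h7 := hD (x + ((fun v => t (some v) + t none) + β)) ((mem_stb'.1 hstb) x hx)
    have e : (x + ((fun v => t (some v) + t none) + β)) ∘ s + b + a =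
        (x + fun v => t (some v) + t none) ∘ s + a := by
      funext k
      simp only [Pi.add_apply, Function.comp]
      rw [hβ k]
      have := add_self_mod (b k)
      linear_combination this
    rwa [e] at h7
  · intro h
    refine ⟨(fun v => t (some v) + t none) ∘ s, ?_, ?_⟩
    · intro o o' hq
      rw [h1] at hq
      have e : ∀ o : Option (Fin (Γ.ar i)), ext ((fun v => t (some v) + t none) ∘ s) o =
          t (o.map s) + t none := by
        intro o
        cases o
        · exact (add_self_mod _).symm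
        · rfl
      have h3 := hq.2
      change t (o.map s) + t (o'.map s) = ext ((fun v => t (some v) + t none) ∘ s) o +
        ext ((fun v => t (some v) + t none) ∘ s) o' + 1 at h3
      rw [e, e] at h3
      have h4 : ∀ e1 e2 e5 : F2, e1 + e2 = e1 + e5 + (e2 + e5) + 1 → False := by decide
      exact h4 _ _ _ h3
    · intro x hx
      have h3 := h x hx
      have e : (x + fun v => t (some v) + t none) ∘ s + a =
          x ∘ s + (fun v => t (some v) + t none) ∘ s + a := rfl
      rwa [e] at h3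

theorem card_canon (hΓ : ¬ HasParity Γ) (φ : Con Γ (Fin n) → Bool) :
    Nat.card (sol (ones fun c => canon (allEdges Γ n) c φ)) = Nat.card (sol (ones φ)) := by
  obtain ⟨t, ht⟩ := canon_spec hΓ φ
  refine Nat.card_congr (Equiv.subtypeEquiv (Equiv.addRight t) fun x => ?_)
  change x ∈ sol (ones fun c => canon (allEdges Γ n) c φ) ↔ x + t ∈ sol (ones φ)
  constructor
  · intro h
    rw [mem_sol_ones]
    intro σ a ha
    have h1 : canon (allEdges Γ n) (⟨σ.1, (σ.2, a + t ∘ σ.2)⟩ : Con Γ (Fin n)) φ = true := by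
      rw [ht]
      intro z hz
      have h2 := hz a ha
      have e : (z + t) ∘ σ.2 + (a + t ∘ σ.2) = z ∘ σ.2 + a := by
        funext k
        simp only [Pi.add_apply, Function.comp]
        have := add_self_mod (t (σ.2 k))
        linear_combination this
      change (z + t) ∘ σ.2 + (a + t ∘ σ.2) ∈ Γ.rel σ.1
      rwa [e]
    have h3 : (fun k => x (σ.2 k) + (a + t ∘ σ.2) k) ∈ Γ.rel σ.1 := h _ h1
    have e : (x + t) ∘ σ.2 + a = fun k => x (σ.2 k) + (a + t ∘ σ.2) k := by
      funext k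
      simp only [Pi.add_apply, Function.comp]
      ring
    rwa [e]
  · intro h c hc
    have h1 := (ht c).1 hc (x + t) (mem_sol_ones.1 h _)
    have e : (x + t + t) ∘ c.2.1 + c.2.2 = fun k => x (c.2.1 k) + c.2.2 k := by
      funext k
      simp only [Pi.add_apply, Function.comp]
      have := add_self_mod (t (c.2.1 k))
      linear_combination this
    rwa [e] at h1

/-- the number of scopes -/
theorem card_bounds (Γ : Lang) : ∃ c : ℕ, ∀ n : ℕ,
    N0 Γ n + Nat.card (S3 n) + (allEdges Γ n).length * (Nat.card (S5 n) + Nat.card (S3 n)) +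
      Nat.card (S4 Γ n) + Nat.card (Con Γ (Fin n)) ≤ c * (n + 1) ^ c := by
  classical
  letI := Fintype.ofFinite Γ.Idx
  obtain ⟨r, hr⟩ : ∃ r, ∀ i, Γ.ar i ≤ r := by
    obtain ⟨r, hr⟩ := (Set.finite_range Γ.ar).bddAbove
    exact ⟨r, fun i => hr ⟨i, rfl⟩⟩
  set I := Fintype.card Γ.Idx with hI
  set A := 2 ^ 2 ^ r * 2 ^ r with hA
  refine ⟨r + 4 + (3 + I * (4 * A + 12)), fun n => ?_⟩
  set q := n + 1 with hq
  have hq1 : 1 ≤ q := by omega
  have hA1 : 2 ^ r ≤ A := Nat.le_mul_of_pos_left _ (by positivity)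
  have hA2 : 2 ^ 2 ^ r ≤ A := Nat.le_mul_of_pos_right _ (by positivity)
  letI := Fintype.ofFinite (Sc Γ n)
  have hNd : Nat.card (Nd n) = q := by
    rw [Finite.card_option, Nat.card_eq_fintype_card, Fintype.card_fin]
  have hF : Nat.card F2 = 2 := by rw [Nat.card_eq_fintype_card, ZMod.card]
  have hfun : ∀ k : ℕ, Nat.card (Fin k → F2) = 2 ^ k := by
    intro k
    rw [Nat.card_eq_fintype_card, Fintype.card_fun, ZMod.card, Fintype.card_fin]
  have hS : Nat.card (Sc Γ n) ≤ I * q ^ r := by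
    rw [Nat.card_sigma]
    calc ∑ i : Γ.Idx, Nat.card (Fin (Γ.ar i) → Fin n) ≤ ∑ _i : Γ.Idx, q ^ r := by
          refine Finset.sum_le_sum fun i _ => ?_
          rw [Nat.card_eq_fintype_card, Fintype.card_fun, Fintype.card_fin, Fintype.card_fin]
          calc n ^ Γ.ar i ≤ q ^ Γ.ar i := Nat.pow_le_pow_left (by omega) _
            _ ≤ q ^ r := Nat.pow_le_pow_right hq1 (hr i)
      _ = I * q ^ r := by rw [Finset.sum_const, Finset.card_univ, smul_eq_mul]
  have hcon : Nat.card (Con Γ (Fin n)) ≤ Nat.card (Sc Γ n) * 2 ^ r := by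
    rw [Nat.card_sigma, Nat.card_sigma, Finset.sum_mul]
    refine Finset.sum_le_sum fun i _ => ?_
    rw [Nat.card_prod, hfun]
    exact Nat.mul_le_mul_left _ (Nat.pow_le_pow_right (by norm_num) (hr i))
  have hpt : ∀ σ : Sc Γ n, Nat.card (Pt σ) ≤ 2 ^ 2 ^ r := by
    intro σ
    rw [Nat.card_eq_fintype_card, Fintype.card_fun, Fintype.card_bool, Fintype.card_fun, ZMod.card,
      Fintype.card_fin]
    exact Nat.pow_le_pow_right (by norm_num) (Nat.pow_le_pow_right (by norm_num) (hr σ.1))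
  have hS1 : Nat.card (S1 Γ n) ≤ Nat.card (Sc Γ n) * A := by
    rw [Nat.card_sigma]
    calc ∑ σ : Sc Γ n, Nat.card (Pt σ) ≤ ∑ _σ : Sc Γ n, A :=
          Finset.sum_le_sum fun σ _ => (hpt σ).trans hA2
      _ = _ := by rw [Finset.sum_const, Finset.card_univ, smul_eq_mul, Nat.card_eq_fintype_card]
  have hS4 : Nat.card (S4 Γ n) ≤ Nat.card (Sc Γ n) * A := by
    rw [Nat.card_sigma]
    calc ∑ σ : Sc Γ n, Nat.card (Pt σ × (Fin (Γ.ar σ.1) → F2)) ≤ ∑ _σ : Sc Γ n, A := by
          refine Finset.sum_le_sum fun σ _ => ?_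
          rw [Nat.card_prod, hfun, hA]
          exact Nat.mul_le_mul (hpt σ) (Nat.pow_le_pow_right (by norm_num) (hr σ.1))
      _ = _ := by rw [Finset.sum_const, Finset.card_univ, smul_eq_mul, Nat.card_eq_fintype_card]
  have hS3 : Nat.card (S3 n) = 2 * q ^ 2 := by
    rw [Nat.card_prod, Nat.card_prod, hNd, hF]
    ring
  have hS5 : Nat.card (S5 n) = 8 * q ^ 2 := by
    rw [Nat.card_prod, Nat.card_prod, Nat.card_prod, Nat.card_prod, hNd, hF]
    ring
  have hS2 : Nat.card (S2 Γ n) = Nat.card (Sc Γ n) * (2 * q ^ 2) := by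
    rw [Nat.card_prod, hS3]
  have hl : (allEdges Γ n).length = Nat.card (Sc Γ n) * q ^ 2 := by
    rw [length_allEdges, Nat.card_prod, Nat.card_prod, hNd]
    ring
  rw [N0, hS2, hS3, hS5, hl]
  generalize Nat.card (Sc Γ n) = s at *
  have hq2 : q ^ 2 ≤ q ^ 4 := Nat.pow_le_pow_right hq1 (by norm_num)
  have hq4 : 1 ≤ q ^ 4 := Nat.one_le_pow _ _ hq1
  have hcon' : Nat.card (Con Γ (Fin n)) ≤ s * A := hcon.trans (Nat.mul_le_mul_left _ hA1)
  calc Nat.card (Con Γ (Fin n)) + 1 + Nat.card (S1 Γ n) + s * (2 * q ^ 2) + 2 * q ^ 2 +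
        s * q ^ 2 * (8 * q ^ 2 + 2 * q ^ 2) + Nat.card (S4 Γ n) + Nat.card (Con Γ (Fin n))
      ≤ s * A + 1 + s * A + s * (2 * q ^ 2) + 2 * q ^ 2 +
        s * q ^ 2 * (8 * q ^ 2 + 2 * q ^ 2) + s * A + s * A := by gcongr
    _ = (1 + 2 * q ^ 2) + s * (4 * A * 1 + 2 * q ^ 2 + 10 * q ^ 4) := by ring
    _ ≤ (q ^ 4 + 2 * q ^ 4) + (I * q ^ r) * (4 * A * q ^ 4 + 2 * q ^ 4 + 10 * q ^ 4) := by gcongr
    _ = q ^ 4 * 3 * 1 + I * (4 * A + 12) * q ^ (r + 4) := by rw [pow_add]; ring
    _ ≤ q ^ 4 * 3 * q ^ r + I * (4 * A + 12) * q ^ (r + 4) := by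
        gcongr
        exact Nat.one_le_pow _ _ hq1
    _ = (3 + I * (4 * A + 12)) * q ^ (r + 4) := by rw [pow_add]; ring
    _ ≤ _ := by
        refine Nat.mul_le_mul (by omega) (Nat.pow_le_pow_right hq1 (by omega))

universe w

theorem upper (hΓ : ¬ HasParity Γ) : ∃ c : ℕ, ∀ (n : ℕ) (p : ℕ → Prop)
    (C : Circuit.{0, 0, w} (Con Γ (Fin n)) Bool) [Finite C.Gate],
    (∀ φ, C.eval φ C.out = true ↔ p (Nat.card (sol (ones φ)))) →
    ∃ C' : Circuit.{0, 0, w} (Con Γ (Fin n)) Bool, (∀ u, C'.Invariant (flipC u)) ∧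
      (∀ φ, C'.eval φ C'.out = true ↔ p (Nat.card (sol (ones φ)))) ∧
      (∀ g, C'.op g = orLit ∨ C'.op g = andLit ∨ ∃ h, C'.op g = C.op h) ∧ Finite C'.Gate ∧
      Nat.card C'.Gate ≤ Nat.card C.Gate + c * (n + 1) ^ c := by
  obtain ⟨c, hc⟩ := card_bounds Γ
  refine ⟨c, fun n p C _ hC => ?_⟩
  obtain ⟨C', h1, h2, h3, h4, h5⟩ := (comp_canon (Ok := fun o => o = orLit ∨ o = andLit)
    (Or.inl rfl) (Or.inr rfl) (allEdges Γ n)).final (Or.inl rfl) C
  refine ⟨C', h1, fun φ => ?_, fun g => ?_, h4, ?_⟩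
  · rw [h2, hC, card_canon hΓ]
  · rcases h3 g with (h | h) | h
    · exact Or.inl h
    · exact Or.inr (Or.inl h)
    · exact Or.inr (Or.inr h)
  · have := hc n
    omega

end Pool.Agent.H5Dich
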